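import Pool.Agent.H81.RZ.Kir
import Pool.Graph.R_pool_sql_team_seeded_2aa45f1a.Q193.LT.Hir
import Pool.Graph.R_seed8.Q193.LT.Prime

/-!
# The three families decide all schemes of finite type
-/

set_option autoImplicit false
set_option linter.unusedVariables false

open CategoryTheory AlgebraicGeometry Pool.Agent.Y116.UV Pool.Agent.Z125.UN Pool.Agent.Q193.LT

namespace Pool.Agent.H81.RZ

variable {R : Type} [CommRing R]

variable {sep : Prop} {P : Sch R → Prop} [IsNoetherianRing R] (hR : Frac R) (hP : Bnd sep P)

include hR hP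

theorem all_kirchhoff_iff : OnAll sep P ↔ OnKirchhoff P :=
  ⟨fun h n G _ => h _ (ft_aff sep), fun h X hX => universal_kirchhoff hR hP h X hX⟩

theorem all_offKirchhoff_iff : OnAll sep P ↔ OffKirchhoff P := by
  refine ⟨fun h n G _ => ?_, fun h => (all_kirchhoff_iff hR hP).mpr fun n G hG => ?_⟩
  · exact h _ (ft_aff sep)
  · have h1 : P (aff R (MvPolynomial G.edgeSet R)) := by
      have : Fintype G.edgeSet := Fintype.ofFinite _
      exact iso_alg hP.toUni (MvPolynomial.renameEquiv R (Fintype.equivFin G.edgeSet).symm)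
        (hP.toUni.space _)
    exact hP.toUni.closed _ _ (ft_aff sep) (triple_away (kirchhoff R G)) h1 (h n G hG)

theorem all_invertible_iff : OnAll sep P ↔ OnInvertible P := by
  refine ⟨fun h n Z => ?_, fun h X hX => universal_gl hR hP h X hX⟩
  have h4 : Algebra.FiniteType R (Gl R Z) :=
    Algebra.FiniteType.trans (S := Zm R Z) inferInstance inferInstance
  exact h _ (ft_aff sep)

theorem all_singular_iff : OnAll sep P ↔ OnSingular P := by
  rw [all_invertible_iff hR hP]
  exact forall_congr' fun n => forall_congr' fun Z => gl_iff_sg hP.toUni Z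

theorem all_rank_iff {r : ℕ} (hr : 3 ≤ r) : OnAll sep P ↔ OnRank r P :=
  ⟨fun h m n Z => h _ (ft_aff sep), fun h X hX => universal_rk hP.toUni hR hr h X hX⟩

end Pool.Agent.H81.RZ
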