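import Pool.Agent.H81.RZ.Mat
import Pool.Graph.R_seed8.Z125.UN.Bnd

/-!
# Points: affine spaces, the device of Jouanolou, and the vanishing of the coefficients of a linear form
-/

set_option autoImplicit false

open CategoryTheory AlgebraicGeometry MvPolynomial Pool.Agent.Y116.UV Pool.Agent.Z125.UN

namespace Pool.Agent.H81.RZ

variable {R : Type} [CommRing R] {σ : Type} {sep : Prop} {P : Sch R → Prop}

/-- the closed part, from the whole and the open part -/
lemma Hol.clo (hP : Uni sep P) {S : Pts R σ} (e : Fn S) (h : Hol P S) (ho : Hol P (S.opn e)) :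
    Hol P (S.clo e) := by
  obtain ⟨A, i1, i2, i3, a, h1, h2⟩ := h
  have h3 : P (aff R (Localization.Away (e.val A a))) := ho.of_rep (clo_of_uni hP) (h1.opn e)
  exact ⟨_, inferInstance, inferInstance, inferInstance, _, h1.clo e,
    hP.closed _ _ (ft_aff sep) (triple_away (e.val A a)) h2 h3⟩

/-- the product with an affine space -/
def Pts.aff (S : Pts R σ) (τ : Type) : Pts R (σ ⊕ τ) where
  pts C _ _ p := S.pts C (fun s => p (.inl s))
  map f _ h := S.map f h

lemma Rep.aff {S : Pts R σ} {A : Type} [CommRing A] [Algebra R A] {a : σ → A} (h : Rep S A a)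
    (τ : Type) : Rep (S.aff τ) (MvPolynomial τ A) (Sum.elim (fun s => C (a s)) X) where
  mem := S.map (IsScalarTower.toAlgHom R A (MvPolynomial τ A)) h.mem
  ex B _ _ p hp := by
    obtain ⟨f, hf⟩ := h.ex B _ hp
    refine ⟨aevalTower f fun t => p (.inr t), ?_⟩
    rintro (s | t)
    · change aevalTower f _ (C (a s)) = _
      rw [aevalTower_C]
      exact hf s
    · change aevalTower f _ (X t) = _
      rw [aevalTower_X]
  uniq B _ _ f g hfg := by
    apply MvPolynomial.algHom_ext'
    · apply h.uniq
      intro s
      exact hfg (.inl s)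
    · intro t
      exact hfg (.inr t)

lemma Hol.aff (hP : Bnd sep P) {S : Pts R σ} (h : Hol P S) (τ : Type) [Fintype τ] :
    Hol P (S.aff τ) := by
  obtain ⟨A, i1, i2, i3, a, h1, h2⟩ := h
  exact ⟨_, inferInstance, inferInstance, Algebra.FiniteType.trans (S := A) inferInstance
    inferInstance, _, h1.aff τ, p_poly hP τ h2⟩

/-- one coordinate less -/
lemma Hol.of_aff (hP : Uni sep P) {S : Pts R σ} (hS : Repr S) {n : ℕ}
    (h : Hol P (S.aff (Fin n))) : Hol P S := by
  obtain ⟨A, i1, i2, i3, a, h1, -⟩ := hS
  have h2 : P (Y116.UV.aff R (MvPolynomial (Fin n) A)) := h.of_rep (clo_of_uni hP) (h1.aff _)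
  have h3 : Algebra.FiniteType R (MvPolynomial (Fin n) A) :=
    Algebra.FiniteType.trans (S := A) inferInstance inferInstance
  have h4 : P (Y116.UV.aff R (Jou (f1 A n))) :=
    iso_alg hP ((jouOne A n).symm.restrictScalars R) h2
  refine ⟨A, i1, i2, i3, a, h1, hP.jouanolou A (n + 1) (f1 A n) (Y116.UV.aff R A) (𝟙 _)
    (inferInstanceAs (IsOpenImmersion (𝟙 (Y116.UV.aff R A).left))) ?_ h4⟩
  have h5 : Set.range (𝟙 (Y116.UV.aff R A) : Y116.UV.aff R A ⟶ Y116.UV.aff R A).left = Set.univ :=
    Set.range_id
  have h6 : {x : PrimeSpectrum A | ∃ l, f1 A n l ∉ x.asIdeal} = Set.univ := by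
    rw [Set.eq_univ_iff_forall]
    intro x
    exact ⟨0, fun h => x.isPrime.ne_top ((Ideal.eq_top_iff_one _).mpr h)⟩
  exact h5.trans h6.symm

section lin

variable {S : Pts R σ} {n : ℕ} (f : Fin n → Fn S)

/-- the value of the linear form -/
def lv {C : Type} [CommRing C] [Algebra R C] (p : σ ⊕ Fin n → C) : C :=
  ∑ l, (f l).val C (fun s => p (.inl s)) * p (.inr l)

lemma lv_nat {C D : Type} [CommRing C] [Algebra R C] [CommRing D] [Algebra R D] (g : C →ₐ[R] D)
    (p : σ ⊕ Fin n → C) (hp : S.pts C fun s => p (.inl s)) :
    g (lv f p) = lv f fun s => g (p s) := by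
  rw [lv, map_sum]
  apply Finset.sum_congr rfl
  intro l _
  rw [map_mul, (f l).nat g _ hp]

/-- the points where the linear form is one -/
def linOne : Pts R (σ ⊕ Fin n) where
  pts C _ _ p := S.pts C (fun s => p (.inl s)) ∧ lv f p = 1
  map g p h := ⟨S.map g h.1, by
    have h1 := lv_nat f g p h.1
    rw [← h1, h.2, map_one]⟩

/-- the points where the linear form is invertible -/
def linUnit : Pts R (σ ⊕ Fin n) where
  pts C _ _ p := S.pts C (fun s => p (.inl s)) ∧ IsUnit (lv f p)
  map g p h := ⟨S.map g h.1, by
    have h1 := lv_nat f g p h.1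
    rw [← h1]
    exact h.2.map g⟩

/-- all functions zero -/
def cloAll : Pts R σ where
  pts C _ _ p := S.pts C p ∧ ∀ l, (f l).val C p = 0
  map g p h := ⟨S.map g h.1, fun l => by rw [← (f l).nat g p h.1, h.2, map_zero]⟩

variable {A : Type} [CommRing A] [Algebra R A] {a : σ → A}

lemma Rep.linOne (h : Rep S A a) : Rep (linOne f) (Jou fun l => (f l).val A a)
    (Sum.elim (fun s => Ideal.Quotient.mk _ (C (a s))) fun l => Ideal.Quotient.mk _ (X l)) where
  mem := by
    have h1 : S.pts (Jou fun l => (f l).val A a) fun s => Ideal.Quotient.mk _ (C (a s)) :=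
      S.map (IsScalarTower.toAlgHom R A (Jou fun l => (f l).val A a)) h.mem
    refine ⟨h1, ?_⟩
    have h2 : ∀ l, (f l).val (Jou fun l => (f l).val A a)
        (fun s => Ideal.Quotient.mk _ (C (a s))) = Ideal.Quotient.mk _ (C ((f l).val A a)) :=
      fun l => ((f l).nat (IsScalarTower.toAlgHom R A (Jou fun l => (f l).val A a)) a h.mem).symm
    change ∑ l, (f l).val _ (fun s => Ideal.Quotient.mk _ (C (a s))) *
      Ideal.Quotient.mk _ (X l) = 1
    have h3 : ∑ l, (f l).val (Jou fun l => (f l).val A a)
        (fun s => Ideal.Quotient.mk _ (C (a s))) * Ideal.Quotient.mk _ (X l) =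
        Ideal.Quotient.mk _ (∑ l, C ((f l).val A a) * X l) := by
      rw [map_sum]
      apply Finset.sum_congr rfl
      intro l _
      rw [h2, map_mul]
    rw [h3, ← sub_eq_zero, ← map_one (Ideal.Quotient.mk _), ← map_sub]
    exact Ideal.Quotient.eq_zero_iff_mem.mpr (Ideal.mem_span_singleton_self _)
  ex B _ _ p hp := by
    obtain ⟨g, hg⟩ := h.ex B _ hp.1
    refine ⟨Ideal.Quotient.liftₐ _ (aevalTower g fun l => p (.inr l)) ?_, ?_⟩
    · intro x hx
      have h1 : Ideal.span {∑ l, C ((f l).val A a) * X l - 1} ≤
          RingHom.ker (aevalTower g fun l => p (.inr l) : MvPolynomial (Fin n) A →ₐ[R] B) := by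
        rw [Ideal.span_le, Set.singleton_subset_iff]
        change aevalTower g (fun l => p (.inr l)) (∑ l, C ((f l).val A a) * X l - 1) = 0
        rw [map_sub, map_one, map_sum, sub_eq_zero, ← hp.2]
        apply Finset.sum_congr rfl
        intro l _
        rw [map_mul, aevalTower_C, aevalTower_X, (f l).nat g a h.mem, funext hg]
      exact h1 hx
    · rintro (s | l)
      · change aevalTower g _ (C (a s)) = _
        rw [aevalTower_C]
        exact hg s
      · change aevalTower g _ (X l) = _
        rw [aevalTower_X]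
  uniq B _ _ g g' hg := by
    apply Ideal.Quotient.algHom_ext
    apply MvPolynomial.algHom_ext'
    · apply h.uniq
      intro s
      exact hg (.inl s)
    · intro l
      exact hg (.inr l)

lemma Rep.cloAll (h : Rep S A a) :
    Rep (cloAll f) (A ⧸ Ideal.span (Set.range fun l => (f l).val A a))
      (fun s => Ideal.Quotient.mkₐ R (Ideal.span (Set.range fun l => (f l).val A a)) (a s)) where
  mem := ⟨S.map _ h.mem, fun l => by
    rw [← (f l).nat (Ideal.Quotient.mkₐ R (Ideal.span (Set.range fun l => (f l).val A a))) a h.mem]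
    exact Ideal.Quotient.eq_zero_iff_mem.mpr (Ideal.subset_span ⟨l, rfl⟩)⟩
  ex C _ _ p hp := by
    obtain ⟨g, hg⟩ := h.ex C p hp.1
    refine ⟨Ideal.Quotient.liftₐ _ g ?_, hg⟩
    intro x hx
    have h1 : Ideal.span (Set.range fun l => (f l).val A a) ≤ RingHom.ker g := by
      rw [Ideal.span_le]
      rintro _ ⟨l, rfl⟩
      change g ((f l).val A a) = 0
      rw [(f l).nat g a h.mem, funext hg]
      exact hp.2 l
    exact h1 hx
  uniq C _ _ g g' hg := by
    apply Ideal.Quotient.algHom_ext
    apply h.uniq
    intro s
    exact hg s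

lemma Repr.linOne (h : Repr S) : Repr (linOne f) := by
  obtain ⟨A, i1, i2, i3, a, h1, -⟩ := h
  exact ⟨_, inferInstance, inferInstance, Algebra.FiniteType.trans (S := A) inferInstance
    inferInstance, _, h1.linOne f, trivial⟩

/-- Jouanolou's device -/
lemma hol_cloAll (hP : Uni sep P) (h : Hol P S) (h1 : Hol P (linOne f)) : Hol P (cloAll f) := by
  obtain ⟨A, i1, i2, i3, a, h2, h3⟩ := h
  exact ⟨_, inferInstance, inferInstance, inferInstance, _, h2.cloAll f,
    of_jou hP _ h3 (h1.of_rep (clo_of_uni hP) (h2.linOne f))⟩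

lemma lv_smul {C : Type} [CommRing C] [Algebra R C] (p : σ ⊕ Fin n → C) (c : C) :
    lv f (Sum.elim (fun s => p (.inl s)) fun l => c * p (.inr l)) = c * lv f p := by
  rw [lv, lv, Finset.mul_sum]
  apply Finset.sum_congr rfl
  intro l _
  change (f l).val C (fun s => p (.inl s)) * (c * p (.inr l)) = _
  ring

lemma bij_linUnit : Bij (linUnit f) (linOne f).gm
    (fun _ _ _ p t => t.elim (lv f p) fun t =>
      Sum.elim (fun s => p (.inl s)) (fun l => Ring.inverse (lv f p) * p (.inr l)) t)
    (fun _ _ _ q t => Sum.elim (fun s => q (some (.inl s)))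
      (fun l => q none * q (some (.inr l))) t) where
  natF {C D} _ _ _ _ g p hp t := by
    rcases t with _ | s | l
    · exact lv_nat f g p hp.1
    · rfl
    · change g (Ring.inverse (lv f p) * p (.inr l)) =
        Ring.inverse (lv f fun s => g (p s)) * g (p (.inr l))
      have h1 := map_inverse_of_isUnit (g : C →+* D) hp.2
      have h2 : (g : C →+* D) (lv f p) = lv f fun s => g (p s) := lv_nat f g p hp.1
      rw [h2] at h1
      rw [map_mul, ← h1]
      rfl
  natG g q _ t := by
    rcases t with s | l
    · rfl
    · exact map_mul g _ _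
  memF C _ _ p hp := by
    refine ⟨⟨hp.1, ?_⟩, hp.2⟩
    have h1 := lv_smul f p (Ring.inverse (lv f p))
    rw [Ring.inverse_mul_cancel _ hp.2] at h1
    exact h1
  memG C _ _ q hq := by
    refine ⟨hq.1.1, ?_⟩
    have h1 := lv_smul f (fun s => q (some s)) (q none)
    have h2 : lv f (fun s => q (some s)) = 1 := hq.1.2
    rw [h2, mul_one] at h1
    have h3 : lv f (Sum.elim (fun s => q (some (.inl s)))
        fun l => q none * q (some (.inr l))) = q none := h1
    have h4 : IsUnit (lv f (Sum.elim (fun s => q (some (.inl s)))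
        fun l => q none * q (some (.inr l)))) := by
      rw [h3]
      exact hq.2
    exact h4
  GF C _ _ p hp := by
    funext t
    rcases t with s | l
    · rfl
    · change lv f p * (Ring.inverse (lv f p) * p (.inr l)) = p (.inr l)
      rw [← mul_assoc, Ring.mul_inverse_cancel _ hp.2, one_mul]
  FG C _ _ q hq := by
    have h1 := lv_smul f (fun s => q (some s)) (q none)
    have h2 : lv f (fun s => q (some s)) = 1 := hq.1.2
    rw [h2, mul_one] at h1
    have h3 : lv f (fun t => Sum.elim (fun s => q (some (.inl s)))
        (fun l => q none * q (some (.inr l))) t) = q none := h1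
    funext t
    rcases t with _ | s | l
    · exact h3
    · rfl
    · change Ring.inverse (lv f fun t => Sum.elim (fun s => q (some (.inl s)))
        (fun l => q none * q (some (.inr l))) t) * (q none * q (some (.inr l))) = _
      rw [h3, ← mul_assoc, Ring.inverse_mul_cancel _ hq.2, one_mul]

lemma hol_linOne (hP : Uni sep P) (hS : Repr S) (h : Hol P (linUnit f)) : Hol P (linOne f) :=
  Hol.of_gm (clo_of_uni hP) (hS.linOne f) (h.trans (bij_linUnit f))

end lin

section key

variable {S : Pts R σ} (m : Fn S) {n : ℕ} (g : Fin n → Fn S)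

/-- a function on a part -/
def opnFn (e : Fn S) : Fn (S.opn m) where
  val := e.val
  nat f p h := e.nat f p h.1

/-- a function on the points with one more linear form -/
def Fn.one {k : ℕ} (f : Fin k → Fn S) (e : Fn S) : Fn (linOne f) where
  val C _ _ p := e.val C fun s => p (.inl s)
  nat h _ hp := e.nat h _ hp.1

/-- the key step: the vanishing of the coefficients `g` where `m` is invertible -/
theorem hol_key (hP : Bnd sep P) (hS : Repr S) (h1 : Hol P (S.opn m))
    (h2 : Hol P (linUnit (Fin.cons m g : Fin (n + 1) → Fn S))) (h3 : Hol P (linUnit g)) :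
    Hol P (cloAll fun l => opnFn m (g l)) := by
  let F : Fin (n + 1) → Fn S := Fin.cons m g
  have ha : Hol P (linOne F) := hol_linOne F hP.toUni hS h2
  have hb : Hol P (linOne g) := hol_linOne g hP.toUni hS h3
  have hF : ∀ {C : Type} [CommRing C] [Algebra R C] (p : σ ⊕ Fin (n + 1) → C),
      lv F p = m.val C (fun s => p (.inl s)) * p (.inr 0) +
        lv g (Sum.elim (fun s => p (.inl s)) fun l => p (.inr l.succ)) := by
    intro C _ _ p
    rw [lv, Fin.sum_univ_succ]
    rfl
  -- the open part of the first
  have hd : Hol P ((linOne F).opn (m.one F)) := by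
    refine (h1.aff hP (Fin n)).trans (T := (linOne F).opn (m.one F))
      (F := fun C _ _ p t => Sum.elim (fun s => p (.inl s)) (fun l => Fin.cases
        (Ring.inverse (m.val C fun s => p (.inl s)) * (1 - lv g p)) (fun i => p (.inr i)) l) t)
      (G := fun _ _ _ q t => Sum.elim (fun s => q (.inl s)) (fun l => q (.inr l.succ)) t) ?_
    exact
    { natF := fun {C D} _ _ _ _ f p hp t => by
        rcases t with s | l
        · rfl
        · refine Fin.cases ?_ (fun i => rfl) l
          change f (Ring.inverse (m.val C fun s => p (.inl s)) * (1 - lv g p)) =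
            Ring.inverse (m.val D fun s => f (p (.inl s))) * (1 - lv g fun s => f (p s))
          have h4 := map_inverse_of_isUnit (f : C →+* D) hp.2
          have h5 : (f : C →+* D) (m.val C fun s => p (.inl s)) =
            m.val D fun s => f (p (.inl s)) := m.nat f _ hp.1
          rw [h5] at h4
          rw [map_mul, map_sub, map_one, lv_nat g f p hp.1, ← h4]
          rfl
      natG := fun f q _ t => by
        rcases t with s | l <;> rfl
      memF := fun C _ _ p hp => by
        refine ⟨⟨hp.1, ?_⟩, hp.2⟩
        rw [hF]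
        change m.val C (fun s => p (.inl s)) *
          (Ring.inverse (m.val C fun s => p (.inl s)) * (1 - lv g p)) + lv g _ = 1
        have h4 : (Sum.elim (fun s => p (.inl s)) fun l => p (.inr l) : σ ⊕ Fin n → C) = p := by
          funext t
          rcases t with s | l <;> rfl
        have h5 : lv g (Sum.elim (fun s => p (.inl s)) fun l => p (.inr l)) = lv g p := by
          rw [h4]
        rw [← mul_assoc, Ring.mul_inverse_cancel _ hp.2, one_mul]
        change 1 - lv g p + lv g (Sum.elim (fun s => p (.inl s)) fun l => p (.inr l)) = 1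
        rw [h5]
        ring
      memG := fun C _ _ q hq => ⟨hq.1.1, hq.2⟩
      GF := fun C _ _ p _ => by
        funext t
        rcases t with s | l <;> rfl
      FG := fun C _ _ q hq => by
        funext t
        rcases t with s | l
        · rfl
        · refine Fin.cases ?_ (fun i => rfl) l
          have h4 : lv F q = 1 := hq.1.2
          rw [hF] at h4
          change Ring.inverse (m.val C fun s => q (.inl s)) *
            (1 - lv g fun t => Sum.elim (fun s => q (.inl s)) (fun l => q (.inr l.succ)) t) =
              q (.inr 0)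
          have h5 : 1 - lv g (fun t => Sum.elim (fun s => q (.inl s))
              (fun l => q (.inr l.succ)) t) = m.val C (fun s => q (.inl s)) * q (.inr 0) := by
            rw [← h4]
            exact add_sub_cancel_right _ _
          have h6 : IsUnit (m.val C fun s => q (.inl s)) := hq.2
          rw [h5, ← mul_assoc, Ring.inverse_mul_cancel _ h6, one_mul] }
  have he : Hol P ((linOne F).clo (m.one F)) := ha.clo hP.toUni _ hd
  -- without the superfluous coordinate
  have hf : Hol P (((linOne g).clo (m.one g)).aff (Fin 1)) := by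
    refine he.trans
      (F := fun _ _ _ p t => Sum.elim (fun t => Sum.elim (fun s => p (.inl s))
        (fun l => p (.inr l.succ)) t) (fun _ => p (.inr 0)) t)
      (G := fun _ _ _ q t => Sum.elim (fun s => q (.inl (.inl s)))
        (fun l => Fin.cases (q (.inr 0)) (fun i => q (.inl (.inr i))) l) t) ?_
    exact
    { natF := fun f q _ t => by
        rcases t with (s | l) | l <;> rfl
      natG := fun f p _ t => by
        rcases t with s | l
        · rfl
        · exact Fin.cases rfl (fun i => rfl) l
      memF := fun C _ _ p hp => by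
        have h4 : lv F p = 1 := hp.1.2
        have h5 : m.val C (fun s => p (.inl s)) = 0 := hp.2
        rw [hF, h5, zero_mul, zero_add] at h4
        exact ⟨⟨hp.1.1, h4⟩, h5⟩
      memG := fun C _ _ q hq => by
        have h5 : m.val C (fun s => q (.inl (.inl s))) = 0 := hq.2
        have h4 : lv g (fun s => q (.inl s)) = 1 := hq.1.2
        refine ⟨⟨hq.1.1, ?_⟩, h5⟩
        rw [hF]
        change m.val C (fun s => q (.inl (.inl s))) * _ + _ = 1
        rw [h5, zero_mul, zero_add, ← h4]
        congr 1
        funext t
        rcases t with s | l <;> rfl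
      GF := fun C _ _ p _ => by
        funext t
        rcases t with s | l
        · rfl
        · exact Fin.cases rfl (fun i => rfl) l
      FG := fun C _ _ q _ => by
        funext t
        rcases t with (s | l) | l
        · rfl
        · rfl
        · have h4 : l = 0 := Subsingleton.elim _ _
          subst h4
          rfl }
  have hg : Hol P ((linOne g).clo (m.one g)) := Hol.of_aff hP.toUni ((hS.linOne g).clo _) hf
  have hh : Hol P ((linOne g).opn (m.one g)) := hb.opn _ (clo_of_uni hP.toUni) hg
  have hi : Hol P (linOne fun l => opnFn m (g l)) :=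
    Hol.congr (S := (linOne g).opn (m.one g))
      (fun C _ _ p => ⟨fun h => ⟨⟨h.1.1, h.2⟩, h.1.2⟩, fun h => ⟨⟨h.1.1, h.2⟩, h.1.2⟩⟩) hh
  exact hol_cloAll _ hP.toUni h1 hi

end key

end Pool.Agent.H81.RZ
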