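import Pool.Agent.H81.RZ.Pre
import Pool.Graph.R_pool_sql_team_seeded_2aa45f1a.Q49.WU.Pair

/-!
# Comparison maps in one weight and matrices with prescribed zeros
-/

set_option autoImplicit false

open CategoryTheory CategoryTheory.Limits AlgebraicGeometry Pool.Agent.Y116.UV Pool.Agent.Z125.UN
  Pool.Agent.Q193.LT Pool.Agent.Q49.WU Pool.Agent.Q282.UK

universe w w'

namespace Pool.Agent.H81.RZ

variable {R : Type} [CommRing R] {ι : Type} {E : Type w'} [CommRing E]
  {D : PairData.{w} R ι E} {wt : ι → ℤ} {δ τ σ : ι ≃ ι}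

/-- Closure properties in one weight; affine bundles are not used. -/
theorem clo_at (hD : IsPair D δ τ σ) (hg : IsGraded wt δ τ σ) (N : ℤ) :
    Clo True (BijAt D wt N) where
  iso hX e h j hj := (hD.iso hX e j).iff.mp (h j hj)
  total i j hX ht hZ hU := by
    rw [cut_iff] at *
    rcases hD.les i j hX ht with h | h
    · exact (cut_les hg.δ h).mid hU hZ
    · exact (cut_les hg.δ h).mid hZ hU
  opened i j hX ht hZ hX' := by
    rw [cut_iff] at *
    rcases hD.les i j hX ht with h | h
    · exact (cut_les hg.δ h).left hX' hZ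
    · exact (cut_les hg.δ h).right hZ hX'
  torus B _ _ _ h q hq := (hD.torus B q).bij (h _ (by rw [hg.σ]; exact hq))

end Pool.Agent.H81.RZ
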