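import Pool.Agent.H81.RZ.Sy

/-!
# Symmetric matrices with prescribed zeros off the diagonal decide everything
-/

set_option autoImplicit false
set_option linter.unusedSectionVars false

open CategoryTheory AlgebraicGeometry MvPolynomial Pool.Agent.Y116.UV Pool.Agent.Z125.UN
  Pool.Agent.Q193.LT

namespace Pool.Agent.H81.RZ

variable {R : Type} [CommRing R] {sep : Prop} {P : Sch R → Prop}

section

variable {K : Type} [Fintype K] [DecidableEq K]

lemma det_blocks_unit {C : Type} [CommRing C] (N Y : Matrix K K C) :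
    IsUnit (Matrix.fromBlocks 0 N N.transpose Y).det ↔ IsUnit N.det := by
  have h1 := Matrix.det_permute' (Equiv.sumComm K K) (Matrix.fromBlocks 0 N N.transpose Y)
  have h2 : (Matrix.fromBlocks 0 N N.transpose Y).submatrix id (Equiv.sumComm K K) =
      Matrix.fromBlocks N 0 Y N.transpose := by
    ext x y
    rcases x with x | x <;> rcases y with y | y <;> rfl
  rw [h2, Matrix.det_fromBlocks_zero₁₂, Matrix.det_transpose] at h1
  have h3 : IsUnit ((((Equiv.Perm.sign (Equiv.sumComm K K : Equiv.Perm (K ⊕ K))) : ℤ) : C)) := by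
    have h4 := (Equiv.Perm.sign (Equiv.sumComm K K : Equiv.Perm (K ⊕ K))).isUnit
    exact h4.map (Int.castRingHom C)
  constructor
  · intro h
    have h5 := h3.mul h
    rw [← h1] at h5
    exact isUnit_of_mul_isUnit_left h5
  · intro h
    have h5 := h.mul h
    rw [h1] at h5
    exact isUnit_of_mul_isUnit_right h5

/-- a symmetric matrix from its blocks -/
def bl {C : Type} [CommRing C] (q : (K × K) ⊕ Sym2 K → C) : (K ⊕ K) × (K ⊕ K) → C
  | (.inl _, .inl _) => 0
  | (.inl a, .inr b) => q (.inl (a, b))
  | (.inr b, .inl a) => q (.inl (a, b))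
  | (.inr b, .inr b') => q (.inr s(b, b'))

lemma bij_sg (Z : Set (K × K)) : Bij (sy R Z (Set.univ : Set K)) ((gz R Z ∅).aff (Sym2 K))
    (fun _ _ _ p t => Sum.elim (fun e => p (.inl e.1, .inr e.2))
      (fun s => p (.inr (Quot.out s).1, .inr (Quot.out s).2)) t)
    (fun _ _ _ q e => bl q e) where
  natF f p _ t := by rcases t with e | s <;> rfl
  natG f q _ e := by
    obtain ⟨x, y⟩ := e
    rcases x with x | x <;> rcases y with y | y
    · exact map_zero f
    · rfl
    · rfl
    · rfl
  memF C _ _ p hp := by
    obtain ⟨⟨h1, h2, h3, h4⟩, h5⟩ := hp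
    refine ⟨fun e he => h4 e he, fun e he => absurd he (Set.notMem_empty e), ?_⟩
    have h6 : (Matrix.of fun x y => p (x, y)) = Matrix.fromBlocks 0
        (Matrix.of fun x y => p (.inl x, .inr y)) (Matrix.of fun x y => p (.inl x, .inr y)).transpose
        (Matrix.of fun x y => p (.inr x, .inr y)) := by
      ext x y
      rcases x with x | x <;> rcases y with y | y
      · change p (.inl x, .inl y) = 0
        by_cases h : x = y
        · subst h
          exact h3 x trivial
        · exact h2 x y h
      · rfl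
      · exact h1 _ _
      · rfl
    rw [h6, det_blocks_unit] at h5
    exact h5
  memG C _ _ q hq := by
    obtain ⟨h1, -, h2⟩ := hq
    refine ⟨⟨fun x y => ?_, fun _ _ _ => rfl, fun _ _ => rfl, fun e he => h1 e he⟩, ?_⟩
    · rcases x with x | x <;> rcases y with y | y
      · rfl
      · rfl
      · rfl
      · change q (.inr s(x, y)) = q (.inr s(y, x))
        rw [Sym2.eq_swap]
    · have h6 : (Matrix.of fun x y => bl q (x, y)) = Matrix.fromBlocks 0
          (Matrix.of fun x y => q (.inl (x, y))) (Matrix.of fun x y => q (.inl (x, y))).transpose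
          (Matrix.of fun x y => q (.inr s(x, y))) := by
        ext x y
        rcases x with x | x <;> rcases y with y | y <;> rfl
      change IsUnit (Matrix.of fun x y => bl q (x, y)).det
      rw [h6, det_blocks_unit]
      exact h2
  GF C _ _ p hp := by
    obtain ⟨⟨h1, h2, h3, h4⟩, h5⟩ := hp
    funext e
    obtain ⟨x, y⟩ := e
    rcases x with x | x <;> rcases y with y | y
    · change 0 = p (.inl x, .inl y)
      by_cases h : x = y
      · subst h
        exact (h3 x trivial).symm
      · exact (h2 x y h).symm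
    · rfl
    · exact h1 _ _
    · change p (.inr (Quot.out s(x, y)).1, .inr (Quot.out s(x, y)).2) = p (.inr x, .inr y)
      have h6 : s((Quot.out s(x, y)).1, (Quot.out s(x, y)).2) = s(x, y) := Quot.out_eq s(x, y)
      rcases Sym2.eq_iff.mp h6 with ⟨h7, h8⟩ | ⟨h7, h8⟩
      · rw [h7, h8]
      · rw [h7, h8, h1]
  FG C _ _ q hq := by
    funext t
    rcases t with e | s
    · rfl
    · change q (.inr s((Quot.out s).1, (Quot.out s).2)) = q (.inr s)
      have h6 : s((Quot.out s).1, (Quot.out s).2) = s := Quot.out_eq s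
      rw [h6]

end

lemma repr_gz {K : Type} [Fintype K] [DecidableEq K] (Z : Set (K × K)) : Repr (gz R Z ∅) := by
  classical
  let S := zer {g | ∃ e ∈ Z, g = (X e : MvPolynomial (K × K) R)}
  have h1 : Repr S := ⟨_, inferInstance, inferInstance, inferInstance, _, rep_zer _, trivial⟩
  let e : Fn S :=
    { val := fun C _ _ p => (Matrix.of fun x y => p (x, y)).det
      nat := fun {C D} _ _ _ _ f p _ =>
        RingHom.map_det (f : C →+* D) (Matrix.of fun x y => p (x, y)) }
  refine Hol.congr (fun C _ _ p => ?_) (h1.opn e)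
  constructor
  · rintro ⟨h2, h3⟩
    refine ⟨fun e he => ?_, fun e he => absurd he (Set.notMem_empty e), h3⟩
    have h4 := h2 _ ⟨e, he, rfl⟩
    rwa [aeval_X] at h4
  · rintro ⟨h2, -, h3⟩
    refine ⟨?_, h3⟩
    rintro _ ⟨e, he, rfl⟩
    rw [aeval_X]
    exact h2 e he

/-- From the symmetric matrices with prescribed zeros off the diagonal to all matrices with prescribed
zeros. -/
theorem hol_gz_of_sy (hP : Bnd sep P)
    (h : ∀ (K : Type) [Fintype K] [DecidableEq K] (Z : Set (K × K)), Hol P (sy R Z (∅ : Set K)))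
    (K : Type) [Fintype K] [DecidableEq K] (Z : Set (K × K)) : Hol P (gz R Z ∅) := by
  classical
  have h1 := hol_diag hP (h K) (Finset.univ : Finset K) Z
  rw [Finset.coe_univ] at h1
  exact hol_of_aff hP.toUni (repr_gz Z) (Sym2 K) (h1.trans (bij_sg Z))

end Pool.Agent.H81.RZ
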