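import Pool.Agent.H81.RZ.Tree
import Pool.Agent.H81.RZ.Sy2

/-!
# The hypersurfaces of the Kirchhoff polynomials of graphs
-/

set_option autoImplicit false
set_option linter.unusedSectionVars false

open CategoryTheory AlgebraicGeometry MvPolynomial Pool.Agent.Y116.UV Pool.Agent.Z125.UN
  Pool.Agent.Q193.LT

namespace Pool.Agent.H81.RZ

variable {R : Type} [CommRing R] {sep : Prop} {P : Sch R → Prop}

section ext

variable {n : ℕ} (G : SimpleGraph (Fin n)) {C : Type} [CommRing C]

/-- extension by zero -/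
noncomputable def xt (x : G.edgeSet → C) (e : Sym2 (Fin n)) : C :=
  open Classical in if h : e ∈ G.edgeSet then x ⟨e, h⟩ else 0

lemma xt_mem (x : G.edgeSet → C) (e : G.edgeSet) : xt G x e = x e := dif_pos e.2

lemma xt_not (x : G.edgeSet → C) {e : Sym2 (Fin n)} (h : e ∉ G.edgeSet) : xt G x e = 0 :=
  dif_neg h

lemma xt_diag (x : G.edgeSet → C) (e : Sym2 (Fin n)) (h : e.IsDiag) : xt G x e = 0 :=
  xt_not G x fun h' => G.not_isDiag_of_mem_edgeSet h' h

lemma aeval_kirchhoff [Algebra R C] (x : G.edgeSet → C) :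
    aeval x (kirchhoff R G) = trees (xt G x) := by
  classical
  rw [kirchhoff, map_sum, trees]
  refine Finset.sum_of_injOn (fun T : Finset G.edgeSet => T.map (Function.Embedding.subtype _))
    ?_ ?_ ?_ ?_
  · intro T _ T' _ h
    exact Finset.map_injective _ h
  · intro T hT
    rw [Finset.mem_coe, Finset.mem_filter] at hT ⊢
    refine ⟨Finset.mem_univ _, ?_⟩
    rw [Finset.coe_map]
    exact hT.2
  · intro T hT h
    by_cases hs : ∀ e ∈ T, e ∈ G.edgeSet
    · exfalso
      apply h
      refine ⟨T.subtype (· ∈ G.edgeSet), ?_, ?_⟩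
      · rw [Finset.mem_coe, Finset.mem_filter]
        refine ⟨Finset.mem_univ _, ?_⟩
        have h1 : (Subtype.val '' ((T.subtype (· ∈ G.edgeSet) : Finset G.edgeSet) : Set G.edgeSet)) =
            (T : Set (Sym2 (Fin n))) := by
          ext e
          constructor
          · rintro ⟨e', he, rfl⟩
            exact Finset.mem_subtype.mp he
          · intro he
            exact ⟨⟨e, hs e he⟩, Finset.mem_subtype.mpr he, rfl⟩
        rw [h1]
        exact (Finset.mem_filter.mp hT).2
      · ext e
        rw [Finset.mem_map]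
        constructor
        · rintro ⟨e', he, rfl⟩
          exact Finset.mem_subtype.mp he
        · intro he
          exact ⟨⟨e, hs e he⟩, Finset.mem_subtype.mpr he, rfl⟩
    · push Not at hs
      obtain ⟨e, he, he'⟩ := hs
      exact Finset.prod_eq_zero he (xt_not G x he')
  · intro T _
    rw [map_prod, Finset.prod_map]
    apply Finset.prod_congr rfl
    intro e _
    rw [aeval_X]
    exact (xt_mem G x e).symm

end ext

section al

/-- all points -/
def al (R : Type) [CommRing R] (σ : Type) : Pts R σ where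
  pts _ _ _ _ := True
  map _ _ _ := trivial

lemma rep_al (R : Type) [CommRing R] (σ : Type) : Rep (al R σ) (MvPolynomial σ R) X where
  mem := trivial
  ex C _ _ p _ := ⟨aeval p, fun s => aeval_X p s⟩
  uniq C _ _ f g h := MvPolynomial.algHom_ext h

lemma hol_al (hP : Uni sep P) (σ : Type) [Finite σ] : Hol P (al R σ) := by
  have : Fintype σ := Fintype.ofFinite σ
  exact ⟨_, inferInstance, inferInstance, inferInstance, _, rep_al R σ,
    iso_alg hP (renameEquiv R (Fintype.equivFin σ).symm) (hP.space _)⟩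

/-- a polynomial function -/
noncomputable def plFn {σ : Type} (F : MvPolynomial σ R) : Fn (al R σ) where
  val _ _ _ p := aeval p F
  nat f p _ := by
    have h1 : aeval (fun s => f (p s)) = f.comp (aeval p) := by
      apply MvPolynomial.algHom_ext
      intro s
      rw [aeval_X, AlgHom.comp_apply, aeval_X]
    rw [h1]
    rfl

/-- the complement of a hypersurface -/
lemma hol_compl (hP : Uni sep P) {σ : Type} [Finite σ] (F : MvPolynomial σ R)
    (h : P (aff R (MvPolynomial σ R ⧸ Ideal.span {F}))) : Hol P ((al R σ).opn (plFn F)) := by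
  refine Hol.opn (plFn F) (clo_of_uni hP) (hol_al hP σ) ?_
  have h1 : aeval (X : σ → MvPolynomial σ R) F = F := aeval_X_left_apply F
  have h2 : P (aff R (MvPolynomial σ R ⧸ Ideal.span {aeval (X : σ → MvPolynomial σ R) F})) := by
    rw [h1]
    exact h
  exact ⟨_, inferInstance, inferInstance, inferInstance, _, (rep_al R σ).clo (plFn F), h2⟩

end al

section lap

variable {V : Type} [Fintype V] [DecidableEq V] {C : Type} [CommRing C]

/-- the reduced Laplacian matrix -/
lemma det_reduced (w : Sym2 (Option V) → C) :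
    (Matrix.of fun x y => lapl w (some x) (some y) : Matrix V V C).det =
      ((lapl w).updateRow none (Pi.single none 1)).det := by
  have h1 : (lapl w).updateRow none (Pi.single none 1) =
      Sq (Matrix.of fun x y => lapl w (some x) (some y)) (fun x => lapl w (some x) none) 1 0 := by
    ext x y
    rcases x with _ | x
    · rw [Matrix.updateRow_self]
      rcases y with _ | y
      · simp [Sq]
      · simp [Sq]
    · rw [Matrix.updateRow_ne (by simp)]
      rcases y with _ | y <;> rfl
  rw [h1, det_Sq]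
  simp

lemma det_reindex {n : ℕ} (e : V ≃ Fin n) (w : Sym2 (Fin n) → C) (r : V) :
    ((lapl fun s : Sym2 V => w (s.map e)).updateRow r (Pi.single r 1)).det =
      ((lapl w).updateRow (e r) (Pi.single (e r) 1)).det := by
  rw [← Matrix.det_submatrix_equiv_self e]
  congr 1
  ext x y
  change _ = (lapl w).updateRow (e r) (Pi.single (e r) 1) (e x) (e y)
  by_cases hx : x = r
  · subst hx
    rw [Matrix.updateRow_self, Matrix.updateRow_self, Pi.single_apply, Pi.single_apply]
    simp only [e.injective.eq_iff]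
  · rw [Matrix.updateRow_ne hx, Matrix.updateRow_ne fun h => hx (e.injective h)]
    simp only [lapl, Matrix.of_apply, Sym2.map_mk, e.injective.eq_iff]
    congr 1
    split_ifs
    · exact e.sum_comp fun t => w s(e x, t)
    · rfl

lemma lapl_symm (w : Sym2 V → C) (u v : V) : lapl w u v = lapl w v u := by
  simp only [lapl, Matrix.of_apply]
  by_cases h : u = v
  · subst h
    rfl
  · rw [if_neg h, if_neg (Ne.symm h), Sym2.eq_swap]

lemma lapl_sum (w : Sym2 (Option V) → C) (hw : ∀ e : Sym2 (Option V), e.IsDiag → w e = 0) (x : V) :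
    ∑ y, lapl w (some x) (some y) = w s(some x, none) := by
  have h1 : ∑ y, lapl w (some x) y = 0 := by
    simp [lapl, Finset.sum_sub_distrib]
  rw [Fintype.sum_option] at h1
  have h2 : lapl w (some x) none = -w s(some x, none) := by
    simp [lapl]
  rw [h2] at h1
  linear_combination h1

end lap

section gr

variable {K : Type} [Fintype K] [DecidableEq K] {n : ℕ} (e : Option (K ⊕ K) ≃ Fin n)
  (Z : Set (K × K))

/-- adjacency -/
def adj : Option (K ⊕ K) → Option (K ⊕ K) → Prop
  | none, none => False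
  | none, some _ => True
  | some _, none => True
  | some (.inl _), some (.inl _) => False
  | some (.inl a), some (.inr b) => (a, b) ∉ Z
  | some (.inr b), some (.inl a) => (a, b) ∉ Z
  | some (.inr b), some (.inr b') => b ≠ b'

lemma adj_symm {u v : Option (K ⊕ K)} (h : adj Z u v) : adj Z v u := by
  rcases u with _ | u | u <;> rcases v with _ | v | v
  · exact h
  · trivial
  · trivial
  · trivial
  · exact h
  · exact h
  · trivial
  · exact h
  · exact fun h' => h h'.symm

lemma adj_irrefl (u : Option (K ⊕ K)) : ¬ adj Z u u := by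
  rcases u with _ | u | u
  · exact fun h => h
  · exact fun h => h
  · exact fun h => h rfl

/-- the graph -/
def gr : SimpleGraph (Fin n) where
  Adj i j := adj Z (e.symm i) (e.symm j)
  symm := ⟨fun _ _ h => adj_symm Z h⟩
  loopless := ⟨fun i h => adj_irrefl Z (e.symm i) h⟩

lemma gr_split : IsSplit (gr e Z) := by
  refine ⟨{i | ∃ a : K, e.symm i = some (.inl a)}, ?_, ?_⟩
  · rintro i ⟨a, ha⟩ j ⟨b, hb⟩ h
    have h1 : adj Z (e.symm i) (e.symm j) := h
    rw [ha, hb] at h1
    exact h1
  · intro i hi j hj hij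
    change adj Z (e.symm i) (e.symm j)
    have hi' : ∀ a : K, e.symm i ≠ some (.inl a) := fun a ha => hi ⟨a, ha⟩
    have hj' : ∀ a : K, e.symm j ≠ some (.inl a) := fun a ha => hj ⟨a, ha⟩
    have hij' : e.symm i ≠ e.symm j := fun h => hij (e.symm.injective h)
    generalize e.symm i = x at hi' hij' ⊢
    generalize e.symm j = y at hj' hij' ⊢
    rcases x with _ | u | u <;> rcases y with _ | v | v
    · exact hij' rfl
    · exact absurd rfl (hj' v)
    · trivial
    · exact absurd rfl (hi' u)
    · exact absurd rfl (hi' u)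
    · exact absurd rfl (hi' u)
    · trivial
    · exact absurd rfl (hj' v)
    · exact fun h => hij' (by rw [h])

/-- the weight of an edge -/
def hW {C : Type} [CommRing C] (p : (K ⊕ K) × (K ⊕ K) → C) :
    Option (K ⊕ K) → Option (K ⊕ K) → C
  | none, none => 0
  | none, some i => ∑ j, p (i, j)
  | some i, none => ∑ j, p (i, j)
  | some i, some j => -p (i, j)

lemma hW_symm {C : Type} [CommRing C] (p : (K ⊕ K) × (K ⊕ K) → C)
    (hp : ∀ x y, p (x, y) = p (y, x)) (u v : Option (K ⊕ K)) : hW p u v = hW p v u := by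
  rcases u with _ | u <;> rcases v with _ | v
  · rfl
  · rfl
  · rfl
  · exact congrArg Neg.neg (hp u v)

lemma map_hW {C D : Type} [CommRing C] [CommRing D] (f : C →+* D) (p : (K ⊕ K) × (K ⊕ K) → C)
    (u v : Option (K ⊕ K)) : f (hW p u v) = hW (fun e => f (p e)) u v := by
  rcases u with _ | u <;> rcases v with _ | v
  · exact map_zero f
  · exact map_sum f _ _
  · exact map_sum f _ _
  · exact map_neg f _

/-- the weights from the matrix -/
noncomputable def wt {C : Type} [CommRing C] (p : (K ⊕ K) × (K ⊕ K) → C)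
    (s : (gr e Z).edgeSet) : C :=
  hW p (e.symm (Quot.out s.1).1) (e.symm (Quot.out s.1).2)

lemma wt_mk {C : Type} [CommRing C] (p : (K ⊕ K) × (K ⊕ K) → C)
    (hp : ∀ x y, p (x, y) = p (y, x)) (u v : Option (K ⊕ K)) (h : s(e u, e v) ∈ (gr e Z).edgeSet) :
    wt e Z p ⟨s(e u, e v), h⟩ = hW p u v := by
  have h6 : s((Quot.out s(e u, e v)).1, (Quot.out s(e u, e v)).2) = s(e u, e v) :=
    Quot.out_eq s(e u, e v)
  change hW p (e.symm (Quot.out s(e u, e v)).1) (e.symm (Quot.out s(e u, e v)).2) = _
  rcases Sym2.eq_iff.mp h6 with ⟨h7, h8⟩ | ⟨h7, h8⟩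
  · rw [h7, h8, Equiv.symm_apply_apply, Equiv.symm_apply_apply]
  · rw [h7, h8, Equiv.symm_apply_apply, Equiv.symm_apply_apply, hW_symm p hp]

lemma edge_iff (u v : Option (K ⊕ K)) : s(e u, e v) ∈ (gr e Z).edgeSet ↔ adj Z u v := by
  rw [SimpleGraph.mem_edgeSet]
  change adj Z (e.symm (e u)) (e.symm (e v)) ↔ _
  rw [Equiv.symm_apply_apply, Equiv.symm_apply_apply]

/-- the matrix from the weights -/
noncomputable def mw {C : Type} [CommRing C] (x : (gr e Z).edgeSet → C)
    (t : (K ⊕ K) × (K ⊕ K)) : C :=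
  lapl (fun s => xt (gr e Z) x (s.map e)) (some t.1) (some t.2)

lemma mw_ne {C : Type} [CommRing C] (x : (gr e Z).edgeSet → C) {i j : K ⊕ K} (h : i ≠ j) :
    mw e Z x (i, j) = -xt (gr e Z) x s(e (some i), e (some j)) := by
  have h1 : (some i : Option (K ⊕ K)) ≠ some j := fun h' => h (Option.some.inj h')
  simp only [mw, lapl, Matrix.of_apply]
  rw [if_neg h1, zero_sub]
  rfl

lemma mw_not {C : Type} [CommRing C] (x : (gr e Z).edgeSet → C) {i j : K ⊕ K} (h : i ≠ j)
    (h' : ¬ adj Z (some i) (some j)) : mw e Z x (i, j) = 0 := by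
  rw [mw_ne e Z x h, xt_not, neg_zero]
  rw [edge_iff]
  exact h'

lemma diag_map {C : Type} [CommRing C] (x : (gr e Z).edgeSet → C) (s : Sym2 (Option (K ⊕ K)))
    (hs : s.IsDiag) : xt (gr e Z) x (s.map e) = 0 := by
  apply xt_diag
  induction s with
  | h u v =>
    have h1 : u = v := hs
    subst h1
    rfl

lemma mw_sum {C : Type} [CommRing C] (x : (gr e Z).edgeSet → C) (i : K ⊕ K) :
    ∑ j, mw e Z x (i, j) = xt (gr e Z) x s(e (some i), e none) :=
  lapl_sum _ (diag_map e Z x) i

lemma mw_det {C : Type} [CommRing C] [Algebra R C] (x : (gr e Z).edgeSet → C) :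
    (Matrix.of fun i j => mw e Z x (i, j)).det = aeval x (kirchhoff R (gr e Z)) := by
  rw [aeval_kirchhoff, ← matrix_tree _ (xt_diag (gr e Z) x) (e none), ← det_reindex, ← det_reduced]
  rfl

lemma hW_mw {C : Type} [CommRing C] (x : (gr e Z).edgeSet → C) {u v : Option (K ⊕ K)}
    (h : u ≠ v) : hW (mw e Z x) u v = xt (gr e Z) x s(e u, e v) := by
  rcases u with _ | u <;> rcases v with _ | v
  · exact absurd rfl h
  · change ∑ j, mw e Z x (v, j) = _
    rw [mw_sum, Sym2.eq_swap]
  · exact mw_sum e Z x u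
  · change -mw e Z x (u, v) = _
    rw [mw_ne e Z x fun h' => h (congrArg some h'), neg_neg]

lemma xt_wt {C : Type} [CommRing C] (p : (K ⊕ K) × (K ⊕ K) → C)
    (h1 : ∀ x y, p (x, y) = p (y, x)) (h2 : ∀ a a', a ≠ a' → p (.inl a, .inl a') = 0)
    (h3 : ∀ e ∈ Z, p (.inl e.1, .inr e.2) = 0) {u v : Option (K ⊕ K)} (h : u ≠ v) :
    xt (gr e Z) (wt e Z p) s(e u, e v) = hW p u v := by
  by_cases h4 : s(e u, e v) ∈ (gr e Z).edgeSet
  · rw [← wt_mk e Z p h1 u v h4]
    exact dif_pos h4
  · rw [xt_not _ _ h4]
    rw [edge_iff] at h4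
    rcases u with _ | u | u <;> rcases v with _ | v | v
    · rfl
    · exact absurd trivial h4
    · exact absurd trivial h4
    · exact absurd trivial h4
    · change 0 = -p _
      rw [h2 u v fun h' => h (by rw [h']), neg_zero]
    · change 0 = -p _
      have h5 : (u, v) ∈ Z := not_not.mp h4
      have h6 : p (.inl u, .inr v) = 0 := h3 _ h5
      rw [h6, neg_zero]
    · exact absurd trivial h4
    · change 0 = -p _
      have h5 : (v, u) ∈ Z := not_not.mp h4
      have h6 : p (.inl v, .inr u) = 0 := h3 _ h5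
      rw [h1, h6, neg_zero]
    · exfalso
      apply h4
      intro h'
      exact h (by rw [h'])

lemma mw_wt {C : Type} [CommRing C] (p : (K ⊕ K) × (K ⊕ K) → C)
    (h1 : ∀ x y, p (x, y) = p (y, x)) (h2 : ∀ a a', a ≠ a' → p (.inl a, .inl a') = 0)
    (h3 : ∀ e ∈ Z, p (.inl e.1, .inr e.2) = 0) : mw e Z (wt e Z p) = p := by
  have h0 : ∀ i j, i ≠ j → mw e Z (wt e Z p) (i, j) = p (i, j) := by
    intro i j h
    rw [mw_ne e Z _ h, xt_wt e Z p h1 h2 h3 fun h' => h (Option.some.inj h')]
    exact neg_neg _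
  funext t
  obtain ⟨i, j⟩ := t
  by_cases h : i = j
  · subst h
    have h4 := mw_sum e Z (wt e Z p) i
    rw [xt_wt e Z p h1 h2 h3 (by simp)] at h4
    have h5 : hW p (some i) none = ∑ j, p (i, j) := rfl
    rw [h5, ← Finset.add_sum_erase _ _ (Finset.mem_univ i),
      ← Finset.add_sum_erase _ _ (Finset.mem_univ i),
      Finset.sum_congr rfl fun j hj => h0 i j (Finset.ne_of_mem_erase hj).symm] at h4
    exact add_right_cancel h4
  · exact h0 i j h

lemma bij_kir : Bij ((al R (gr e Z).edgeSet).opn (plFn (kirchhoff R (gr e Z))))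
    (sy R Z (∅ : Set K)) (fun _ _ _ x => mw e Z x) (fun _ _ _ p => wt e Z p) where
  natF {C D} _ _ _ _ f x _ t := by
    have h1 : ∀ s, f (xt (gr e Z) x s) = xt (gr e Z) (fun s => f (x s)) s := by
      intro s
      by_cases h : s ∈ (gr e Z).edgeSet
      · have h2 := xt_mem (gr e Z) x ⟨s, h⟩
        have h3 := xt_mem (gr e Z) (fun s => f (x s)) ⟨s, h⟩
        exact (congrArg f h2).trans h3.symm
      · rw [xt_not _ _ h, xt_not _ _ h, map_zero]
    change f ((if some t.1 = some t.2 then ∑ v, xt (gr e Z) x (Sym2.map e s(some t.1, v)) else 0) -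
      xt (gr e Z) x (Sym2.map e s(some t.1, some t.2))) =
      (if some t.1 = some t.2 then ∑ v, xt (gr e Z) (fun s => f (x s)) (Sym2.map e s(some t.1, v))
        else 0) - xt (gr e Z) (fun s => f (x s)) (Sym2.map e s(some t.1, some t.2))
    rw [map_sub, h1]
    split_ifs
    · rw [map_sum]
      simp only [h1]
    · rw [map_zero]
  natG {C D} _ _ _ _ f p _ s := map_hW (f : C →+* D) p _ _
  memF C _ _ x hx := by
    refine ⟨⟨fun i j => lapl_symm _ _ _, fun a a' h => mw_not e Z x (fun h' => h (Sum.inl.inj h'))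
      fun h' => h', fun a ha => absurd ha (Set.notMem_empty a), fun t ht => mw_not e Z x
      (fun h' => by cases h') fun h' => h' ht⟩, ?_⟩
    rw [mw_det (R := R)]
    exact hx.2
  memG C _ _ p hp := by
    refine ⟨trivial, ?_⟩
    change IsUnit (aeval (wt e Z p) (kirchhoff R (gr e Z)))
    rw [← mw_det (R := R), mw_wt e Z p hp.1.1 hp.1.2.1 hp.1.2.2.2]
    exact hp.2
  GF C _ _ x hx := by
    funext s
    obtain ⟨s, hs⟩ := s
    induction s with
    | h i j =>
      have h1 : ∃ u v, i = e u ∧ j = e v := ⟨e.symm i, e.symm j, by simp, by simp⟩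
      obtain ⟨u, v, rfl, rfl⟩ := h1
      have h2 : u ≠ v := by
        rintro rfl
        exact (gr e Z).not_isDiag_of_mem_edgeSet hs rfl
      rw [wt_mk e Z _ (fun _ _ => lapl_symm _ _ _), hW_mw e Z x h2]
      exact dif_pos hs
  FG C _ _ p hp := mw_wt e Z p hp.1.1 hp.1.2.1 hp.1.2.2.2

/-- From the hypersurfaces of the Kirchhoff polynomials of split graphs to the symmetric matrices. -/
lemma hol_sy (hP : Uni sep P)
    (h : ∀ (n : ℕ) (G : SimpleGraph (Fin n)), IsSplit G → P (aff R (Xg R G))) :
    Hol P (sy R Z (∅ : Set K)) := by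
  let e : Option (K ⊕ K) ≃ Fin (Fintype.card (Option (K ⊕ K))) := Fintype.equivFin _
  exact (hol_compl hP _ (h _ (gr e Z) (gr_split e Z))).trans (bij_kir e Z)

end gr

/-- **Universality of the Kirchhoff polynomials.** Every property which is closed under closed-open
decompositions, true for affine spaces and invariant under the affine bundles of Jouanolou, and which
descends along `X × 𝔾_m → X`, is true for all schemes of finite type as soon as it is true for the
hypersurfaces of the Kirchhoff polynomials of all split graphs. -/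
theorem universal_kirchhoff [IsNoetherianRing R] (hR : Frac R) (hP : Bnd sep P)
    (h : ∀ (n : ℕ) (G : SimpleGraph (Fin n)), IsSplit G → P (aff R (Xg R G)))
    (X : Sch R) (hX : FT sep X) : P X :=
  universal_frac hR hP.toUni (fun _ _ _ H => trip_of_gz hP
    (hol_gz_of_sy hP fun K _ _ Z => hol_sy Z hP.toUni h) H) X hX

end Pool.Agent.H81.RZ
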