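import Pool.Agent.H81.RZ.Mat

/-!
# Gadgets: systems of additions and multiplications inside matrices of small rank

The rows and the columns of a matrix of rank at most `3 + s` with an invertible diagonal block are
vectors with `3 + s` coordinates, and the zeros of the matrix are orthogonality relations.
-/

set_option autoImplicit false

open CategoryTheory AlgebraicGeometry MvPolynomial Pool.Agent.Y116.UV

namespace Pool.Agent.H81.RZ

section rank

variable {ι κ δ : Type} [Fintype δ] [DecidableEq δ] {k : ℕ} {C : Type} [CommRing C]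

omit [DecidableEq δ] in
/-- a product has small rank -/
lemma rankLe_mul (hk : Fintype.card δ = k) (f : ι → δ → C) (g : κ → δ → C) :
    RankLe k fun e : ι × κ => ∑ a, f e.1 a * g e.2 a := by
  intro ρ γ
  have hc : Fintype.card (Fin (k + 1)) = Fintype.card (Option δ) := by
    rw [Fintype.card_fin, Fintype.card_option, hk]
  let e := Fintype.equivOfCardEq hc
  let A : Matrix (Fin (k + 1)) (Fin (k + 1)) C :=
    Matrix.of fun a b => (e b).elim 0 fun d => f (ρ a) d
  let B : Matrix (Fin (k + 1)) (Fin (k + 1)) C :=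
    Matrix.of fun b a => (e b).elim 0 fun d => g (γ a) d
  have h1 : (Matrix.of fun a b => ∑ d, f (ρ a) d * g (γ b) d) = A * B := by
    ext a b
    rw [Matrix.mul_apply]
    change ∑ d, f (ρ a) d * g (γ b) d =
      ∑ j, (e j).elim 0 (fun d => f (ρ a) d) * (e j).elim 0 (fun d => g (γ b) d)
    rw [e.sum_comp (fun o : Option δ => o.elim 0 (fun d => f (ρ a) d) *
      o.elim 0 (fun d => g (γ b) d)), Fintype.sum_option]
    simp
  change (Matrix.of fun a b => ∑ d, f (ρ a) d * g (γ b) d).det = 0
  rw [h1, Matrix.det_mul, Matrix.det_eq_zero_of_column_eq_zero (A := A) (e.symm none) ?_, zero_mul]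
  intro a
  change (e (e.symm none)).elim 0 (fun d => f (ρ a) d) = 0
  rw [Equiv.apply_symm_apply]
  rfl

/-- a matrix of small rank with an identity block -/
lemma RankLe.expand (hk : Fintype.card δ = k) {p : ι × κ → C} (h : RankLe k p) (f : δ → ι)
    (g : δ → κ) (h1 : ∀ a b, p (f a, g b) = if a = b then 1 else 0) (i : ι) (j : κ) :
    p (i, j) = ∑ a, p (i, g a) * p (f a, j) := by
  have hc : Fintype.card (Fin (k + 1)) = Fintype.card (δ ⊕ Unit) := by
    rw [Fintype.card_fin, Fintype.card_sum, hk, Fintype.card_unit]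
  let e := Fintype.equivOfCardEq hc
  have h2 := h (fun a => Sum.elim f (fun _ => i) (e a)) fun b => Sum.elim g (fun _ => j) (e b)
  have h3 : (Matrix.of fun a b => p (Sum.elim f (fun _ => i) (e a), Sum.elim g (fun _ => j) (e b))) =
      (Matrix.fromBlocks 1 (Matrix.of fun a (_ : Unit) => p (f a, j))
        (Matrix.of fun (_ : Unit) a => p (i, g a)) (Matrix.of fun _ _ => p (i, j))).submatrix e e := by
    ext a b
    change p (Sum.elim f (fun _ => i) (e a), Sum.elim g (fun _ => j) (e b)) =
      Matrix.fromBlocks _ _ _ _ (e a) (e b)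
    rcases e a with a' | a' <;> rcases e b with b' | b'
    · change p (f a', g b') = (1 : Matrix δ δ C) a' b'
      rw [h1, Matrix.one_apply]
    · rfl
    · rfl
    · rfl
  rw [h3, Matrix.det_submatrix_equiv_self, Matrix.det_fromBlocks_one₁₁, Matrix.det_unique] at h2
  exact sub_eq_zero.mp h2

end rank

/-- the rows -/
inductive Rw (V : Type) (s : ℕ) : Type
  | D (a : Fin 3 ⊕ Fin s)
  | c0
  | v (t : V)
  | h (t : V)
  | d (t : V)
  | n (t : V)
  | l (t : V)
  deriving DecidableEq, Fintype

/-- the columns -/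
inductive Cl (V E : Type) (s : ℕ) : Type
  | D (a : Fin 3 ⊕ Fin s)
  | n1
  | pm
  | p (t : V)
  | p' (t : V)
  | m (t : V)
  | q (e : E)
  deriving DecidableEq, Fintype

/-- A system of equations `x (a e) + x (b e) = x (c e)` (if `k e`) or `x (a e) * x (b e) = x (c e)`
(otherwise), and `x o = -1`. -/
structure Sys (V E : Type) where
  /-- the variable with the value `-1` -/
  o : V
  /-- addition or multiplication -/
  k : E → Bool
  /-- the first variable -/
  a : E → V
  /-- the second variable -/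
  b : E → V
  /-- the result -/
  c : E → V

/-- the solutions of a system -/
def slp (R : Type) [CommRing R] {V E : Type} (Y : Sys V E) : Pts R V where
  pts _ _ _ x := x Y.o = -1 ∧ ∀ e, (if Y.k e then x (Y.a e) + x (Y.b e) else
    x (Y.a e) * x (Y.b e)) = x (Y.c e)
  map f x h := by
    refine ⟨(congrArg f h.1).trans (by rw [map_neg, map_one]), fun e => ?_⟩
    have h1 := congrArg f (h.2 e)
    change _ = f (x (Y.c e))
    rw [← h1]
    split_ifs
    · rw [map_add]
    · rw [map_mul]

variable {V E : Type} {s : ℕ}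

/-- the vectors of the rows -/
def rv {C : Type} [CommRing C] (x : V → C) : Rw V s → (Fin 3 ⊕ Fin s) → C
  | .D a, b => if a = b then 1 else 0
  | .c0, .inl i => ![1, 1, 1] i
  | .v t, .inl i => ![1, 0, -x t] i
  | .h t, .inl i => ![0, 1, -x t] i
  | .d t, .inl i => ![1, 1, -x t] i
  | .n t, .inl i => ![-x t, 1, -x t] i
  | .l t, .inl i => ![-x t, 1, 0] i
  | _, .inr _ => 0

/-- the vectors of the columns -/
def cv {C : Type} [CommRing C] (Y : Sys V E) (x : V → C) : Cl V E s → (Fin 3 ⊕ Fin s) → C
  | .D a, b => if a = b then 1 else 0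
  | .n1, .inl i => ![1, -1, 0] i
  | .pm, .inl i => ![-1, 0, 1] i
  | .p t, .inl i => ![x t, 0, 1] i
  | .p' t, .inl i => ![0, x t, 1] i
  | .m t, .inl i => ![1, x t, 0] i
  | .q e, .inl i => if Y.k e then ![x (Y.a e), x (Y.b e), 1] i else ![x (Y.b e), x (Y.c e), 1] i
  | _, .inr _ => 0

/-- the zeros -/
def zz (Y : Sys V E) : Rw V s → Cl V E s → Prop
  | .D a, .D b => a ≠ b
  | .D (.inr _), _ => True
  | _, .D (.inr _) => True
  | .v _, .D (.inl 1) => True
  | .h _, .D (.inl 0) => True
  | .l _, .D (.inl 2) => True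
  | .D (.inl 2), .n1 => True
  | .D (.inl 1), .pm => True
  | .D (.inl 1), .p _ => True
  | .D (.inl 0), .p' _ => True
  | .D (.inl 2), .m _ => True
  | .c0, .n1 => True
  | .c0, .pm => True
  | .v t, .p t' => t = t'
  | .v t, .pm => t = Y.o
  | .d _, .n1 => True
  | .d t, .p t' => t = t'
  | .d t, .p' t' => t = t'
  | .h t, .p' t' => t = t'
  | .n t, .p' t' => t = t'
  | .n _, .pm => True
  | .n t, .m t' => t = t'
  | .l t, .m t' => t = t'
  | .v t, .q e => (Y.k e = true ∧ t = Y.a e) ∨ (Y.k e = false ∧ t = Y.b e)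
  | .h t, .q e => (Y.k e = true ∧ t = Y.b e) ∨ (Y.k e = false ∧ t = Y.c e)
  | .d t, .q e => Y.k e = true ∧ t = Y.c e
  | .l t, .q e => Y.k e = false ∧ t = Y.a e
  | _, _ => False

/-- the ones -/
def tt : Rw V s → Cl V E s → Prop
  | .D a, .D b => a = b
  | .c0, .D (.inl _) => True
  | .v _, .D (.inl 0) => True
  | .h _, .D (.inl 1) => True
  | .d _, .D (.inl 0) => True
  | .n _, .D (.inl 1) => True
  | .l _, .D (.inl 1) => True
  | .D (.inl 0), .n1 => True
  | .D (.inl 2), .pm => True
  | .D (.inl 2), .p _ => True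
  | .D (.inl 2), .p' _ => True
  | .D (.inl 0), .m _ => True
  | .D (.inl 2), .q _ => True
  | _, _ => False

section

variable {C : Type} [CommRing C] (Y : Sys V E) (x : V → C)

/-- the matrix -/
def mat (e : Rw V s × Cl V E s) : C := ∑ a, rv x e.1 a * cv Y x e.2 a

lemma mat_Dl (a : Fin 3 ⊕ Fin s) (c : Cl V E s) : mat Y x (.D a, c) = cv Y x c a := by
  change ∑ b, (if a = b then 1 else 0) * cv Y x c b = _
  simp

lemma mat_Dr (a : Fin 3 ⊕ Fin s) (r : Rw V s) : mat Y x (r, .D a) = rv x r a := by
  change ∑ b, rv x r b * (if a = b then 1 else 0) = _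
  simp

lemma mat_rank : RankLe (3 + s) (mat Y x : Rw V s × Cl V E s → C) :=
  rankLe_mul (by simp) (rv x) (cv Y x)

variable (hx : x Y.o = -1) (hY : ∀ e, (if Y.k e then x (Y.a e) + x (Y.b e) else
    x (Y.a e) * x (Y.b e)) = x (Y.c e))

include hx hY

lemma mat_zero (r : Rw V s) (c : Cl V E s) (h : zz Y r c) : mat Y x (r, c) = 0 := by
  cases r with
  | D a =>
    rw [mat_Dl]
    cases c with
    | D b =>
      have h1 : b ≠ a := fun h2 => h h2.symm
      simp [cv, h1]
    | _ => 
      rcases a with a | a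
      · fin_cases a <;> simp_all [zz, cv]
      · simp [cv]
  | _ =>
    cases c with
    | D b =>
      rw [mat_Dr]
      rcases b with b | b
      · fin_cases b <;> simp_all [zz, rv]
      · simp [rv]
    | q e =>
      have h2 := hY e
      simp_all [zz, mat, rv, cv, Fin.sum_univ_three]
      try (split_ifs <;> simp_all)
    | _ =>
      simp_all [zz, mat, rv, cv, Fin.sum_univ_three]

end

lemma mat_one {C : Type} [CommRing C] (Y : Sys V E) (x : V → C) (r : Rw V s) (c : Cl V E s)
    (h : tt r c) : mat Y x (r, c) = 1 := by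
  cases r with
  | D a =>
    rw [mat_Dl]
    cases c with
    | D b =>
      have h1 : a = b := h
      simp [cv, h1]
    | _ =>
      rcases a with a | a
      · fin_cases a <;> simp_all [tt, cv]
      · simp_all [tt]
  | _ =>
    cases c with
    | D b =>
      rw [mat_Dr]
      rcases b with b | b
      · fin_cases b <;> simp_all [tt, rv]
      · simp_all [tt]
    | _ => exact absurd h (by simp [tt])

section

variable {C : Type} [CommRing C] (Y : Sys V E) {p : Rw V s × Cl V E s → C}
  (hr : RankLe (3 + s) p) (hz : ∀ r c, zz Y r c → p (r, c) = 0) (ht : ∀ r c, tt r c → p (r, c) = 1)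

include hr hz ht

lemma p_expand (r : Rw V s) (c : Cl V E s) : p (r, c) =
    p (r, .D (.inl 0)) * p (.D (.inl 0), c) + p (r, .D (.inl 1)) * p (.D (.inl 1), c) +
      p (r, .D (.inl 2)) * p (.D (.inl 2), c) + ∑ j, p (r, .D (.inr j)) * p (.D (.inr j), c) := by
  have h1 := RankLe.expand (δ := Fin 3 ⊕ Fin s) (by simp) hr Rw.D Cl.D (fun a b => by
    split_ifs with h
    · exact ht _ _ h
    · exact hz _ _ h) r c
  rw [h1, Fintype.sum_sum_type, Fin.sum_univ_three]

lemma p_pair {r : Rw V s} {c : Cl V E s} (h : zz Y r c) (h0 : ∀ j, zz Y r (.D (.inr j))) :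
    p (r, .D (.inl 0)) * p (.D (.inl 0), c) + p (r, .D (.inl 1)) * p (.D (.inl 1), c) +
      p (r, .D (.inl 2)) * p (.D (.inl 2), c) = 0 := by
  have h1 := p_expand Y hr hz ht r c
  rw [hz r c h] at h1
  have h2 : ∑ j, p (r, .D (.inr j)) * p (.D (.inr j), c) = 0 :=
    Finset.sum_eq_zero fun j _ => by rw [hz r _ (h0 j), zero_mul]
  rw [h2, add_zero] at h1
  exact h1.symm

lemma p_n1 : p (.D (.inl 1), .n1) = -1 := by
  have h := p_pair Y hr hz ht (r := .c0) (c := .n1) trivial fun _ => trivial
  rw [ht .c0 (.D (.inl 0)) trivial, ht .c0 (.D (.inl 1)) trivial, ht .c0 (.D (.inl 2)) trivial,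
    ht (.D (.inl 0)) .n1 trivial, hz (.D (.inl 2)) .n1 trivial] at h
  linear_combination h

lemma p_pm : p (.D (.inl 0), .pm) = -1 := by
  have h := p_pair Y hr hz ht (r := .c0) (c := .pm) trivial fun _ => trivial
  rw [ht .c0 (.D (.inl 0)) trivial, ht .c0 (.D (.inl 1)) trivial, ht .c0 (.D (.inl 2)) trivial,
    ht (.D (.inl 2)) .pm trivial, hz (.D (.inl 1)) .pm trivial] at h
  linear_combination h

lemma p_p (t : V) : p (.D (.inl 0), .p t) = -p (.v t, .D (.inl 2)) := by
  have h := p_pair Y hr hz ht (r := .v t) (c := .p t) rfl fun _ => trivial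
  rw [ht (.v t) (.D (.inl 0)) trivial, ht (.D (.inl 2)) (.p t) trivial,
    hz (.D (.inl 1)) (.p t) trivial] at h
  linear_combination h

lemma p_d1 (t : V) : p (.d t, .D (.inl 1)) = 1 := by
  have h := p_pair Y hr hz ht (r := .d t) (c := .n1) trivial fun _ => trivial
  rw [ht (.d t) (.D (.inl 0)) trivial, ht (.D (.inl 0)) .n1 trivial, p_n1 Y hr hz ht,
    hz (.D (.inl 2)) .n1 trivial] at h
  linear_combination -h

lemma p_d2 (t : V) : p (.d t, .D (.inl 2)) = p (.v t, .D (.inl 2)) := by
  have h := p_pair Y hr hz ht (r := .d t) (c := .p t) rfl fun _ => trivial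
  rw [ht (.d t) (.D (.inl 0)) trivial, p_p Y hr hz ht, hz (.D (.inl 1)) (.p t) trivial,
    ht (.D (.inl 2)) (.p t) trivial] at h
  linear_combination h

lemma p_p' (t : V) : p (.D (.inl 1), .p' t) = -p (.v t, .D (.inl 2)) := by
  have h := p_pair Y hr hz ht (r := .d t) (c := .p' t) rfl fun _ => trivial
  rw [hz (.D (.inl 0)) (.p' t) trivial, p_d1 Y hr hz ht, p_d2 Y hr hz ht,
    ht (.D (.inl 2)) (.p' t) trivial] at h
  linear_combination h

lemma p_h2 (t : V) : p (.h t, .D (.inl 2)) = p (.v t, .D (.inl 2)) := by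
  have h := p_pair Y hr hz ht (r := .h t) (c := .p' t) rfl fun _ => trivial
  rw [hz (.D (.inl 0)) (.p' t) trivial, ht (.h t) (.D (.inl 1)) trivial, p_p' Y hr hz ht,
    ht (.D (.inl 2)) (.p' t) trivial] at h
  linear_combination h

lemma p_n2 (t : V) : p (.n t, .D (.inl 2)) = p (.v t, .D (.inl 2)) := by
  have h := p_pair Y hr hz ht (r := .n t) (c := .p' t) rfl fun _ => trivial
  rw [hz (.D (.inl 0)) (.p' t) trivial, ht (.n t) (.D (.inl 1)) trivial, p_p' Y hr hz ht,
    ht (.D (.inl 2)) (.p' t) trivial] at h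
  linear_combination h

lemma p_n0 (t : V) : p (.n t, .D (.inl 0)) = p (.v t, .D (.inl 2)) := by
  have h := p_pair Y hr hz ht (r := .n t) (c := .pm) trivial fun _ => trivial
  rw [p_pm Y hr hz ht, hz (.D (.inl 1)) .pm trivial, ht (.D (.inl 2)) .pm trivial,
    p_n2 Y hr hz ht] at h
  linear_combination -h

lemma p_m (t : V) : p (.D (.inl 1), .m t) = -p (.v t, .D (.inl 2)) := by
  have h := p_pair Y hr hz ht (r := .n t) (c := .m t) rfl fun _ => trivial
  rw [p_n0 Y hr hz ht, ht (.n t) (.D (.inl 1)) trivial, ht (.D (.inl 0)) (.m t) trivial,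
    hz (.D (.inl 2)) (.m t) trivial] at h
  linear_combination h

lemma p_l0 (t : V) : p (.l t, .D (.inl 0)) = p (.v t, .D (.inl 2)) := by
  have h := p_pair Y hr hz ht (r := .l t) (c := .m t) rfl fun _ => trivial
  rw [p_m Y hr hz ht, ht (.l t) (.D (.inl 1)) trivial, ht (.D (.inl 0)) (.m t) trivial,
    hz (.D (.inl 2)) (.m t) trivial] at h
  linear_combination h

lemma p_o : p (.v Y.o, .D (.inl 2)) = 1 := by
  have h := p_pair Y hr hz ht (r := .v Y.o) (c := .pm) rfl fun _ => trivial
  rw [p_pm Y hr hz ht, ht (.v Y.o) (.D (.inl 0)) trivial, hz (.D (.inl 1)) .pm trivial,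
    ht (.D (.inl 2)) .pm trivial] at h
  linear_combination h

lemma p_v {t : V} {e : E} (h1 : zz Y (.v t : Rw V s) (.q e)) :
    p (.D (.inl 0), .q e) = -p (.v t, .D (.inl 2)) := by
  have h := p_pair Y hr hz ht h1 fun _ => trivial
  rw [ht (.v t) (.D (.inl 0)) trivial, hz (.v t) (.D (.inl 1)) trivial,
    ht (.D (.inl 2)) (.q e) trivial] at h
  linear_combination h

lemma p_h {t : V} {e : E} (h1 : zz Y (.h t : Rw V s) (.q e)) :
    p (.D (.inl 1), .q e) = -p (.v t, .D (.inl 2)) := by
  have h := p_pair Y hr hz ht h1 fun _ => trivial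
  rw [ht (.h t) (.D (.inl 1)) trivial, hz (.h t) (.D (.inl 0)) trivial, p_h2 Y hr hz ht,
    ht (.D (.inl 2)) (.q e) trivial] at h
  linear_combination h

lemma p_add {e : E} (he : Y.k e = true) : -p (.v (Y.a e), .D (.inl 2)) +
    -p (.v (Y.b e), .D (.inl 2)) = -p (.v (Y.c e), .D (.inl 2)) := by
  have h := p_pair Y hr hz ht (r := .d (Y.c e)) (c := .q e) ⟨he, rfl⟩ fun _ => trivial
  rw [p_d1 Y hr hz ht, p_d2 Y hr hz ht, ht (.d (Y.c e)) (.D (.inl 0)) trivial,
    p_v Y hr hz ht (t := Y.a e) (Or.inl ⟨he, rfl⟩), p_h Y hr hz ht (t := Y.b e) (Or.inl ⟨he, rfl⟩),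
    ht (.D (.inl 2)) (.q e) trivial] at h
  linear_combination h

lemma p_mul {e : E} (he : Y.k e = false) : -p (.v (Y.a e), .D (.inl 2)) *
    -p (.v (Y.b e), .D (.inl 2)) = -p (.v (Y.c e), .D (.inl 2)) := by
  have h := p_pair Y hr hz ht (r := .l (Y.a e)) (c := .q e) ⟨he, rfl⟩ fun _ => trivial
  rw [p_l0 Y hr hz ht, ht (.l (Y.a e)) (.D (.inl 1)) trivial, hz (.l (Y.a e)) (.D (.inl 2)) trivial,
    p_v Y hr hz ht (t := Y.b e) (Or.inr ⟨he, rfl⟩),
    p_h Y hr hz ht (t := Y.c e) (Or.inr ⟨he, rfl⟩)] at h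
  linear_combination -h

/-- the rows are given by the solution -/
lemma rows_eq (r : Rw V s) (a : Fin 3 ⊕ Fin s) :
    p (r, .D a) = rv (fun t => -p (.v t, .D (.inl 2))) r a := by
  cases r with
  | D b =>
    by_cases h : b = a
    · rw [ht (.D b) (.D a) h]
      simp [rv, h]
    · rw [hz (.D b) (.D a) h]
      simp [rv, h]
  | c0 =>
    rcases a with a | a
    · rw [ht .c0 (.D (.inl a)) trivial]
      fin_cases a <;> rfl
    · exact hz _ _ trivial
  | v t =>
    rcases a with a | a
    · fin_cases a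
      · exact ht (.v t) (.D (.inl 0)) trivial
      · exact hz (.v t) (.D (.inl 1)) trivial
      · exact (neg_neg _).symm
    · exact hz _ _ trivial
  | h t =>
    rcases a with a | a
    · fin_cases a
      · exact hz (.h t) (.D (.inl 0)) trivial
      · exact ht (.h t) (.D (.inl 1)) trivial
      · exact (p_h2 Y hr hz ht t).trans (neg_neg _).symm
    · exact hz _ _ trivial
  | d t =>
    rcases a with a | a
    · fin_cases a
      · exact ht (.d t) (.D (.inl 0)) trivial
      · exact p_d1 Y hr hz ht t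
      · exact (p_d2 Y hr hz ht t).trans (neg_neg _).symm
    · exact hz _ _ trivial
  | n t =>
    rcases a with a | a
    · fin_cases a
      · exact (p_n0 Y hr hz ht t).trans (neg_neg _).symm
      · exact ht (.n t) (.D (.inl 1)) trivial
      · exact (p_n2 Y hr hz ht t).trans (neg_neg _).symm
    · exact hz _ _ trivial
  | l t =>
    rcases a with a | a
    · fin_cases a
      · exact (p_l0 Y hr hz ht t).trans (neg_neg _).symm
      · exact ht (.l t) (.D (.inl 1)) trivial
      · exact hz (.l t) (.D (.inl 2)) trivial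
    · exact hz _ _ trivial

/-- the columns are given by the solution -/
lemma cols_eq (c : Cl V E s) (a : Fin 3 ⊕ Fin s) :
    p (.D a, c) = cv Y (fun t => -p (.v t, .D (.inl 2))) c a := by
  have hinr : ∀ (a : Fin s) (c : Cl V E s), (∀ b, c ≠ .D b) → p (.D (.inr a), c) = 0 := by
    intro a c hc
    apply hz
    cases c with
    | D b => exact absurd rfl (hc b)
    | _ => trivial
  cases c with
  | D b =>
    by_cases h : a = b
    · rw [ht (.D a) (.D b) h]
      simp [cv, h]
    · rw [hz (.D a) (.D b) h]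
      have h' : b ≠ a := fun h2 => h h2.symm
      simp [cv, h']
  | n1 =>
    rcases a with a | a
    · fin_cases a
      · exact ht (.D (.inl 0)) .n1 trivial
      · exact p_n1 Y hr hz ht
      · exact hz (.D (.inl 2)) .n1 trivial
    · exact hinr _ _ (by simp)
  | pm =>
    rcases a with a | a
    · fin_cases a
      · exact p_pm Y hr hz ht
      · exact hz (.D (.inl 1)) .pm trivial
      · exact ht (.D (.inl 2)) .pm trivial
    · exact hinr _ _ (by simp)
  | p t =>
    rcases a with a | a
    · fin_cases a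
      · exact p_p Y hr hz ht t
      · exact hz (.D (.inl 1)) (.p t) trivial
      · exact ht (.D (.inl 2)) (.p t) trivial
    · exact hinr _ _ (by simp)
  | p' t =>
    rcases a with a | a
    · fin_cases a
      · exact hz (.D (.inl 0)) (.p' t) trivial
      · exact p_p' Y hr hz ht t
      · exact ht (.D (.inl 2)) (.p' t) trivial
    · exact hinr _ _ (by simp)
  | m t =>
    rcases a with a | a
    · fin_cases a
      · exact ht (.D (.inl 0)) (.m t) trivial
      · exact p_m Y hr hz ht t
      · exact hz (.D (.inl 2)) (.m t) trivial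
    · exact hinr _ _ (by simp)
  | q e =>
    rcases a with a | a
    · have h2 : p (.D (.inl 2), .q e) = 1 := ht _ _ trivial
      rcases he : Y.k e with _ | _
      · have h0 := p_v Y hr hz ht (t := Y.b e) (e := e) (Or.inr ⟨he, rfl⟩)
        have h1 := p_h Y hr hz ht (t := Y.c e) (e := e) (Or.inr ⟨he, rfl⟩)
        fin_cases a
        · simp [cv, he, h0]
        · simp [cv, he, h1]
        · simp [cv, he, h2]
      · have h0 := p_v Y hr hz ht (t := Y.a e) (e := e) (Or.inl ⟨he, rfl⟩)
        have h1 := p_h Y hr hz ht (t := Y.b e) (e := e) (Or.inl ⟨he, rfl⟩)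
        fin_cases a
        · simp [cv, he, h0]
        · simp [cv, he, h1]
        · simp [cv, he, h2]
    · exact hinr _ _ (by simp)

lemma p_eq : p = mat Y fun t => -p (.v t, .D (.inl 2)) := by
  funext ⟨r, c⟩
  rw [RankLe.expand (δ := Fin 3 ⊕ Fin s) (by simp) hr Rw.D Cl.D (fun a b => by
    split_ifs with h
    · exact ht _ _ h
    · exact hz _ _ h) r c]
  apply Finset.sum_congr rfl
  intro a _
  rw [rows_eq Y hr hz ht, cols_eq Y hr hz ht]

end

/-- The matrices with the prescribed zeros and ones are the solutions of the system. -/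
lemma bij_mat {R : Type} [CommRing R] (Y : Sys V E) (U : Set (Rw V s × Cl V E s))
    (hU : ∀ e ∈ U, tt e.1 e.2) :
    Bij (MS R (3 + s) {e : Rw V s × Cl V E s | zz Y e.1 e.2} U {e | tt e.1 e.2}) (slp R Y)
      (fun _ _ _ p t => -p (.v t, .D (.inl 2))) (fun _ _ _ x => mat Y x) where
  natF f p _ t := map_neg f _
  natG {C D} _ _ _ _ f x hx e := by
    have h1 : ∀ (r : Rw V s) a, f (rv x r a) = rv (fun t => f (x t)) r a := by
      intro r a
      cases r with
      | D b =>
        change f (if b = a then 1 else 0) = if b = a then 1 else 0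
        split_ifs
        · exact map_one f
        · exact map_zero f
      | _ =>
        rcases a with a | a
        · fin_cases a <;> simp [rv]
        · exact map_zero f
    have h2 : ∀ (c : Cl V E s) a, f (cv Y x c a) = cv Y (fun t => f (x t)) c a := by
      intro c a
      cases c with
      | D b =>
        change f (if b = a then 1 else 0) = if b = a then 1 else 0
        split_ifs
        · exact map_one f
        · exact map_zero f
      | q e =>
        rcases a with a | a
        · rcases he : Y.k e with _ | _ <;> fin_cases a <;> simp [cv, he]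
        · exact map_zero f
      | _ =>
        rcases a with a | a
        · fin_cases a <;> simp [cv]
        · exact map_zero f
    rw [mat, map_sum]
    apply Finset.sum_congr rfl
    intro a _
    rw [map_mul, h1, h2]
  memF C _ _ p h := by
    obtain ⟨h1, h2, -, h4⟩ := h
    have hz : ∀ r c, zz Y r c → p (r, c) = 0 := fun r c hrc => h2 (r, c) hrc
    have ht : ∀ r c, tt r c → p (r, c) = 1 := fun r c hrc => h4 (r, c) hrc
    refine ⟨?_, fun e => ?_⟩
    · change -p (.v Y.o, .D (.inl 2)) = -1
      rw [p_o Y h1 hz ht]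
    · rcases he : Y.k e with _ | _
      · rw [if_neg (by simp)]
        exact p_mul Y h1 hz ht he
      · rw [if_pos rfl]
        exact p_add Y h1 hz ht he
  memG C _ _ x h := by
    refine ⟨mat_rank Y x, fun e he => mat_zero Y x h.1 h.2 e.1 e.2 he, fun e he => ?_,
      fun e he => mat_one Y x e.1 e.2 he⟩
    have h1 : mat Y x e = 1 := mat_one Y x e.1 e.2 (hU e he)
    rw [h1]
    exact isUnit_one
  GF C _ _ p h := by
    obtain ⟨h1, h2, -, h4⟩ := h
    exact (p_eq Y h1 (fun r c hrc => h2 (r, c) hrc) fun r c hrc => h4 (r, c) hrc).symm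
  FG C _ _ x h := by
    funext t
    rw [mat_Dr]
    simp [rv]

end Pool.Agent.H81.RZ
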