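import Pool.Agent.H81.RZ.KDefs

/-!
# Thin Schubert cells of the Grassmannians of planes
-/

set_option autoImplicit false

open CategoryTheory AlgebraicGeometry MvPolynomial Pool.Agent.Y116.UV

namespace Pool.Agent.H81.RZ

/-- The columns of the matrix `(1 | A)` with three rows, where `A` is the generic matrix with three rows
and the columns `κ`. -/
noncomputable def gcol (R : Type) [CommRing R] {κ : Type} :
    Fin 3 ⊕ κ → Fin 3 → MvPolynomial (Fin 3 × κ) R
  | .inl j, i => if i = j then 1 else 0
  | .inr j, i => X (i, j)

/-- The minor of the matrix `(1 | A)` with the columns `ρ 0`, `ρ 1`, `ρ 2`. -/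
noncomputable def plucker (R : Type) [CommRing R] {κ : Type} (ρ : Fin 3 → Fin 3 ⊕ κ) :
    MvPolynomial (Fin 3 × κ) R :=
  (Matrix.of fun i a => gcol R (ρ a) i).det

/-- The minors of `(1 | A)` with three different columns whose set is in `Z`. -/
def minors (R : Type) [CommRing R] {κ : Type} [DecidableEq κ] (Z : Set (Finset (Fin 3 ⊕ κ))) :
    Set (MvPolynomial (Fin 3 × κ) R) :=
  {g | ∃ ρ : Fin 3 → Fin 3 ⊕ κ, Function.Injective ρ ∧ Finset.univ.image ρ ∈ Z ∧ g = plucker R ρ}

open Classical in
/-- The triples of different columns whose set is in `B`. -/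
noncomputable def triples {κ : Type} [Fintype κ] [DecidableEq κ] (B : Set (Finset (Fin 3 ⊕ κ))) :
    Finset (Fin 3 → Fin 3 ⊕ κ) :=
  Finset.univ.filter fun ρ => Function.Injective ρ ∧ Finset.univ.image ρ ∈ B

/-- The ring of functions on the scheme of the matrices `A` such that the minors of `(1 | A)` with the
sets of columns in `Z` are zero. -/
abbrev Closed (R : Type) [CommRing R] {κ : Type} [DecidableEq κ] (Z : Set (Finset (Fin 3 ⊕ κ))) :
    Type :=
  MvPolynomial (Fin 3 × κ) R ⧸ Ideal.span (minors R Z)

/-- The product of the minors of `(1 | A)` with the triples of different columns whose set is in `B`. -/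
noncomputable def prodMinors (R : Type) [CommRing R] {κ : Type} [Fintype κ] [DecidableEq κ]
    (Z B : Set (Finset (Fin 3 ⊕ κ))) : Closed R Z :=
  ∏ ρ ∈ triples B, Ideal.Quotient.mk (Ideal.span (minors R Z)) (plucker R ρ)

/-- The ring of functions on the scheme of the matrices `A` such that the minors of `(1 | A)` with the
sets of columns in `Z` are zero, and the minors with the sets of columns in `B` are invertible. -/
abbrev Stratum (R : Type) [CommRing R] {κ : Type} [Fintype κ] [DecidableEq κ]
    (Z B : Set (Finset (Fin 3 ⊕ κ))) : Type :=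
  Localization.Away (prodMinors R Z B)

/-- The ring of functions on the thin Schubert cell of `B`: the matrices `(1 | A)` with three rows and
`3 + n` columns, whose minors with three different columns are invertible, if the set of the columns
is in `B`, and zero, if it is not. -/
abbrev Thin (R : Type) [CommRing R] {n : ℕ} (B : Finset (Finset (Fin 3 ⊕ Fin n))) : Type :=
  Stratum R {s | s ∉ B} {s | s ∈ B}

/-- `P` is true for all thin Schubert cells of the Grassmannians `Gr(3, 3 + n)`. -/
def OnThin {R : Type} [CommRing R] (P : Sch R → Prop) : Prop :=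
  ∀ (n : ℕ) (B : Finset (Finset (Fin 3 ⊕ Fin n))), P (aff R (Thin R B))

end Pool.Agent.H81.RZ
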