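import Pool.Agent.H81.RZ.Pre
import Pool.Agent.H81.RZ.CDefs

/-!
# Strata of the matrices with three rows
-/

set_option autoImplicit false
set_option linter.unusedSectionVars false

open CategoryTheory AlgebraicGeometry MvPolynomial Pool.Agent.Y116.UV Pool.Agent.Q282.UK

namespace Pool.Agent.H81.RZ

variable {R : Type} [CommRing R] {κ : Type}

/-- the columns of `(1 | p)` -/
def col {C : Type} [CommRing C] (p : Fin 3 × κ → C) : Fin 3 ⊕ κ → Fin 3 → C
  | .inl j, i => if i = j then 1 else 0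
  | .inr j, i => p (i, j)

/-- the minor with the columns `ρ` -/
def mnr {C : Type} [CommRing C] (p : Fin 3 × κ → C) (ρ : Fin 3 → Fin 3 ⊕ κ) : C :=
  (Matrix.of fun i a => col p (ρ a) i).det

lemma mnr_map {C D : Type} [CommRing C] [CommRing D] (f : C →+* D) (p : Fin 3 × κ → C)
    (ρ : Fin 3 → Fin 3 ⊕ κ) : f (mnr p ρ) = mnr (fun s => f (p s)) ρ := by
  rw [mnr, RingHom.map_det]
  congr 1
  ext i a
  change f (col p (ρ a) i) = col (fun s => f (p s)) (ρ a) i
  rcases ρ a with j | j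
  · change f (if i = j then 1 else 0) = if i = j then 1 else 0
    split_ifs
    · exact map_one f
    · exact map_zero f
  · rfl

lemma aeval_plucker {C : Type} [CommRing C] [Algebra R C] (p : Fin 3 × κ → C)
    (ρ : Fin 3 → Fin 3 ⊕ κ) : aeval p (plucker R ρ) = mnr p ρ := by
  rw [plucker, AlgHom.map_det]
  congr 1
  ext i a
  change aeval p (gcol R (ρ a) i) = col p (ρ a) i
  rcases ρ a with j | j
  · change aeval p (if i = j then 1 else 0) = if i = j then 1 else 0
    split_ifs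
    · exact map_one _
    · exact map_zero _
  · exact aeval_X p _

lemma mnr_alg {C D : Type} [CommRing C] [CommRing D] [Algebra R C] [Algebra R D] (f : C →ₐ[R] D)
    (p : Fin 3 × κ → C) (ρ : Fin 3 → Fin 3 ⊕ κ) : f (mnr p ρ) = mnr (fun s => f (p s)) ρ :=
  mnr_map (f : C →+* D) p ρ

/-- a minor -/
def fmn {S : Pts R (Fin 3 × κ)} (ρ : Fin 3 → Fin 3 ⊕ κ) : Fn S where
  val _ _ _ p := mnr p ρ
  nat f p _ := mnr_alg f p ρ

/-- the points of a stratum -/
def St (R : Type) [CommRing R] [DecidableEq κ] (Z B : Set (Finset (Fin 3 ⊕ κ))) :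
    Pts R (Fin 3 × κ) where
  pts _ _ _ p := ∀ ρ : Fin 3 → Fin 3 ⊕ κ, Function.Injective ρ →
    (Finset.univ.image ρ ∈ Z → mnr p ρ = 0) ∧ (Finset.univ.image ρ ∈ B → IsUnit (mnr p ρ))
  map {C D} _ _ _ _ f p h ρ hρ := by
    rw [← mnr_alg f p ρ]
    exact ⟨fun h1 => (congrArg f ((h ρ hρ).1 h1)).trans (map_zero f),
      fun h1 => ((h ρ hρ).2 h1).map f⟩

section perm

variable [DecidableEq κ]

/-- the minors with the same set of columns agree up to the sign -/
lemma mnr_perm {C : Type} [CommRing C] (p : Fin 3 × κ → C) {ρ ρ' : Fin 3 → Fin 3 ⊕ κ}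
    (hρ' : Function.Injective ρ')
    (h : Finset.univ.image ρ = Finset.univ.image ρ') : ∃ u : Cˣ, mnr p ρ' = u * mnr p ρ := by
  have h1 : ∀ a, ∃ b, ρ b = ρ' a := by
    intro a
    have h2 : ρ' a ∈ Finset.univ.image ρ := by
      rw [h]
      exact Finset.mem_image_of_mem _ (Finset.mem_univ a)
    obtain ⟨b, -, hb⟩ := Finset.mem_image.mp h2
    exact ⟨b, hb⟩
  choose σ hσ using h1
  have hs : Function.Injective σ := fun a b hab => hρ' (by rw [← hσ, ← hσ, hab])
  let τ : Equiv.Perm (Fin 3) := Equiv.ofBijective σ (Finite.injective_iff_bijective.mp hs)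
  refine ⟨Units.map (Int.castRingHom C : ℤ →* C) (Equiv.Perm.sign τ), ?_⟩
  have h2 := Matrix.det_permute' τ (Matrix.of fun i a => col p (ρ a) i)
  have h3 : (Matrix.of fun i a => col p (ρ' a) i) =
      (Matrix.of fun i a => col p (ρ a) i).submatrix id τ := by
    ext i a
    change col p (ρ' a) i = col p (ρ (σ a)) i
    rw [hσ]
  rw [mnr, h3, h2]
  rfl

end perm

section rep

variable [Fintype κ] [DecidableEq κ]

/-- the product of the minors in `B` -/
noncomputable def fprod {S : Pts R (Fin 3 × κ)} (B : Set (Finset (Fin 3 ⊕ κ))) : Fn S where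
  val _ _ _ p := ∏ ρ ∈ triples B, mnr p ρ
  nat {C D} _ _ _ _ f p _ := by
    rw [map_prod]
    exact Finset.prod_congr rfl fun ρ _ => mnr_alg f p ρ

lemma st_iff (Z B : Set (Finset (Fin 3 ⊕ κ))) (C : Type) [CommRing C] [Algebra R C]
    (p : Fin 3 × κ → C) :
    ((zer (minors R Z)).opn (fprod B)).pts C p ↔ (St R Z B).pts C p := by
  have h0 : (zer (minors R Z)).pts C p ↔ ∀ ρ : Fin 3 → Fin 3 ⊕ κ, Function.Injective ρ →
      Finset.univ.image ρ ∈ Z → mnr p ρ = 0 := by
    constructor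
    · intro h ρ hρ hZ
      rw [← aeval_plucker (R := R)]
      exact h _ ⟨ρ, hρ, hZ, rfl⟩
    · rintro h _ ⟨ρ, hρ, hZ, rfl⟩
      rw [aeval_plucker]
      exact h ρ hρ hZ
  have h1 : IsUnit (∏ ρ ∈ triples B, mnr p ρ) ↔ ∀ ρ : Fin 3 → Fin 3 ⊕ κ, Function.Injective ρ →
      Finset.univ.image ρ ∈ B → IsUnit (mnr p ρ) := by
    classical
    rw [IsUnit.prod_iff]
    constructor
    · intro h ρ hρ hB
      exact h ρ (by simp [triples, hρ, hB])
    · intro h ρ hρ
      simp only [triples, Finset.mem_filter, Finset.mem_univ, true_and] at hρ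
      exact h ρ hρ.1 hρ.2
  constructor
  · rintro ⟨h2, h3⟩ ρ hρ
    exact ⟨fun h4 => h0.mp h2 ρ hρ h4, fun h4 => h1.mp h3 ρ hρ h4⟩
  · intro h
    exact ⟨h0.mpr fun ρ hρ h4 => (h ρ hρ).1 h4, h1.mpr fun ρ hρ h4 => (h ρ hρ).2 h4⟩

lemma rep_st (Z B : Set (Finset (Fin 3 ⊕ κ))) : ∃ a, Rep (St R Z B) (Stratum R Z B) a := by
  have h1 := (rep_zer (minors R Z)).opn (fprod B)
  have h2 : (fprod (R := R) (S := zer (minors R Z)) B).val _ (fun s =>
      Ideal.Quotient.mkₐ R (Ideal.span (minors R Z)) (X s)) = prodMinors R Z B := by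
    refine Finset.prod_congr rfl fun ρ _ => ?_
    have h3 : aeval (fun s => Ideal.Quotient.mkₐ R (Ideal.span (minors R Z)) (X s)) =
        Ideal.Quotient.mkₐ R (Ideal.span (minors R Z)) := by
      apply MvPolynomial.algHom_ext
      intro s
      rw [aeval_X]
    rw [← aeval_plucker (R := R), h3]
    rfl
  rw [h2] at h1
  exact ⟨_, (st_iff Z B _ _).mp h1.mem, fun C _ _ p hp => h1.ex C p ((st_iff Z B C p).mpr hp),
    h1.uniq⟩

end rep

section tot

variable {σ : Type} {sep : Prop} {P : Sch R → Prop}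

/-- from the closed part and the open part to the whole -/
lemma Hol.tot (hP : Clo sep P) {S : Pts R σ} (e : Fn S) (hS : Repr S) (hc : Hol P (S.clo e))
    (ho : Hol P (S.opn e)) : Hol P S := by
  obtain ⟨A, i1, i2, i3, a, h1, -⟩ := hS
  exact ⟨A, i1, i2, i3, a, h1, hP.total _ _ (ft_aff sep) (triple_away (e.val A a))
    (hc.of_rep hP (h1.clo e)) (ho.of_rep hP (h1.opn e))⟩

end tot

section strata

variable [Fintype κ] [DecidableEq κ] {sep : Prop} {P : Sch R → Prop}

lemma repr_st (Z B : Set (Finset (Fin 3 ⊕ κ))) : Repr (St R Z B) := by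
  obtain ⟨a, ha⟩ := rep_st (R := R) Z B
  exact ⟨_, inferInstance, inferInstance,
    Algebra.FiniteType.trans (S := MvPolynomial (Fin 3 × κ) R ⧸ Ideal.span (minors R Z))
      inferInstance inferInstance, _, ha, trivial⟩

/-- from the thin cells to all strata -/
lemma hol_strata (hP : Clo sep P)
    (h : ∀ B : Finset (Finset (Fin 3 ⊕ κ)), Hol P (St R {s | s ∉ B} {s | s ∈ B}))
    (W U : Finset (Finset (Fin 3 ⊕ κ))) :
    Hol P (St R {s | s ∉ U ∧ s ∉ W} {s | s ∈ U}) := by
  induction W using Finset.induction_on generalizing U with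
  | empty =>
    have h1 : {s : Finset (Fin 3 ⊕ κ) | s ∉ U ∧ s ∉ (∅ : Finset (Finset (Fin 3 ⊕ κ)))} =
        {s | s ∉ U} := by
      ext s
      simp
    rw [h1]
    exact h U
  | insert s W _ ih =>
    by_cases hs : s ∈ U
    · have h1 : {x : Finset (Fin 3 ⊕ κ) | x ∉ U ∧ x ∉ insert s W} = {x | x ∉ U ∧ x ∉ W} := by
        ext x
        simp only [Set.mem_ofPred_eq, Finset.mem_insert, not_or]
        constructor
        · rintro ⟨h2, -, h3⟩
          exact ⟨h2, h3⟩
        · rintro ⟨h2, h3⟩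
          exact ⟨h2, fun h4 => h2 (h4 ▸ hs), h3⟩
      rw [h1]
      exact ih U
    · by_cases hi : ∃ ρ : Fin 3 → Fin 3 ⊕ κ, Function.Injective ρ ∧ Finset.univ.image ρ = s
      · obtain ⟨ρ₀, hρ₀, rfl⟩ := hi
        refine Hol.tot hP (fmn ρ₀) (repr_st _ _) ?_ ?_
        · refine Hol.congr (fun C _ _ p => ?_) (ih U)
          constructor
          · intro h1
            refine ⟨fun ρ hρ => ⟨fun h2 => (h1 ρ hρ).1 ?_, (h1 ρ hρ).2⟩,
              (h1 ρ₀ hρ₀).1 ⟨hs, ?_⟩⟩
            · exact ⟨h2.1, fun h3 => h2.2 (Finset.mem_insert_of_mem h3)⟩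
            · assumption
          · rintro ⟨h1, h2⟩ ρ hρ
            refine ⟨fun h3 => ?_, (h1 ρ hρ).2⟩
            by_cases h4 : Finset.univ.image ρ = Finset.univ.image ρ₀
            · obtain ⟨u, hu⟩ := mnr_perm p hρ h4.symm
              have h5 : mnr p ρ₀ = 0 := h2
              rw [hu, h5, mul_zero]
            · refine (h1 ρ hρ).1 ⟨h3.1, fun h5 => ?_⟩
              rcases Finset.mem_insert.mp h5 with h5 | h5
              · exact h4 h5
              · exact h3.2 h5
        · refine Hol.congr (fun C _ _ p => ?_) (ih (insert (Finset.univ.image ρ₀) U))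
          constructor
          · intro h1
            refine ⟨fun ρ hρ => ⟨fun h2 => (h1 ρ hρ).1 ?_, fun h2 => (h1 ρ hρ).2 ?_⟩,
              (h1 ρ₀ hρ₀).2 (Finset.mem_insert_self _ _)⟩
            · refine ⟨fun h3 => ?_, fun h3 => h2.2 (Finset.mem_insert_of_mem h3)⟩
              rcases Finset.mem_insert.mp h3 with h4 | h4
              · exact h2.2 (h4 ▸ Finset.mem_insert_self _ _)
              · exact h2.1 h4
            · exact Finset.mem_insert_of_mem h2
          · rintro ⟨h1, h2⟩ ρ hρ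
            refine ⟨fun h3 => (h1 ρ hρ).1 ?_, fun h3 => ?_⟩
            · refine ⟨fun h4 => h3.1 (Finset.mem_insert_of_mem h4), fun h4 => ?_⟩
              rcases Finset.mem_insert.mp h4 with h5 | h5
              · exact h3.1 (h5 ▸ Finset.mem_insert_self _ _)
              · exact h3.2 h5
            · rcases Finset.mem_insert.mp h3 with h4 | h4
              · obtain ⟨u, hu⟩ := mnr_perm p hρ h4.symm
                have h5 : IsUnit (mnr p ρ₀) := h2
                rw [hu]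
                exact u.isUnit.mul h5
              · exact (h1 ρ hρ).2 h4
      · refine Hol.congr (fun C _ _ p => ?_) (ih U)
        constructor
        · intro h1 ρ hρ
          refine ⟨fun h2 => (h1 ρ hρ).1 ⟨h2.1, fun h3 => h2.2 (Finset.mem_insert_of_mem h3)⟩,
            (h1 ρ hρ).2⟩
        · intro h1 ρ hρ
          refine ⟨fun h2 => (h1 ρ hρ).1 ⟨h2.1, fun h3 => ?_⟩, (h1 ρ hρ).2⟩
          rcases Finset.mem_insert.mp h3 with h5 | h5
          · exact hi ⟨ρ, hρ, h5⟩
          · exact h2.2 h5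

end strata

/-- the matrices with some minors zero, some entries invertible, and some entries equal to one -/
def CE (R : Type) [CommRing R] (Z : Set (Fin 3 → Fin 3 ⊕ κ)) (U N : Set (Fin 3 × κ)) :
    Pts R (Fin 3 × κ) where
  pts _ _ _ p := (∀ ρ ∈ Z, mnr p ρ = 0) ∧ (∀ e ∈ U, IsUnit (p e)) ∧ ∀ e ∈ N, p e = 1
  map {C D} _ _ _ _ f p h := by
    refine ⟨fun ρ hρ => ?_, fun e he => (h.2.1 e he).map f,
      fun e he => (congrArg f (h.2.2 e he)).trans (map_one f)⟩
    rw [← mnr_alg f p ρ, h.1 ρ hρ, map_zero]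

/-- the minor equal to an entry -/
def tr (e : Fin 3 × κ) (a : Fin 3) : Fin 3 ⊕ κ := if a = e.1 then .inr e.2 else .inl a

lemma mnr_tr {C : Type} [CommRing C] (p : Fin 3 × κ → C) (e : Fin 3 × κ) : mnr p (tr e) = p e := by
  obtain ⟨i, j⟩ := e
  rw [mnr, Matrix.det_fin_three]
  fin_cases i <;> simp [tr, col]

lemma mnr_not_injective {C : Type} [CommRing C] (p : Fin 3 × κ → C) {ρ : Fin 3 → Fin 3 ⊕ κ}
    (h : ¬ Function.Injective ρ) : mnr p ρ = 0 := by
  rw [Function.not_injective_iff] at h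
  obtain ⟨a, b, hab, hne⟩ := h
  refine Matrix.det_zero_of_column_eq hne fun i => ?_
  change col p (ρ a) i = col p (ρ b) i
  rw [hab]

section ce

variable [Fintype κ] [DecidableEq κ] {sep : Prop} {P : Sch R → Prop}

lemma hol_ce0 (hP : Clo sep P)
    (h : ∀ B : Finset (Finset (Fin 3 ⊕ κ)), Hol P (St R {s | s ∉ B} {s | s ∈ B}))
    (Z : Set (Fin 3 → Fin 3 ⊕ κ)) : Hol P (CE R Z ∅ ∅) := by
  classical
  let W : Finset (Finset (Fin 3 ⊕ κ)) := Finset.univ.filter fun s =>
    ¬ ∃ ρ ∈ Z, Function.Injective ρ ∧ Finset.univ.image ρ = s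
  refine Hol.congr (fun C _ _ p => ?_) (hol_strata hP h W ∅)
  constructor
  · intro h1
    refine ⟨fun ρ hρ => ?_, fun e he => absurd he (Set.notMem_empty e),
      fun e he => absurd he (Set.notMem_empty e)⟩
    by_cases h2 : Function.Injective ρ
    · refine (h1 ρ h2).1 ⟨Finset.notMem_empty _, fun h3 => ?_⟩
      exact (Finset.mem_filter.mp h3).2 ⟨ρ, hρ, h2, rfl⟩
    · exact mnr_not_injective p h2
  · rintro ⟨h1, -, -⟩ ρ hρ
    refine ⟨fun h2 => ?_, fun h2 => absurd h2 (Finset.notMem_empty _)⟩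
    have h3 : ∃ ρ' ∈ Z, Function.Injective ρ' ∧ Finset.univ.image ρ' = Finset.univ.image ρ := by
      by_contra h3
      exact h2.2 (Finset.mem_filter.mpr ⟨Finset.mem_univ _, h3⟩)
    obtain ⟨ρ', h4, h5, h6⟩ := h3
    obtain ⟨u, hu⟩ := mnr_perm p hρ h6
    rw [hu, h1 ρ' h4, mul_zero]

/-- invertible entries, by closed-open decompositions -/
lemma hol_ce1 (hP : Clo sep P) (h : ∀ Z : Set (Fin 3 → Fin 3 ⊕ κ), Hol P (CE R Z ∅ ∅))
    (U : Finset (Fin 3 × κ)) (Z : Set (Fin 3 → Fin 3 ⊕ κ)) :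
    Hol P (CE R Z (U : Set (Fin 3 × κ)) ∅) := by
  induction U using Finset.induction_on generalizing Z with
  | empty => rw [Finset.coe_empty]; exact h Z
  | insert e U _ ih =>
    refine Hol.congr (fun C _ _ p => ?_) ((ih Z).opn (ent e) hP
      (Hol.congr (fun C _ _ p => ?_) (ih (insert (tr e) Z))))
    · rw [Finset.coe_insert]
      constructor
      · rintro ⟨⟨h1, h3, h4⟩, h5⟩
        refine ⟨h1, ?_, h4⟩
        rintro e' (rfl | he)
        · exact h5
        · exact h3 e' he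
      · rintro ⟨h1, h3, h4⟩
        exact ⟨⟨h1, fun e' he => h3 e' (Or.inr he), h4⟩, h3 e (Or.inl rfl)⟩
    · constructor
      · rintro ⟨h2, h3, h4⟩
        exact ⟨⟨fun e' he => h2 e' (Or.inr he), h3, h4⟩,
          (mnr_tr p e).symm.trans (h2 (tr e) (Or.inl rfl))⟩
      · rintro ⟨⟨h2, h3, h4⟩, h5⟩
        refine ⟨?_, h3, h4⟩
        rintro ρ (rfl | he)
        · rw [mnr_tr]
          exact h5
        · exact h2 ρ he

lemma repr_ce0 (Z : Set (Fin 3 → Fin 3 ⊕ κ)) : Repr (CE R Z ∅ ∅) := by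
  refine Hol.congr (fun C _ _ p => ?_)
    ⟨_, inferInstance, inferInstance, inferInstance, _, rep_zer {g | ∃ ρ ∈ Z, g = plucker R ρ},
      trivial⟩
  constructor
  · intro h
    refine ⟨fun ρ hρ => ?_, fun e he => absurd he (Set.notMem_empty e),
      fun e he => absurd he (Set.notMem_empty e)⟩
    rw [← aeval_plucker (R := R)]
    exact h _ ⟨ρ, hρ, rfl⟩
  · rintro ⟨h1, -, -⟩ _ ⟨ρ, hρ, rfl⟩
    rw [aeval_plucker]
    exact h1 ρ hρ

lemma repr_ce1 (Z : Set (Fin 3 → Fin 3 ⊕ κ)) (U : Finset (Fin 3 × κ)) :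
    Repr (CE R Z (U : Set (Fin 3 × κ)) ∅) := by
  induction U using Finset.induction_on with
  | empty => rw [Finset.coe_empty]; exact repr_ce0 Z
  | insert e U _ ih =>
    refine Hol.congr (fun C _ _ p => ?_) (ih.opn (ent e))
    rw [Finset.coe_insert]
    constructor
    · rintro ⟨⟨h1, h3, h4⟩, h5⟩
      refine ⟨h1, ?_, h4⟩
      rintro e' (rfl | he)
      · exact h5
      · exact h3 e' he
    · rintro ⟨h1, h3, h4⟩
      exact ⟨⟨h1, fun e' he => h3 e' (Or.inr he), h4⟩, h3 e (Or.inl rfl)⟩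

lemma repr_ce (Z : Set (Fin 3 → Fin 3 ⊕ κ)) (U N : Finset (Fin 3 × κ)) :
    Repr (CE R Z (U : Set (Fin 3 × κ)) (N : Set (Fin 3 × κ))) := by
  induction N using Finset.induction_on with
  | empty => rw [Finset.coe_empty]; exact repr_ce1 Z U
  | insert e N _ ih =>
    refine Hol.congr (fun C _ _ p => ?_) (ih.clo (ent1 e))
    rw [Finset.coe_insert]
    constructor
    · rintro ⟨⟨h1, h3, h4⟩, h5⟩
      refine ⟨h1, h3, ?_⟩
      rintro e' (rfl | he)
      · exact sub_eq_zero.mp h5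
      · exact h4 e' he
    · rintro ⟨h1, h3, h4⟩
      exact ⟨⟨h1, h3, fun e' he => h4 e' (Or.inr he)⟩, sub_eq_zero.mpr (h4 e (Or.inl rfl))⟩

end ce

end Pool.Agent.H81.RZ
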