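import Pool.Agent.H81.RZ.Cell

/-!
# Thin Schubert cells of planes decide every property closed under closed-open decompositions
-/

set_option autoImplicit false
set_option linter.unusedSectionVars false

open CategoryTheory AlgebraicGeometry MvPolynomial Pool.Agent.Y116.UV Pool.Agent.Q193.LT Pool.Agent.Q282.UK

namespace Pool.Agent.H81.RZ

variable {R : Type} [CommRing R] {κ : Type}

open Classical in
/-- the entries in `sel` multiplied by `c` -/
noncomputable def sc {C : Type} [CommRing C] (sel : Fin 3 × κ → Prop) (c : C)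
    (p : Fin 3 × κ → C) (e : Fin 3 × κ) : C := (if sel e then c else 1) * p e

lemma sc_pos {C : Type} [CommRing C] {sel : Fin 3 × κ → Prop} {e : Fin 3 × κ} (h : sel e) (c : C)
    (p : Fin 3 × κ → C) : sc sel c p e = c * p e := by
  rw [sc, if_pos h]

lemma sc_neg {C : Type} [CommRing C] {sel : Fin 3 × κ → Prop} {e : Fin 3 × κ} (h : ¬ sel e) (c : C)
    (p : Fin 3 × κ → C) : sc sel c p e = p e := by
  rw [sc, if_neg h, one_mul]

/-- the scalings do not change the zeros of the minors -/
def Stab (sel : Fin 3 × κ → Prop) : Prop :=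
  ∀ (C : Type) [CommRing C] (p : Fin 3 × κ → C) (c : C), IsUnit c →
    ∀ ρ : Fin 3 → Fin 3 ⊕ κ, mnr p ρ = 0 → mnr (sc sel c p) ρ = 0

lemma stab_row (i₀ : Fin 3) : Stab fun e : Fin 3 × κ => e.1 = i₀ := by
  classical
  intro C _ p c hc ρ h
  obtain ⟨c', hc'⟩ := hc.exists_right_inv
  let t : Fin 3 → C := fun i' => if i' = i₀ then c else 1
  let w : Fin 3 → C := fun a => Sum.elim (fun j => if j = i₀ then c' else 1) (fun _ => 1) (ρ a)
  have h1 : (Matrix.of fun i a => col (sc (fun e : Fin 3 × κ => e.1 = i₀) c p) (ρ a) i) =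
      Matrix.of fun i a => t i * (Matrix.of fun i a => w a * (Matrix.of fun i a =>
        col p (ρ a) i) i a) i a := by
    ext i a
    simp only [Matrix.of_apply, t, w]
    rcases ρ a with j | j
    · change (if i = j then (1 : C) else 0) = (if i = i₀ then c else 1) *
        ((if j = i₀ then c' else 1) * if i = j then 1 else 0)
      by_cases h2 : i = j
      · subst h2
        by_cases h3 : i = i₀
        · rw [if_pos rfl, if_pos h3, if_pos h3, mul_one, hc']
        · rw [if_pos rfl, if_neg h3, if_neg h3, mul_one, mul_one]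
      · rw [if_neg h2, mul_zero, mul_zero]
    · change sc (fun e : Fin 3 × κ => e.1 = i₀) c p (i, j) =
        (if i = i₀ then c else 1) * (1 * p (i, j))
      rw [one_mul]
      by_cases h3 : i = i₀
      · rw [sc_pos (sel := fun e : Fin 3 × κ => e.1 = i₀) (e := (i, j)) h3, if_pos h3]
      · rw [sc_neg (sel := fun e : Fin 3 × κ => e.1 = i₀) (e := (i, j)) h3, if_neg h3, one_mul]
  rw [mnr, h1, Matrix.det_mul_column, Matrix.det_mul_row]
  change _ * (_ * mnr p ρ) = 0
  rw [h, mul_zero, mul_zero]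

lemma stab_col (j₀ : κ) : Stab fun e : Fin 3 × κ => e.2 = j₀ := by
  classical
  intro C _ p c hc ρ h
  let w : Fin 3 → C := fun a => Sum.elim (fun _ => 1) (fun j => if j = j₀ then c else 1) (ρ a)
  have h1 : (Matrix.of fun i a => col (sc (fun e : Fin 3 × κ => e.2 = j₀) c p) (ρ a) i) =
      Matrix.of fun i a => w a * (Matrix.of fun i a => col p (ρ a) i) i a := by
    ext i a
    simp only [Matrix.of_apply, w]
    rcases ρ a with j | j
    · exact (one_mul _).symm
    · change sc (fun e : Fin 3 × κ => e.2 = j₀) c p (i, j) = (if j = j₀ then c else 1) * p (i, j)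
      by_cases h3 : j = j₀
      · rw [sc_pos (sel := fun e : Fin 3 × κ => e.2 = j₀) (e := (i, j)) h3, if_pos h3]
      · rw [sc_neg (sel := fun e : Fin 3 × κ => e.2 = j₀) (e := (i, j)) h3, if_neg h3, one_mul]
  rw [mnr, h1, Matrix.det_mul_row]
  change _ * mnr p ρ = 0
  rw [h, mul_zero]

section scale

variable (Z : Set (Fin 3 → Fin 3 ⊕ κ)) (U N : Set (Fin 3 × κ)) {sel : Fin 3 × κ → Prop}
  (e₀ : Fin 3 × κ)

open Classical in
lemma bij_sel (hst : Stab sel) (hs : sel e₀) (hU : e₀ ∈ U) (hN : ∀ e ∈ N, ¬ sel e) :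
    Bij (CE R Z U N) (CE R Z U (insert e₀ N)).gm
      (fun _ _ _ p e => e.elim (p e₀) fun e => sc sel (Ring.inverse (p e₀)) p e)
      (fun _ _ _ q e => sc sel (q none) (fun e => q (some e)) e) where
  natF {C D} _ _ _ _ f p h t := by
    rcases t with _ | e
    · rfl
    · change f ((if sel e then Ring.inverse (p e₀) else 1) * p e) =
        (if sel e then Ring.inverse (f (p e₀)) else 1) * f (p e)
      have h1 := map_inverse_of_isUnit (f : C →+* D) (h.2.1 _ hU)
      rw [map_mul]
      congr 1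
      split_ifs
      · exact h1
      · exact map_one f
  natG f p h e := by
    change f ((if sel e then p none else 1) * p (some e)) =
      (if sel e then f (p none) else 1) * f (p (some e))
    rw [map_mul]
    congr 1
    split_ifs
    · rfl
    · exact map_one f
  memF C _ _ p h := by
    obtain ⟨h1, h3, h4⟩ := h
    have hu := h3 _ hU
    have hu' : IsUnit (Ring.inverse (p e₀)) := hu.ringInverse
    refine ⟨⟨fun ρ hρ => hst C p _ hu' ρ (h1 ρ hρ), fun e he => ?_, ?_⟩, hu⟩
    · refine IsUnit.mul ?_ (h3 e he)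
      split_ifs
      · exact hu'
      · exact isUnit_one
    · rintro e (rfl | he)
      · change (if sel e then Ring.inverse (p e) else 1) * p e = 1
        rw [if_pos hs]
        exact Ring.inverse_mul_cancel _ hu
      · change (if sel e then Ring.inverse (p e₀) else 1) * p e = 1
        rw [if_neg (hN e he), h4 e he, one_mul]
  memG C _ _ q h := by
    obtain ⟨⟨h1, h3, h4⟩, hu⟩ := h
    replace h4 : ∀ e ∈ insert e₀ N, q (some e) = 1 := h4
    refine ⟨fun ρ hρ => hst C (fun e => q (some e)) _ hu ρ (h1 ρ hρ), fun e he => ?_,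
      fun e he => ?_⟩
    · refine IsUnit.mul ?_ (h3 e he)
      split_ifs
      · exact hu
      · exact isUnit_one
    · change (if sel e then q none else 1) * q (some e) = 1
      rw [if_neg (hN e he), h4 e (Or.inr he), one_mul]
  GF C _ _ p h := by
    have hu := h.2.1 _ hU
    funext e
    change (if sel e then p e₀ else 1) * ((if sel e then Ring.inverse (p e₀) else 1) * p e) = p e
    split_ifs
    · rw [← mul_assoc, Ring.mul_inverse_cancel _ hu, one_mul]
    · rw [one_mul, one_mul]
  FG C _ _ q h := by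
    have hu := h.2
    have h1 : q (some e₀) = 1 := h.1.2.2 _ (Or.inl rfl)
    have h2 : sc sel (q none) (fun e => q (some e)) e₀ = q none := by
      change (if sel e₀ then q none else 1) * q (some e₀) = q none
      rw [if_pos hs, h1, mul_one]
    funext t
    rcases t with _ | e
    · exact h2
    · change (if sel e then Ring.inverse (sc sel (q none) (fun e => q (some e)) e₀)
        else 1) * ((if sel e then q none else 1) * q (some e)) = q (some e)
      rw [h2]
      split_ifs
      · rw [← mul_assoc, Ring.inverse_mul_cancel _ hu, one_mul]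
      · rw [one_mul, one_mul]

end scale

section

variable [Fintype κ] [DecidableEq κ] {sep : Prop} {P : Sch R → Prop} (hP : Clo sep P)

include hP

/-- normalising one entry -/
lemma hol_sel1 {Z : Set (Fin 3 → Fin 3 ⊕ κ)} {U N : Finset (Fin 3 × κ)}
    {sel : Fin 3 × κ → Prop} {e₀ : Fin 3 × κ} (hst : Stab sel) (hs : sel e₀) (hU : e₀ ∈ U)
    (hN : ∀ e ∈ N, ¬ sel e) (h : Hol P (CE R Z (U : Set (Fin 3 × κ)) (N : Set (Fin 3 × κ)))) :
    Hol P (CE R Z (U : Set (Fin 3 × κ)) ((insert e₀ N : Finset (Fin 3 × κ)) :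
      Set (Fin 3 × κ))) := by
  refine Hol.of_gm hP (repr_ce Z U _) ?_
  have h1 := h.trans (bij_sel Z (U : Set (Fin 3 × κ)) (N : Set (Fin 3 × κ)) e₀ hst hs hU hN)
  rw [Finset.coe_insert]
  exact h1

/-- normalising some entries -/
lemma hol_sel {ι : Type} [DecidableEq ι] {Z : Set (Fin 3 → Fin 3 ⊕ κ)} {U N : Finset (Fin 3 × κ)}
    (I : Finset ι) (sel : ι → Fin 3 × κ → Prop) (e₀ : ι → Fin 3 × κ) (hst : ∀ i, Stab (sel i))
    (hs : ∀ i ∈ I, sel i (e₀ i)) (hs' : ∀ i ∈ I, ∀ i' ∈ I, sel i (e₀ i') → i = i')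
    (hU : ∀ i ∈ I, e₀ i ∈ U) (hN : ∀ i ∈ I, ∀ e ∈ N, ¬ sel i e)
    (h : Hol P (CE R Z (U : Set (Fin 3 × κ)) (N : Set (Fin 3 × κ)))) :
    Hol P (CE R Z (U : Set (Fin 3 × κ)) ((N ∪ I.image e₀ : Finset (Fin 3 × κ)) :
      Set (Fin 3 × κ))) := by
  induction I using Finset.induction_on with
  | empty => rw [Finset.image_empty, Finset.union_empty]; exact h
  | insert i I hi ih =>
    have h1 := ih (fun i' hi' => hs i' (Finset.mem_insert_of_mem hi'))
      (fun i hi i' hi' => hs' i (Finset.mem_insert_of_mem hi) i' (Finset.mem_insert_of_mem hi'))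
      (fun i' hi' => hU i' (Finset.mem_insert_of_mem hi'))
      (fun i' hi' => hN i' (Finset.mem_insert_of_mem hi'))
    have hi0 := Finset.mem_insert_self i I
    rw [Finset.image_insert, Finset.union_insert]
    refine hol_sel1 hP (hst i) (hs i hi0) (hU i hi0) ?_ h1
    intro e he hse
    rcases Finset.mem_union.mp he with h2 | h2
    · exact hN i hi0 e h2 hse
    · obtain ⟨i', hi', rfl⟩ := Finset.mem_image.mp h2
      have h3 := hs' i hi0 i' (Finset.mem_insert_of_mem hi') hse
      exact hi (h3 ▸ hi')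

end

/-- the points of the configuration -/
inductive Cc (V E : Type) : Type
  | n
  | u
  | p (t : V)
  | p' (t : V)
  | m (t : V)
  | q (e : E)
  deriving DecidableEq, Fintype

variable {V E : Type}

/-- the coordinates of the points -/
def cx {C : Type} [CommRing C] (Y : Sys V E) (x : V → C) : Cc V E → Fin 3 → C
  | .n => ![1, 1, 0]
  | .u => ![1, 0, 1]
  | .p t => ![-x t, 0, 1]
  | .p' t => ![0, x t, 1]
  | .m t => ![1, -x t, 0]
  | .q e => if Y.k e then ![-x (Y.a e), x (Y.b e), 1] else ![-x (Y.b e), x (Y.c e), 1]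

/-- the zero coordinates -/
def z0 : Fin 3 × Cc V E → Prop
  | (2, .n) => True
  | (1, .u) => True
  | (1, .p _) => True
  | (0, .p' _) => True
  | (2, .m _) => True
  | _ => False

/-- the normalised coordinates -/
def n0 : Fin 3 × Cc V E → Prop
  | (0, .n) => True
  | (1, .n) => True
  | (0, .u) => True
  | (2, .u) => True
  | (2, .p _) => True
  | (2, .p' _) => True
  | (0, .m _) => True
  | (2, .q _) => True
  | _ => False

/-- the collinear triples -/
inductive Tr (Y : Sys V E) : (Fin 3 → Fin 3 ⊕ Cc V E) → Prop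
  | z (e : Fin 3 × Cc V E) (h : z0 e) : Tr Y (tr e)
  | np (t : V) : Tr Y ![.inr .n, .inr (.p t), .inr (.p' t)]
  | um (t : V) : Tr Y ![.inr (.p' t), .inr .u, .inr (.m t)]
  | o : Tr Y ![.inl 1, .inr .u, .inr (.p Y.o)]
  | a1 (e : E) (h : Y.k e = true) : Tr Y ![.inl 1, .inr (.p (Y.a e)), .inr (.q e)]
  | a2 (e : E) (h : Y.k e = true) : Tr Y ![.inl 0, .inr (.p' (Y.b e)), .inr (.q e)]
  | a3 (e : E) (h : Y.k e = true) : Tr Y ![.inr .n, .inr (.p (Y.c e)), .inr (.q e)]
  | m1 (e : E) (h : Y.k e = false) : Tr Y ![.inl 1, .inr (.p (Y.b e)), .inr (.q e)]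
  | m2 (e : E) (h : Y.k e = false) : Tr Y ![.inl 0, .inr (.p' (Y.c e)), .inr (.q e)]
  | m3 (e : E) (h : Y.k e = false) : Tr Y ![.inl 2, .inr (.m (Y.a e)), .inr (.q e)]

section fwd

variable {C : Type} [CommRing C] (Y : Sys V E) (x : V → C)
  (hx : x Y.o = -1) (hY : ∀ e, (if Y.k e then x (Y.a e) + x (Y.b e) else
    x (Y.a e) * x (Y.b e)) = x (Y.c e))

include hx hY

lemma mnr_zero (ρ : Fin 3 → Fin 3 ⊕ Cc V E) (h : Tr Y ρ) :
    mnr (fun e : Fin 3 × Cc V E => cx Y x e.2 e.1) ρ = 0 := by
  cases h with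
  | z e h =>
    rw [mnr_tr]
    obtain ⟨i, c⟩ := e
    cases c <;> fin_cases i <;> simp_all [z0, cx]
  | np t => simp [mnr, Matrix.det_fin_three, col, cx]
  | um t => simp [mnr, Matrix.det_fin_three, col, cx]
  | o => simp [mnr, Matrix.det_fin_three, col, cx, hx]
  | a1 e he => simp [mnr, Matrix.det_fin_three, col, cx, he]
  | a2 e he => simp [mnr, Matrix.det_fin_three, col, cx, he]
  | a3 e he =>
    have h2 := hY e
    simp [he] at h2
    simp [mnr, Matrix.det_fin_three, col, cx, he]
    linear_combination -h2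
  | m1 e he => simp [mnr, Matrix.det_fin_three, col, cx, he]
  | m2 e he => simp [mnr, Matrix.det_fin_three, col, cx, he]
  | m3 e he =>
    have h2 := hY e
    simp [he] at h2
    simp [mnr, Matrix.det_fin_three, col, cx, he]
    linear_combination -h2

end fwd

lemma cx_one {C : Type} [CommRing C] (Y : Sys V E) (x : V → C) (e : Fin 3 × Cc V E) (h : n0 e) :
    cx Y x e.2 e.1 = 1 := by
  obtain ⟨i, c⟩ := e
  cases c with
  | q e => rcases he : Y.k e with _ | _ <;> fin_cases i <;> simp_all [n0, cx]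
  | _ => fin_cases i <;> simp_all [n0, cx]

section bwd

variable {C : Type} [CommRing C] (Y : Sys V E) {p : Fin 3 × Cc V E → C}
  (hz : ∀ ρ, Tr Y ρ → mnr p ρ = 0) (hn : ∀ e, n0 e → p e = 1)

include hz hn

lemma r_z (e : Fin 3 × Cc V E) (h : z0 e) : p e = 0 :=
  (mnr_tr p e).symm.trans (hz _ (.z e h))

lemma r_p (t : V) : p (0, .p t) = -p (1, .p' t) := by
  have h := hz _ (.np t)
  simp [mnr, Matrix.det_fin_three, col, hn (0, .n) trivial, hn (1, .n) trivial,
    hn (2, .p t) trivial, hn (2, .p' t) trivial, r_z Y hz hn (2, .n) trivial,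
    r_z Y hz hn (1, .p t) trivial, r_z Y hz hn (0, .p' t) trivial] at h
  linear_combination -h

lemma r_m (t : V) : p (1, .m t) = -p (1, .p' t) := by
  have h := hz _ (.um t)
  simp [mnr, Matrix.det_fin_three, col, hn (0, .u) trivial, hn (2, .u) trivial,
    hn (0, .m t) trivial, hn (2, .p' t) trivial, r_z Y hz hn (1, .u) trivial,
    r_z Y hz hn (2, .m t) trivial, r_z Y hz hn (0, .p' t) trivial] at h
  linear_combination h

lemma r_o : p (1, .p' Y.o) = -1 := by
  have h := hz _ .o
  simp [mnr, Matrix.det_fin_three, col, hn (0, .u) trivial, hn (2, .u) trivial,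
    hn (2, .p Y.o) trivial, r_z Y hz hn (1, .u) trivial,
    r_z Y hz hn (1, .p Y.o) trivial, r_p Y hz hn] at h
  linear_combination -h

lemma r_a1 {e : E} (he : Y.k e = true) : p (0, .q e) = -p (1, .p' (Y.a e)) := by
  have h := hz _ (.a1 e he)
  simp [mnr, Matrix.det_fin_three, col, hn (2, .q e) trivial,
    hn (2, .p (Y.a e)) trivial, r_z Y hz hn (1, .p (Y.a e)) trivial, r_p Y hz hn] at h
  linear_combination h

lemma r_a2 {e : E} (he : Y.k e = true) : p (1, .q e) = p (1, .p' (Y.b e)) := by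
  have h := hz _ (.a2 e he)
  simp [mnr, Matrix.det_fin_three, col, hn (2, .q e) trivial,
    hn (2, .p' (Y.b e)) trivial] at h
  linear_combination -h

lemma r_m1 {e : E} (he : Y.k e = false) : p (0, .q e) = -p (1, .p' (Y.b e)) := by
  have h := hz _ (.m1 e he)
  simp [mnr, Matrix.det_fin_three, col, hn (2, .q e) trivial,
    hn (2, .p (Y.b e)) trivial, r_z Y hz hn (1, .p (Y.b e)) trivial, r_p Y hz hn] at h
  linear_combination h

lemma r_m2 {e : E} (he : Y.k e = false) : p (1, .q e) = p (1, .p' (Y.c e)) := by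
  have h := hz _ (.m2 e he)
  simp [mnr, Matrix.det_fin_three, col, hn (2, .q e) trivial,
    hn (2, .p' (Y.c e)) trivial] at h
  linear_combination -h

lemma r_add {e : E} (he : Y.k e = true) :
    p (1, .p' (Y.a e)) + p (1, .p' (Y.b e)) = p (1, .p' (Y.c e)) := by
  have h := hz _ (.a3 e he)
  simp [mnr, Matrix.det_fin_three, col, hn (2, .q e) trivial, hn (0, .n) trivial,
    hn (1, .n) trivial, r_z Y hz hn (2, .n) trivial,
    hn (2, .p (Y.c e)) trivial, r_z Y hz hn (1, .p (Y.c e)) trivial, r_p Y hz hn,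
    r_a1 Y hz hn he, r_a2 Y hz hn he] at h
  linear_combination -h

lemma r_mul {e : E} (he : Y.k e = false) :
    p (1, .p' (Y.a e)) * p (1, .p' (Y.b e)) = p (1, .p' (Y.c e)) := by
  have h := hz _ (.m3 e he)
  simp [mnr, Matrix.det_fin_three, col, hn (2, .q e) trivial, hn (0, .m (Y.a e)) trivial,
    r_z Y hz hn (2, .m (Y.a e)) trivial, r_m Y hz hn,
    r_m1 Y hz hn he, r_m2 Y hz hn he] at h
  linear_combination -h

lemma p_cx : p = fun e => cx Y (fun t => p (1, .p' t)) e.2 e.1 := by
  funext ⟨i, c⟩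
  cases c with
  | n =>
    fin_cases i
    · exact hn (0, .n) trivial
    · exact hn (1, .n) trivial
    · exact r_z Y hz hn (2, .n) trivial
  | u =>
    fin_cases i
    · exact hn (0, .u) trivial
    · exact r_z Y hz hn (1, .u) trivial
    · exact hn (2, .u) trivial
  | p t =>
    fin_cases i
    · exact r_p Y hz hn t
    · exact r_z Y hz hn (1, .p t) trivial
    · exact hn (2, .p t) trivial
  | p' t =>
    fin_cases i
    · exact r_z Y hz hn (0, .p' t) trivial
    · rfl
    · exact hn (2, .p' t) trivial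
  | m t =>
    fin_cases i
    · exact hn (0, .m t) trivial
    · exact r_m Y hz hn t
    · exact r_z Y hz hn (2, .m t) trivial
  | q e =>
    have h2 := hn (2, .q e) trivial
    rcases he : Y.k e with _ | _
    · have h0 := r_m1 Y hz hn he
      have h1 := r_m2 Y hz hn he
      fin_cases i
      · simp [cx, he, h0]
      · simp [cx, he, h1]
      · simp [cx, he, h2]
    · have h0 := r_a1 Y hz hn he
      have h1 := r_a2 Y hz hn he
      fin_cases i
      · simp [cx, he, h0]
      · simp [cx, he, h1]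
      · simp [cx, he, h2]

end bwd

/-- The normalised matrices are the solutions of the system. -/
lemma bij_ce (Y : Sys V E) (U : Set (Fin 3 × Cc V E)) (hU : ∀ e ∈ U, n0 e) :
    Bij (CE R {ρ | Tr Y ρ} U {e | n0 e}) (slp R Y)
      (fun _ _ _ p t => p (1, .p' t)) (fun _ _ _ x e => cx Y x e.2 e.1) where
  natF f p _ t := rfl
  natG {C D} _ _ _ _ f x hx e := by
    obtain ⟨i, c⟩ := e
    cases c with
    | q e => rcases he : Y.k e with _ | _ <;> fin_cases i <;> simp [cx, he]
    | _ => fin_cases i <;> simp [cx]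
  memF C _ _ p h := by
    obtain ⟨h1, -, h4⟩ := h
    refine ⟨r_o Y h1 h4, fun e => ?_⟩
    rcases he : Y.k e with _ | _
    · rw [if_neg (by simp)]
      exact r_mul Y h1 h4 he
    · rw [if_pos rfl]
      exact r_add Y h1 h4 he
  memG C _ _ x h := by
    refine ⟨fun ρ hρ => mnr_zero Y x h.1 h.2 ρ hρ, fun e he => ?_, fun e he => cx_one Y x e he⟩
    change IsUnit (cx Y x e.2 e.1)
    rw [cx_one Y x e (hU e he)]
    exact isUnit_one
  GF C _ _ p h := by
    obtain ⟨h1, -, h4⟩ := h
    exact (p_cx Y h1 h4).symm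
  FG C _ _ x h := rfl

section main

variable {sep : Prop} {P : Sch R → Prop} (hP : Clo sep P) [Fintype V] [Fintype E]

/-- the columns normalised by the first row -/
def k1 : Cc V E → Bool
  | .n => true
  | .u => true
  | .m _ => true
  | _ => false

/-- the columns normalised by the third row -/
def k3 : Cc V E → Bool
  | .p _ => true
  | .p' _ => true
  | .q _ => true
  | _ => false

omit [Fintype V] [Fintype E] in
lemma k13 {c : Cc V E} (h1 : k1 c = true) (h3 : k3 c = true) : False := by
  cases c <;> simp_all [k1, k3]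

omit [Fintype V] [Fintype E] in
lemma n0_iff (i : Fin 3) (c : Cc V E) : n0 (i, c) ↔ (i = 0 ∧ k1 c = true) ∨
    (i = 1 ∧ c = .n) ∨ (i = 2 ∧ c = .u) ∨ (i = 2 ∧ k3 c = true) := by
  cases c <;> fin_cases i <;> simp [n0, k1, k3]

include hP

/-- from the thin cells to the solutions of the systems -/
theorem slp_of_thin [DecidableEq V] [DecidableEq E]
    (h : ∀ B : Finset (Finset (Fin 3 ⊕ Cc V E)), Hol P (St R {s | s ∉ B} {s | s ∈ B}))
    (Y : Sys V E) : Hol P (slp R Y) := by
  classical
  let Z : Set (Fin 3 → Fin 3 ⊕ Cc V E) := {ρ | Tr Y ρ}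
  let U : Finset (Fin 3 × Cc V E) := Finset.univ.filter fun e => n0 e
  have mU : ∀ e, e ∈ U ↔ n0 e := fun e => by simp [U]
  let J1 : Finset (Cc V E) := Finset.univ.filter fun c => k1 c = true
  let J3 : Finset (Cc V E) := Finset.univ.filter fun c => k3 c = true
  have m1 : ∀ c, c ∈ J1 ↔ k1 c = true := fun c => by simp [J1]
  have m3 : ∀ c, c ∈ J3 ↔ k3 c = true := fun c => by simp [J3]
  have h0 : Hol P (CE R Z (U : Set _) ((∅ : Finset (Fin 3 × Cc V E)) : Set _)) := by
    rw [Finset.coe_empty]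
    exact hol_ce1 hP (hol_ce0 hP h) U Z
  have h1 := hol_sel hP J1 (fun j (e : Fin 3 × Cc V E) => e.2 = j) (fun j => (0, j)) stab_col
    (fun _ _ => rfl) (fun _ _ _ _ h => h.symm)
    (fun j hj => by
      rw [mU]
      have h2 := (m1 j).mp hj
      cases j <;> first | exact trivial | exact absurd h2 (by simp [k1]))
    (fun _ _ e he => absurd he (Finset.notMem_empty e)) h0
  let r2 : Fin 3 → Fin 3 × Cc V E := fun i => if i = 1 then (1, .n) else (i, .u)
  have h2 := hol_sel hP {1, 2} (fun i (e : Fin 3 × Cc V E) => e.1 = i) r2 stab_row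
    (fun i _ => by
      by_cases hi : i = 1
      · simp [r2, hi]
      · simp [r2, hi])
    (fun i _ i' _ h => by
      by_cases hi : i' = 1
      · simp [r2, hi] at h
        rw [hi, h]
      · simp [r2, hi] at h
        exact h.symm)
    (fun i hi => by
      rw [mU]
      fin_cases hi
      · exact trivial
      · exact trivial)
    (fun i hi e he => by
      rcases Finset.mem_union.mp he with h3 | h3
      · exact absurd h3 (Finset.notMem_empty e)
      · obtain ⟨j, -, rfl⟩ := Finset.mem_image.mp h3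
        intro h4
        have h5 : (0 : Fin 3) = i := h4
        subst h5
        exact absurd hi (by decide)) h1
  have h3 := hol_sel hP J3 (fun j (e : Fin 3 × Cc V E) => e.2 = j) (fun j => (2, j)) stab_col
    (fun _ _ => rfl) (fun _ _ _ _ h => h.symm)
    (fun j hj => by
      rw [mU]
      have h2 := (m3 j).mp hj
      cases j <;> first | exact trivial | exact absurd h2 (by simp [k3]))
    (fun j hj e he => by
      have h5 := (m3 j).mp hj
      rintro rfl
      rcases Finset.mem_union.mp he with h3 | h3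
      · rcases Finset.mem_union.mp h3 with h3 | h3
        · exact absurd h3 (Finset.notMem_empty e)
        · obtain ⟨j', hj', rfl⟩ := Finset.mem_image.mp h3
          exact k13 ((m1 j').mp hj') h5
      · obtain ⟨i, hi, rfl⟩ := Finset.mem_image.mp h3
        fin_cases hi
        · exact absurd h5 (by simp [k3, r2])
        · exact absurd h5 (by simp [k3, r2])) h2
  have h4 : (((∅ ∪ J1.image fun j => (0, j)) ∪ ({1, 2} : Finset (Fin 3)).image r2 ∪
      J3.image fun j => (2, j) : Finset (Fin 3 × Cc V E)) : Set (Fin 3 × Cc V E)) =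
      {e | n0 e} := by
    ext ⟨i, c⟩
    rw [Finset.mem_coe]
    change _ ↔ n0 (i, c)
    rw [n0_iff]
    simp only [Finset.mem_union, Finset.mem_image, Finset.notMem_empty, false_or, m1, m3]
    constructor
    · rintro ((⟨j, hj, h5⟩ | ⟨j, hj, h5⟩) | ⟨j, hj, h5⟩)
      · obtain ⟨rfl, rfl⟩ := Prod.mk.inj h5
        exact Or.inl ⟨rfl, hj⟩
      · fin_cases hj
        · obtain ⟨rfl, rfl⟩ := Prod.mk.inj h5
          exact Or.inr (Or.inl ⟨rfl, rfl⟩)
        · obtain ⟨rfl, rfl⟩ := Prod.mk.inj h5
          exact Or.inr (Or.inr (Or.inl ⟨rfl, rfl⟩))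
      · obtain ⟨rfl, rfl⟩ := Prod.mk.inj h5
        exact Or.inr (Or.inr (Or.inr ⟨rfl, hj⟩))
    · rintro (⟨rfl, h5⟩ | ⟨rfl, rfl⟩ | ⟨rfl, rfl⟩ | ⟨rfl, h5⟩)
      · exact Or.inl (Or.inl ⟨c, h5, rfl⟩)
      · exact Or.inl (Or.inr ⟨1, by decide, rfl⟩)
      · exact Or.inl (Or.inr ⟨2, by decide, rfl⟩)
      · exact Or.inr ⟨c, h5, rfl⟩
  rw [h4] at h3
  exact h3.trans (bij_ce (R := R) Y _ fun e he => (mU e).mp he)

end main

section reindex

variable {κ' : Type} [DecidableEq κ] [DecidableEq κ']

/-- the columns under a bijection -/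
def eqc (e : κ ≃ κ') : Fin 3 ⊕ κ ≃ Fin 3 ⊕ κ' := Equiv.sumCongr (Equiv.refl _) e

lemma mnr_reindex {C : Type} [CommRing C] (e : κ ≃ κ') (p : Fin 3 × κ' → C)
    (ρ : Fin 3 → Fin 3 ⊕ κ) : mnr (fun x : Fin 3 × κ => p (x.1, e x.2)) ρ =
      mnr p fun a => eqc e (ρ a) := by
  rw [mnr, mnr]
  congr 1
  ext i a
  change col (fun x : Fin 3 × κ => p (x.1, e x.2)) (ρ a) i = col p (eqc e (ρ a)) i
  rcases ρ a with j | j
  · rfl
  · rfl

lemma bij_st (e : κ ≃ κ') (Z B : Set (Finset (Fin 3 ⊕ κ))) :
    Bij (St R {s | s.image (eqc e).symm ∈ Z} {s | s.image (eqc e).symm ∈ B}) (St R Z B)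
      (fun _ _ _ p x => p (x.1, e x.2)) (fun _ _ _ p x => p (x.1, e.symm x.2)) where
  natF _ _ _ _ := rfl
  natG _ _ _ _ := rfl
  memF C _ _ p h ρ hρ := by
    have h1 : (Finset.univ.image fun a => eqc e (ρ a)).image (eqc e).symm =
        Finset.univ.image ρ := by
      rw [Finset.image_image]
      congr 1
      funext a
      exact (eqc e).symm_apply_apply _
    have h2 := h (fun a => eqc e (ρ a)) fun a b hab => hρ ((eqc e).injective hab)
    rw [mnr_reindex]
    exact ⟨fun h3 => h2.1 (by change _ ∈ Z; rw [h1]; exact h3),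
      fun h3 => h2.2 (by change _ ∈ B; rw [h1]; exact h3)⟩
  memG C _ _ p h ρ hρ := by
    have h1 : (Finset.univ.image fun a => (eqc e).symm (ρ a)) =
        (Finset.univ.image ρ).image (eqc e).symm := by
      rw [Finset.image_image]
      rfl
    have h2 := h (fun a => (eqc e).symm (ρ a)) fun a b hab => hρ ((eqc e).symm.injective hab)
    have h3 : mnr (fun x : Fin 3 × κ' => p (x.1, e.symm x.2)) ρ =
        mnr p fun a => (eqc e).symm (ρ a) := mnr_reindex e.symm p ρ
    rw [h3]
    exact ⟨fun h4 => h2.1 (by rw [h1]; exact h4), fun h4 => h2.2 (by rw [h1]; exact h4)⟩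
  GF C _ _ p _ := by
    funext x
    change p (x.1, e (e.symm x.2)) = p x
    rw [Equiv.apply_symm_apply]
  FG C _ _ p _ := by
    funext x
    change p (x.1, e.symm (e x.2)) = p x
    rw [Equiv.symm_apply_apply]

end reindex

/-- the thin cells, for arbitrary finite sets of columns -/
lemma hol_thin {P : Sch R → Prop} (h : OnThin P) [Fintype κ] [DecidableEq κ]
    (B : Finset (Finset (Fin 3 ⊕ κ))) : Hol P (St R {s | s ∉ B} {s | s ∈ B}) := by
  classical
  let e := Fintype.equivFin κ
  refine Hol.trans ?_ (bij_st e {s | s ∉ B} {s | s ∈ B})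
  let B' : Finset (Finset (Fin 3 ⊕ Fin (Fintype.card κ))) :=
    Finset.univ.filter fun s => s.image (eqc e).symm ∈ B
  have h1 : {s : Finset (Fin 3 ⊕ Fin (Fintype.card κ)) | s.image (eqc e).symm ∈
      {s : Finset (Fin 3 ⊕ κ) | s ∉ B}} = {s | s ∉ B'} := by
    ext s
    change ¬ _ ↔ ¬ _
    simp [B']
  have h2 : {s : Finset (Fin 3 ⊕ Fin (Fintype.card κ)) | s.image (eqc e).symm ∈
      {s : Finset (Fin 3 ⊕ κ) | s ∈ B}} = {s | s ∈ B'} := by
    ext s
    change _ ↔ _ ∈ B'
    simp [B']
  rw [h1, h2]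
  obtain ⟨a, ha⟩ := rep_st (R := R) {s : Finset (Fin 3 ⊕ Fin (Fintype.card κ)) | s ∉ B'}
    {s | s ∈ B'}
  exact ⟨_, inferInstance, inferInstance,
    Algebra.FiniteType.trans (S := MvPolynomial (Fin 3 × Fin (Fintype.card κ)) R ⧸
      Ideal.span (minors R {s | s ∉ B'})) inferInstance inferInstance, _, ha, h _ B'⟩

/-- **Universality of the thin Schubert cells of planes.** Every property which is closed under
closed-open decompositions (in the sense of `Clo`) and which descends along `X × 𝔾_m → X` is true for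
all schemes of finite type as soon as it is true for all thin Schubert cells of the Grassmannians of
planes. -/
theorem clo_thin [IsNoetherianRing R] (hR : Frac R) {sep : Prop} {P : Sch R → Prop}
    (hP : Clo sep P) : OnAll sep P ↔ OnThin P := by
  constructor
  · intro h n B
    have : Algebra.FiniteType R (Thin R B) :=
      Algebra.FiniteType.trans (S := MvPolynomial (Fin 3 × Fin n) R ⧸
        Ideal.span (minors R {s | s ∉ B})) inferInstance inferInstance
    exact h _ (ft_aff sep)
  · intro h X hX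
    exact all_of_slp hR hP (fun _ _ _ _ _ _ Y => slp_of_thin hP (hol_thin h) Y) X hX

end Pool.Agent.H81.RZ
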