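import Pool.Graph.R_seed8.Y116.UV.Main
import Pool.Graph.R_seed8.Q282.UK.Bil

/-!
# Affine schemes by their points

A system of points with the coordinates `σ` assigns to each `R`-algebra `C` a set of families `σ → C`,
stable under homomorphisms. It is represented by an algebra `A` with a universal point.
-/

set_option autoImplicit false

open CategoryTheory AlgebraicGeometry Pool.Agent.Y116.UV Pool.Agent.Q282.UK

namespace Pool.Agent.H81.RZ

/-- The weaker closure properties. -/
theorem clo_of_uni {R : Type} [CommRing R] {sep : Prop} {P : Sch R → Prop} (hP : Uni sep P) :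
    Clo sep P where
  iso := hP.iso
  total := hP.total
  opened := hP.opened
  torus := hP.torus

lemma clo_alg {R : Type} [CommRing R] {sep : Prop} {P : Sch R → Prop} (hP : Clo sep P)
    {A B : Type} [CommRing A] [CommRing B] [Algebra R A] [Algebra R B]
    [Algebra.FiniteType R A] (e : A ≃ₐ[R] B) (h : P (aff R A)) : P (aff R B) :=
  hP.iso (ft_aff sep) ⟨(affIso e).symm⟩ h

/-- a set of points over each algebra, stable under homomorphisms -/
structure Pts (R : Type) [CommRing R] (σ : Type) where
  /-- the points -/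
  pts : ∀ (C : Type) [CommRing C] [Algebra R C], (σ → C) → Prop
  map : ∀ {C D : Type} [CommRing C] [Algebra R C] [CommRing D] [Algebra R D] (f : C →ₐ[R] D)
    {p : σ → C}, pts C p → pts D (fun s => f (p s))

variable {R : Type} [CommRing R] {σ τ : Type}

/-- `A` represents the points, with the universal point `a`. -/
structure Rep (S : Pts R σ) (A : Type) [CommRing A] [Algebra R A] (a : σ → A) : Prop where
  mem : S.pts A a
  ex : ∀ (C : Type) [CommRing C] [Algebra R C] (p : σ → C), S.pts C p →
    ∃ f : A →ₐ[R] C, ∀ s, f (a s) = p s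
  uniq : ∀ (C : Type) [CommRing C] [Algebra R C] (f g : A →ₐ[R] C), (∀ s, f (a s) = g (a s)) →
    f = g

/-- representing algebras are isomorphic -/
lemma Rep.iso {S : Pts R σ} {A B : Type} [CommRing A] [Algebra R A] [CommRing B] [Algebra R B]
    {a : σ → A} {b : σ → B} (hA : Rep S A a) (hB : Rep S B b) : Nonempty (A ≃ₐ[R] B) := by
  obtain ⟨f, hf⟩ := hA.ex B b hB.mem
  obtain ⟨g, hg⟩ := hB.ex A a hA.mem
  refine ⟨AlgEquiv.ofAlgHom f g ?_ ?_⟩
  · apply hB.uniq
    intro s
    rw [AlgHom.comp_apply, hg, hf, AlgHom.id_apply]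
  · apply hA.uniq
    intro s
    rw [AlgHom.comp_apply, hf, hg, AlgHom.id_apply]

/-- `F` and `G` give mutually inverse natural bijections of the points. -/
structure Bij (S : Pts R σ) (T : Pts R τ)
    (F : ∀ (C : Type) [CommRing C] [Algebra R C], (σ → C) → (τ → C))
    (G : ∀ (C : Type) [CommRing C] [Algebra R C], (τ → C) → (σ → C)) : Prop where
  natF : ∀ {C D : Type} [CommRing C] [Algebra R C] [CommRing D] [Algebra R D] (f : C →ₐ[R] D)
    (p : σ → C), S.pts C p → ∀ t, f (F C p t) = F D (fun s => f (p s)) t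
  natG : ∀ {C D : Type} [CommRing C] [Algebra R C] [CommRing D] [Algebra R D] (f : C →ₐ[R] D)
    (q : τ → C), T.pts C q → ∀ s, f (G C q s) = G D (fun t => f (q t)) s
  memF : ∀ (C : Type) [CommRing C] [Algebra R C] (p : σ → C), S.pts C p → T.pts C (F C p)
  memG : ∀ (C : Type) [CommRing C] [Algebra R C] (q : τ → C), T.pts C q → S.pts C (G C q)
  GF : ∀ (C : Type) [CommRing C] [Algebra R C] (p : σ → C), S.pts C p → G C (F C p) = p
  FG : ∀ (C : Type) [CommRing C] [Algebra R C] (q : τ → C), T.pts C q → F C (G C q) = q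

section

variable {S : Pts R σ} {T : Pts R τ}
  {F : ∀ (C : Type) [CommRing C] [Algebra R C], (σ → C) → (τ → C)}
  {G : ∀ (C : Type) [CommRing C] [Algebra R C], (τ → C) → (σ → C)}

lemma Rep.trans {A : Type} [CommRing A] [Algebra R A] {a : σ → A} (hA : Rep S A a)
    (h : Bij S T F G) : Rep T A (F A a) where
  mem := h.memF A a hA.mem
  ex C _ _ q hq := by
    obtain ⟨f, hf⟩ := hA.ex C (G C q) (h.memG C q hq)
    refine ⟨f, fun t => ?_⟩
    rw [h.natF f a hA.mem t]
    have h1 : (fun s => f (a s)) = G C q := funext hf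
    rw [h1, h.FG C q hq]
  uniq C _ _ f g hfg := by
    apply hA.uniq
    intro s
    have h1 : a = G A (F A a) := (h.GF A a hA.mem).symm
    have h2 : ∀ k : A →ₐ[R] C, k (a s) = G C (fun t => k (F A a t)) s := by
      intro k
      rw [← h.natG k (F A a) (h.memF A a hA.mem) s, ← h1]
    rw [h2 f, h2 g, funext hfg]

end

/-- The property `P` is true for the affine scheme with the points `S`. -/
def Hol (P : Sch R → Prop) (S : Pts R σ) : Prop :=
  ∃ (A : Type) (_ : CommRing A) (_ : Algebra R A) (_ : Algebra.FiniteType R A) (a : σ → A),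
    Rep S A a ∧ P (aff R A)

/-- The points are represented by an algebra of finite type. -/
def Repr (S : Pts R σ) : Prop := Hol (fun _ => True) S

section

variable {S : Pts R σ} {T : Pts R τ}
  {F : ∀ (C : Type) [CommRing C] [Algebra R C], (σ → C) → (τ → C)}
  {G : ∀ (C : Type) [CommRing C] [Algebra R C], (τ → C) → (σ → C)} {sep : Prop} {P : Sch R → Prop}

lemma Hol.repr (h : Hol P S) : Repr S := by
  obtain ⟨A, i1, i2, i3, a, h1, -⟩ := h
  exact ⟨A, i1, i2, i3, a, h1, trivial⟩

lemma Repr.trans (h : Repr S) (hb : Bij S T F G) : Repr T := by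
  obtain ⟨A, i1, i2, i3, a, h1, -⟩ := h
  exact ⟨A, i1, i2, i3, F A a, h1.trans hb, trivial⟩

lemma Hol.trans (h : Hol P S) (hb : Bij S T F G) : Hol P T := by
  obtain ⟨A, i1, i2, i3, a, h1, h2⟩ := h
  exact ⟨A, i1, i2, i3, F A a, h1.trans hb, h2⟩

lemma Hol.of_rep (hP : Clo sep P) (h : Hol P S) {B : Type} [CommRing B] [Algebra R B] {b : σ → B}
    (hB : Rep S B b) : P (aff R B) := by
  obtain ⟨A, i1, i2, i3, a, h1, h2⟩ := h
  obtain ⟨e⟩ := h1.iso hB
  exact clo_alg hP e h2

end

/-- A natural function on the points. -/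
structure Fn (S : Pts R σ) where
  /-- the values -/
  val : ∀ (C : Type) [CommRing C] [Algebra R C], (σ → C) → C
  nat : ∀ {C D : Type} [CommRing C] [Algebra R C] [CommRing D] [Algebra R D] (f : C →ₐ[R] D)
    (p : σ → C), S.pts C p → f (val C p) = val D (fun s => f (p s))

/-- the closed part -/
def Pts.clo (S : Pts R σ) (e : Fn S) : Pts R σ where
  pts C _ _ p := S.pts C p ∧ e.val C p = 0
  map {C D} _ _ _ _ f p h := ⟨S.map f h.1, by rw [← e.nat f p h.1, h.2, map_zero]⟩

/-- the open part -/
def Pts.opn (S : Pts R σ) (e : Fn S) : Pts R σ where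
  pts C _ _ p := S.pts C p ∧ IsUnit (e.val C p)
  map {C D} _ _ _ _ f p h := ⟨S.map f h.1, by rw [← e.nat f p h.1]; exact h.2.map f⟩

section

variable {S : Pts R σ} (e : Fn S) {A : Type} [CommRing A] [Algebra R A] {a : σ → A}

lemma Rep.clo (h : Rep S A a) : Rep (S.clo e) (A ⧸ Ideal.span {e.val A a})
    (fun s => Ideal.Quotient.mkₐ R (Ideal.span {e.val A a}) (a s)) where
  mem := ⟨S.map _ h.mem, by
    rw [← e.nat (Ideal.Quotient.mkₐ R (Ideal.span {e.val A a})) a h.mem]
    exact Ideal.Quotient.eq_zero_iff_mem.mpr (Ideal.mem_span_singleton_self _)⟩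
  ex C _ _ p hp := by
    obtain ⟨f, hf⟩ := h.ex C p hp.1
    refine ⟨Ideal.Quotient.liftₐ _ f ?_, hf⟩
    intro x hx
    have h1 : Ideal.span {e.val A a} ≤ RingHom.ker f := by
      rw [Ideal.span_le, Set.singleton_subset_iff]
      change f (e.val A a) = 0
      rw [e.nat f a h.mem, funext hf]
      exact hp.2
    exact h1 hx
  uniq C _ _ f g hfg := by
    apply Ideal.Quotient.algHom_ext
    apply h.uniq
    intro s
    exact hfg s

lemma Rep.opn (h : Rep S A a) : Rep (S.opn e) (Localization.Away (e.val A a))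
    (fun s => IsScalarTower.toAlgHom R A (Localization.Away (e.val A a)) (a s)) where
  mem := ⟨S.map _ h.mem, by
    rw [← e.nat (IsScalarTower.toAlgHom R A (Localization.Away (e.val A a))) a h.mem]
    exact IsLocalization.map_units (M := Submonoid.powers (e.val A a))
      (Localization.Away (e.val A a)) ⟨_, Submonoid.mem_powers _⟩⟩
  ex C _ _ p hp := by
    obtain ⟨f, hf⟩ := h.ex C p hp.1
    have hu : IsUnit (f (e.val A a)) := by
      rw [e.nat f a h.mem, funext hf]
      exact hp.2
    refine ⟨IsLocalization.liftAlgHom (M := Submonoid.powers (e.val A a)) (f := f) ?_, fun s => ?_⟩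
    · rintro ⟨_, k, rfl⟩
      change IsUnit (f (e.val A a ^ k))
      rw [map_pow]
      exact hu.pow k
    · change IsLocalization.liftAlgHom _ (algebraMap A _ (a s)) = p s
      rw [IsLocalization.liftAlgHom_apply, IsLocalization.lift_eq]
      exact hf s
  uniq C _ _ f g hfg := by
    apply IsLocalization.algHom_ext (Submonoid.powers (e.val A a))
    apply h.uniq
    intro s
    exact hfg s

lemma Repr.clo (h : Repr S) : Repr (S.clo e) := by
  obtain ⟨A, i1, i2, i3, a, h1, -⟩ := h
  exact ⟨_, inferInstance, inferInstance, inferInstance, _, h1.clo e, trivial⟩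

lemma Repr.opn (h : Repr S) : Repr (S.opn e) := by
  obtain ⟨A, i1, i2, i3, a, h1, -⟩ := h
  exact ⟨_, inferInstance, inferInstance,
    Algebra.FiniteType.trans (S := A) inferInstance inferInstance, _, h1.opn e, trivial⟩

variable {sep : Prop} {P : Sch R → Prop} (hP : Clo sep P)

include hP

lemma Hol.opn (h : Hol P S) (hc : Hol P (S.clo e)) : Hol P (S.opn e) := by
  obtain ⟨A, i1, i2, i3, a, h1, h2⟩ := h
  have h3 : P (aff R (A ⧸ Ideal.span {e.val A a})) := hc.of_rep hP (h1.clo e)
  have h4 : Algebra.FiniteType R (Localization.Away (e.val A a)) :=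
    Algebra.FiniteType.trans (S := A) inferInstance inferInstance
  exact ⟨_, inferInstance, inferInstance, h4, _, h1.opn e,
    hP.opened _ _ (ft_aff sep) (triple_away (e.val A a)) h3 h2⟩

end

/-- the product with the multiplicative group -/
def Pts.gm (S : Pts R σ) : Pts R (Option σ) where
  pts C _ _ p := S.pts C (fun s => p (some s)) ∧ IsUnit (p none)
  map f _ h := ⟨S.map f h.1, h.2.map f⟩

section

variable {S : Pts R σ} {A : Type} [CommRing A] [Algebra R A] {a : σ → A}

lemma Rep.gm (h : Rep S A a) : Rep S.gm (LaurentPolynomial A)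
    (fun s => s.elim (LaurentPolynomial.T 1) fun s => LaurentPolynomial.C (a s)) where
  mem := ⟨S.map (IsScalarTower.toAlgHom R A (LaurentPolynomial A)) h.mem,
    LaurentPolynomial.isUnit_T 1⟩
  ex C _ _ p hp := by
    obtain ⟨f, hf⟩ := h.ex C _ hp.1
    obtain ⟨u, hu⟩ := hp.2
    let _ : Algebra A C := f.toRingHom.toAlgebra
    have hs : IsScalarTower R A C := IsScalarTower.of_algebraMap_eq fun r => (f.commutes r).symm
    refine ⟨(AddMonoidAlgebra.lift A C ℤ ((Units.coeHom C).comp (zpowersHom Cˣ u))).restrictScalars R,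
      ?_⟩
    rintro (_ | s)
    · change AddMonoidAlgebra.lift A C ℤ _ (LaurentPolynomial.T 1) = p none
      rw [LaurentPolynomial.T]
      rw [AddMonoidAlgebra.lift_single]
      simp [hu]
    · change AddMonoidAlgebra.lift A C ℤ _ (LaurentPolynomial.C (a s)) = p (some s)
      have h1 : (LaurentPolynomial.C (a s) : LaurentPolynomial A) =
          algebraMap A (LaurentPolynomial A) (a s) := rfl
      rw [h1, AlgHom.commutes]
      exact hf s
  uniq C _ _ f g hfg := by
    have h1 : f.comp (IsScalarTower.toAlgHom R A (LaurentPolynomial A)) =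
        g.comp (IsScalarTower.toAlgHom R A (LaurentPolynomial A)) := by
      apply h.uniq
      intro s
      exact hfg (some s)
    have h2 : f (LaurentPolynomial.T 1) = g (LaurentPolynomial.T 1) := hfg none
    apply AlgHom.ext
    intro x
    have h3 : (f : LaurentPolynomial A →+* C) = g := by
      apply laurent_hom_ext
      · intro y
        exact congrArg (fun k : A →ₐ[R] C => k y) h1
      · exact h2
    exact congrArg (fun k : LaurentPolynomial A →+* C => k x) h3

variable {sep : Prop} {P : Sch R → Prop} (hP : Clo sep P)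

include hP

lemma Hol.of_gm (hS : Repr S) (h : Hol P S.gm) : Hol P S := by
  obtain ⟨A, i1, i2, i3, a, h1, -⟩ := hS
  exact ⟨A, i1, i2, i3, a, h1, hP.torus A (h.of_rep hP h1.gm)⟩

end

end Pool.Agent.H81.RZ
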