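import Pool.Agent.H81.RZ.Inv3

/-!
# Invertible matrices with prescribed zeros decide every property closed under closed-open
decompositions
-/

set_option autoImplicit false
set_option linter.unusedSectionVars false

open CategoryTheory AlgebraicGeometry MvPolynomial Pool.Agent.Y116.UV Pool.Agent.Z125.UN
  Pool.Agent.Q193.LT

namespace Pool.Agent.H81.RZ

variable {R : Type} [CommRing R] {sep : Prop} {P : Sch R → Prop}

/-- the determinant -/
def detFn {n : ℕ} (S : Pts R (Fin n × Fin n)) : Fn S where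
  val _ _ _ p := (Matrix.of fun x y => p (x, y)).det
  nat {C D} _ _ _ _ f p _ := RingHom.map_det (f : C →+* D) (Matrix.of fun x y => p (x, y))

lemma zer_Z {n : ℕ} (Z : Finset (Fin n × Fin n)) (C : Type) [CommRing C] [Algebra R C]
    (p : Fin n × Fin n → C) :
    (zer {g | ∃ e ∈ Z, g = (X e : MvPolynomial (Fin n × Fin n) R)}).pts C p ↔
      ∀ e ∈ (Z : Set (Fin n × Fin n)), p e = 0 := by
  constructor
  · intro h e he
    have h1 := h _ ⟨e, he, rfl⟩
    rwa [aeval_X] at h1
  · rintro h _ ⟨e, he, rfl⟩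
    rw [aeval_X]
    exact h e he

lemma hol_gz_n {n : ℕ} (Z : Finset (Fin n × Fin n)) (h : P (aff R (Gl R Z))) :
    Hol P (gz R (Z : Set (Fin n × Fin n)) ∅) := by
  have h1 := (rep_zer (R := R) {g | ∃ e ∈ Z, g = (X e : MvPolynomial (Fin n × Fin n) R)}).opn
    (detFn _)
  refine Hol.congr (S := (zer {g | ∃ e ∈ Z, g = (X e : MvPolynomial (Fin n × Fin n) R)}).opn
    (detFn _)) (fun C _ _ p => ?_) ⟨Gl R Z, inferInstance, inferInstance,
      Algebra.FiniteType.trans (S := Zm R Z) inferInstance inferInstance, _, h1, h⟩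
  constructor
  · rintro ⟨h2, h3⟩
    exact ⟨(zer_Z Z C p).mp h2, fun e he => absurd he (Set.notMem_empty e), h3⟩
  · rintro ⟨h2, -, h3⟩
    exact ⟨(zer_Z Z C p).mpr h2, h3⟩

lemma bij_gz {K : Type} [Fintype K] [DecidableEq K] {n : ℕ} (e : K ≃ Fin n) (Z : Set (K × K)) :
    Bij (gz R {x : Fin n × Fin n | (e.symm x.1, e.symm x.2) ∈ Z} ∅) (gz R Z ∅)
      (fun _ _ _ p x => p (e x.1, e x.2)) (fun _ _ _ p x => p (e.symm x.1, e.symm x.2)) where
  natF _ _ _ _ := rfl
  natG _ _ _ _ := rfl
  memF C _ _ p h := by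
    obtain ⟨h1, -, h2⟩ := h
    refine ⟨fun x hx => ?_, fun x hx => absurd hx (Set.notMem_empty x), ?_⟩
    · apply h1
      change (e.symm (e x.1), e.symm (e x.2)) ∈ Z
      rwa [Equiv.symm_apply_apply, Equiv.symm_apply_apply]
    · have h3 : (Matrix.of fun x y => p (e x, e y) : Matrix K K C) =
          (Matrix.of fun x y => p (x, y)).submatrix e e := rfl
      change IsUnit (Matrix.of fun x y => p (e x, e y) : Matrix K K C).det
      rw [h3, Matrix.det_submatrix_equiv_self]
      exact h2
  memG C _ _ p h := by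
    obtain ⟨h1, -, h2⟩ := h
    refine ⟨fun x hx => h1 _ hx, fun x hx => absurd hx (Set.notMem_empty x), ?_⟩
    have h3 : (Matrix.of fun x y => p (e.symm x, e.symm y) : Matrix (Fin n) (Fin n) C) =
        (Matrix.of fun x y => p (x, y)).submatrix e.symm e.symm := rfl
    change IsUnit (Matrix.of fun x y => p (e.symm x, e.symm y) : Matrix (Fin n) (Fin n) C).det
    rw [h3, Matrix.det_submatrix_equiv_self]
    exact h2
  GF C _ _ p _ := by
    funext x
    change p (e (e.symm x.1), e (e.symm x.2)) = p x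
    rw [Equiv.apply_symm_apply, Equiv.apply_symm_apply]
  FG C _ _ p _ := by
    funext x
    change p (e.symm (e x.1), e.symm (e x.2)) = p x
    rw [Equiv.symm_apply_apply, Equiv.symm_apply_apply]

lemma hol_gz_fin (hP : Uni sep P) (h : ∀ (n : ℕ) (Z : Finset (Fin n × Fin n)), P (aff R (Gl R Z)))
    (K : Type) [Fintype K] [DecidableEq K] (Z : Set (K × K)) : Hol P (gz R Z ∅) := by
  classical
  let e := Fintype.equivFin K
  refine Hol.trans ?_ (bij_gz e Z)
  let Z' : Finset (Fin (Fintype.card K) × Fin (Fintype.card K)) :=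
    Finset.univ.filter fun x => (e.symm x.1, e.symm x.2) ∈ Z
  have h1 : (Z' : Set (Fin (Fintype.card K) × Fin (Fintype.card K))) =
      {x | (e.symm x.1, e.symm x.2) ∈ Z} := by
    ext x
    simp [Z']
  rw [← h1]
  exact hol_gz_n Z' (h _ Z')

lemma hol_gz_all (hP : Uni sep P)
    (h : ∀ (K : Type) [Fintype K] [DecidableEq K] (Z : Set (K × K)), Hol P (gz R Z ∅))
    (K : Type) [Fintype K] [DecidableEq K] (Z U : Set (K × K)) : Hol P (gz R Z U) := by
  classical
  have hU : U = ((Finset.univ.filter fun e => e ∈ U : Finset (K × K)) : Set (K × K)) := by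
    ext x
    simp
  rw [hU]
  exact hol_gz hP (fun Z => h K Z) _ Z

section

variable {ι κ δ : Type} [Fintype δ] [DecidableEq δ] [Fintype ι] [DecidableEq ι] [Fintype κ]
  [DecidableEq κ] {f : δ → ι} {g : δ → κ} (hf : Function.Injective f) (hg : Function.Injective g)
  {k : ℕ} (hk : Fintype.card δ = k)

include hf hg hk

/-- matrices of small rank with an invertible diagonal block -/
lemma hol_block (hP : Bnd sep P)
    (h : ∀ (K : Type) [Fintype K] [DecidableEq K] (Z : Set (K × K)), Hol P (gz R Z ∅)) {Z : Set (ι × κ)}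
    (hZ : ∀ a b, a ≠ b → (f a, g b) ∈ Z) : Hol P (MS R k Z (dg f g) ∅) := by
  classical
  have h1 := hol_tc (R := R) hP (hol_gz_all hP.toUni h) (Finset.univ : Finset κ) ι f hf
    (zl f g Z)
  rw [Finset.coe_univ] at h1
  have h2 : Finite {y : ι // ∀ a, y ≠ f a} := inferInstance
  refine hol_of_tor hP.toUni {y : ι // ∀ a, y ≠ f a} _ ?_ (h1.trans (bij_la hf hg hk hZ))
  have h3 : dg f g = ((Finset.univ.image fun a => (f a, g a) : Finset (ι × κ)) :
      Set (ι × κ)) := by
    ext e
    rw [Finset.mem_coe, Finset.mem_image]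
    constructor
    · rintro ⟨a, rfl⟩
      exact ⟨a, Finset.mem_univ a, rfl⟩
    · rintro ⟨a, -, rfl⟩
      exact ⟨a, rfl⟩
  rw [h3]
  exact repr_ms1 k Z _

/-- the same with more invertible entries -/
lemma hol_block_units (hP : Bnd sep P)
    (h : ∀ (K : Type) [Fintype K] [DecidableEq K] (Z : Set (K × K)), Hol P (gz R Z ∅)) (U : Finset (ι × κ))
    {Z : Set (ι × κ)} (hZ : ∀ a b, a ≠ b → (f a, g b) ∈ Z) :
    Hol P (MS R k Z (dg f g ∪ (U : Set (ι × κ))) ∅) := by
  classical
  induction U using Finset.induction_on generalizing Z with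
  | empty =>
    rw [Finset.coe_empty, Set.union_empty]
    exact hol_block hf hg hk hP h hZ
  | insert e U _ ih =>
    refine Hol.congr (fun C _ _ p => ?_) ((ih hZ).opn (ent e) (clo_of_uni hP.toUni)
      (Hol.congr (fun C _ _ p => ?_) (ih (Z := insert e Z) fun a b hab =>
        Or.inr (hZ a b hab))))
    · rw [Finset.coe_insert]
      constructor
      · rintro ⟨⟨h1, h2, h3, h4⟩, h5⟩
        refine ⟨h1, h2, ?_, h4⟩
        rintro e' (he | rfl | he)
        · exact h3 e' (Or.inl he)
        · exact h5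
        · exact h3 e' (Or.inr he)
      · rintro ⟨h1, h2, h3, h4⟩
        refine ⟨⟨h1, h2, ?_, h4⟩, h3 e (Or.inr (Or.inl rfl))⟩
        rintro e' (he | he)
        · exact h3 e' (Or.inl he)
        · exact h3 e' (Or.inr (Or.inr he))
    · constructor
      · rintro ⟨h1, h2, h3, h4⟩
        exact ⟨⟨h1, fun e' he => h2 e' (Or.inr he), h3, h4⟩, h2 e (Or.inl rfl)⟩
      · rintro ⟨⟨h1, h2, h3, h4⟩, h5⟩
        refine ⟨h1, ?_, h3, h4⟩
        rintro e' (rfl | he)
        · exact h5
        · exact h2 e' he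

end

/-- The invertible matrices with prescribed zeros decide the hypersurfaces of the tripartite
hypergraphs. -/
theorem trip_of_gz (hP : Bnd sep P)
    (h : ∀ (K : Type) [Fintype K] [DecidableEq K] (Z : Set (K × K)), Hol P (gz R Z ∅))
    {a b c : ℕ} (H : Finset (Fin a × Fin b × Fin c)) : P (tripS R H) := by
  classical
  refine trip_of_slp (clo_of_uni hP.toUni) (fun V E _ _ _ _ Y => ?_) H
  refine hol_slp' (s := 0) (clo_of_uni hP.toUni) Y fun U hU => ?_
  have hf : Function.Injective (Rw.D : Fin 3 ⊕ Fin 0 → Rw V 0) := fun a b h => by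
    injection h
  have hg : Function.Injective (Cl.D : Fin 3 ⊕ Fin 0 → Cl V E 0) := fun a b h => by
    injection h
  have h1 := hol_block_units (R := R) hf hg (k := 3 + 0) (by simp) hP h U
    (Z := {e | zz Y e.1 e.2}) fun a b hab => hab
  have h2 : dg (Rw.D : Fin 3 ⊕ Fin 0 → Rw V 0) (Cl.D : Fin 3 ⊕ Fin 0 → Cl V E 0) ∪
      (U : Set (Rw V 0 × Cl V E 0)) = (U : Set (Rw V 0 × Cl V E 0)) := by
    apply Set.union_eq_self_of_subset_left
    rintro e ⟨a, rfl⟩
    exact Finset.mem_coe.mpr ((hU _).mpr rfl)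
  rw [h2] at h1
  exact h1

/-- affine spaces in disguise -/
lemma p_Zm (hP : Uni sep P) {n : ℕ} (Z : Finset (Fin n × Fin n)) : P (aff R (Zm R Z)) := by
  classical
  have h0 : Hol P (zer (∅ : Set (MvPolynomial {e : Fin n × Fin n // e ∉ Z} R))) := by
    refine ⟨_, inferInstance, inferInstance, inferInstance, _, rep_zer _, ?_⟩
    have h1 : Ideal.span (∅ : Set (MvPolynomial {e : Fin n × Fin n // e ∉ Z} R)) = ⊥ :=
      Ideal.span_empty
    have h2 := iso_alg hP (renameEquiv R (Fintype.equivFin {e : Fin n × Fin n // e ∉ Z}).symm)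
      (hP.space _)
    rw [h1]
    exact iso_alg hP (AlgEquiv.quotientBot R _).symm h2
  have h3 := h0.trans (T := zer {g | ∃ e ∈ Z, g = (X e : MvPolynomial (Fin n × Fin n) R)})
    (F := fun C _ _ p e => if h : e ∉ Z then p ⟨e, h⟩ else 0) (G := fun C _ _ p e => p e.1)
    { natF := fun f p _ e => by
        change f (if h : e ∉ Z then p ⟨e, h⟩ else 0) = if h : e ∉ Z then f (p ⟨e, h⟩) else 0
        by_cases h : e ∉ Z
        · rw [dif_pos h, dif_pos h]
        · rw [dif_neg h, dif_neg h]
          exact map_zero f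
      natG := fun f p _ e => rfl
      memF := fun C _ _ p _ => (zer_Z Z C _).mpr fun e he => dif_neg (not_not.mpr he)
      memG := fun C _ _ p _ g hg => absurd hg (Set.notMem_empty g)
      GF := fun C _ _ p _ => by
        funext e
        exact dif_pos e.2
      FG := fun C _ _ p hp => by
        funext e
        by_cases h : e ∉ Z
        · exact dif_pos h
        · exact (dif_neg h).trans ((zer_Z Z C p).mp hp e (not_not.mp h)).symm }
  exact h3.of_rep (clo_of_uni hP) (rep_zer _)

/-- The singular and the invertible matrices. -/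
lemma gl_iff_sg (hP : Uni sep P) {n : ℕ} (Z : Finset (Fin n × Fin n)) :
    P (aff R (Gl R Z)) ↔ P (aff R (Sg R Z)) := by
  have h4 : Algebra.FiniteType R (Gl R Z) :=
    Algebra.FiniteType.trans (S := Zm R Z) inferInstance inferInstance
  exact ⟨fun h => hP.closed _ _ (ft_aff sep) (triple_away (gen R Z).det) (p_Zm hP Z) h,
    fun h => hP.opened _ _ (ft_aff sep) (triple_away (gen R Z).det) h (p_Zm hP Z)⟩

/-- Every property which is closed under closed-open decompositions, true for affine spaces and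
invariant under the affine bundles of Jouanolou, and which descends along `X × 𝔾_m → X`, is true
for all schemes of finite type as soon as it is true for all schemes of invertible matrices with
prescribed zeros. -/
theorem universal_gl [IsNoetherianRing R] (hR : Frac R) (hP : Bnd sep P)
    (h : ∀ (n : ℕ) (Z : Finset (Fin n × Fin n)), P (aff R (Gl R Z)))
    (X : Sch R) (hX : FT sep X) : P X :=
  universal_frac hR hP.toUni (fun _ _ _ H => trip_of_gz hP (hol_gz_fin hP.toUni h) H) X hX

end Pool.Agent.H81.RZ
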