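import Pool.Agent.H81.RZ.Lin

/-!
# From invertible matrices with prescribed zeros to matrices of small rank
-/

set_option autoImplicit false
set_option linter.unusedSectionVars false

open CategoryTheory AlgebraicGeometry MvPolynomial Pool.Agent.Y116.UV Pool.Agent.Z125.UN

namespace Pool.Agent.H81.RZ

variable {R : Type} [CommRing R]

section fam

variable {σ : Type}

/-- the zeros of a family of functions -/
def cloFam {S : Pts R σ} {ν : Type} (f : ν → Fn S) : Pts R σ where
  pts C _ _ p := S.pts C p ∧ ∀ l, (f l).val C p = 0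
  map g p h := ⟨S.map g h.1, fun l => by rw [← (f l).nat g p h.1, h.2, map_zero]⟩

lemma repr_cloFam {S : Pts R σ} {ν : Type} (f : ν → Fn S) (h : Repr S) : Repr (cloFam f) := by
  obtain ⟨A, i1, i2, i3, a, h, -⟩ := h
  refine ⟨A ⧸ Ideal.span (Set.range fun l => (f l).val A a), inferInstance, inferInstance,
    inferInstance, fun s => Ideal.Quotient.mkₐ R _ (a s), ⟨?_, ?_, ?_⟩, trivial⟩
  · refine ⟨S.map _ h.mem, fun l => ?_⟩
    rw [← (f l).nat (Ideal.Quotient.mkₐ R (Ideal.span (Set.range fun l => (f l).val A a))) a h.mem]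
    exact Ideal.Quotient.eq_zero_iff_mem.mpr (Ideal.subset_span ⟨l, rfl⟩)
  · intro C _ _ p hp
    obtain ⟨g, hg⟩ := h.ex C p hp.1
    refine ⟨Ideal.Quotient.liftₐ _ g ?_, hg⟩
    intro x hx
    have h1 : Ideal.span (Set.range fun l => (f l).val A a) ≤ RingHom.ker g := by
      rw [Ideal.span_le]
      rintro _ ⟨l, rfl⟩
      change g ((f l).val A a) = 0
      rw [(f l).nat g a h.mem, funext hg]
      exact hp.2 l
    exact h1 hx
  · intro C _ _ g g' hg
    apply Ideal.Quotient.algHom_ext
    apply h.uniq
    intro s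
    exact hg s

end fam

section det

variable {K Q : Type} [Fintype K] [DecidableEq K] {C : Type} [CommRing C]

/-- the bordered square matrix -/
def Sq (M : Matrix K K C) (v : K → C) (t : C) (u : K → C) : Matrix (Option K) (Option K) C :=
  Matrix.of fun x y => match x, y with
    | none, none => t
    | none, some y => u y
    | some x, none => v x
    | some x, some y => M x y

lemma sq_blocks (M : Matrix K K C) (v : K → C) (t : C) (u : K → C) :
    (Sq M v t u).det = (Matrix.fromBlocks M (Matrix.of fun x (_ : Unit) => v x)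
      (Matrix.of fun (_ : Unit) y => u y) (Matrix.of fun _ _ => t)).det := by
  rw [← Matrix.det_submatrix_equiv_self (Equiv.optionEquivSumPUnit K).symm (Sq M v t u)]
  congr 1
  ext x y
  rcases x with x | x <;> rcases y with y | y <;> rfl

/-- linearity in the last row -/
lemma det_Sq (M : Matrix K K C) (v : K → C) (t : C) (u : K → C) :
    (Sq M v t u).det = M.det * t + ∑ y, (Sq M v 0 (Pi.single y 1)).det * u y := by
  rw [Matrix.det_eq_sum_mul_adjugate_row _ none, Fintype.sum_option]
  congr 1
  · rw [Matrix.adjugate_apply, mul_comm]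
    congr 1
    have h1 : (Sq M v t u).updateRow none (Pi.single none 1) = Sq M v 1 0 := by
      ext x y
      rcases x with _ | x <;> rcases y with _ | y <;> simp [Sq]
    rw [h1, sq_blocks]
    have h2 : (Matrix.of fun (_ : Unit) y => (0 : K → C) y) = (0 : Matrix Unit K C) := rfl
    rw [h2, Matrix.det_fromBlocks_zero₂₁]
    simp
  · apply Finset.sum_congr rfl
    intro y _
    rw [Matrix.adjugate_apply, mul_comm]
    congr 1
    have h1 : (Sq M v t u).updateRow none (Pi.single (some y) 1) = Sq M v 0 (Pi.single y 1) := by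
      ext x z
      rcases x with _ | x <;> rcases z with _ | z <;> simp [Sq, Pi.single_apply]
    rw [h1]

/-- the solutions of a linear system -/
lemma det_Sq_single (M : Matrix K K C) (hM : IsUnit M.det) (v : K → C) (y : K) :
    (Sq M v 0 (Pi.single y 1)).det = -(M.det * (M⁻¹.mulVec v) y) := by
  have : Invertible M := M.invertibleOfIsUnitDet hM
  rw [sq_blocks, Matrix.det_fromBlocks₁₁, Matrix.invOf_eq_nonsing_inv]
  have h1 : ((Matrix.of fun (_ : Unit) z => (Pi.single y 1 : K → C) z) * M⁻¹ *
      (Matrix.of fun x (_ : Unit) => v x)) default default = (M⁻¹.mulVec v) y := by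
    rw [Matrix.mul_apply]
    have h2 : ∀ z, ((Matrix.of fun (_ : Unit) z => (Pi.single y 1 : K → C) z) * M⁻¹) default z =
        M⁻¹ y z := by
      intro z
      rw [Matrix.mul_apply]
      simp [Pi.single_apply]
    simp only [h2]
    rfl
  have h3 : ((Matrix.of fun (_ : Unit) (_ : Unit) => (0 : C)) -
      (Matrix.of fun (_ : Unit) z => (Pi.single y 1 : K → C) z) * M⁻¹ *
      (Matrix.of fun x (_ : Unit) => v x)).det = -(M⁻¹.mulVec v) y := by
    rw [Matrix.det_unique, Matrix.sub_apply, h1, Matrix.of_apply, zero_sub]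
  rw [h3, mul_neg]

end det

section tc

variable {δ K Q : Type} [Fintype δ] [Fintype K] [DecidableEq K] [DecidableEq Q]

/-- the expected entries -/
noncomputable def ex (d : δ → K) {C : Type} [CommRing C] (p : K × (K ⊕ Q) → C) (v : K → C) (k : K) : C :=
  ∑ a, p (k, .inl (d a)) * Ring.inverse (p (d a, .inl (d a))) * v (d a)

/-- Matrices with the rows `K` and the columns `K` and `Q`, zero at `Z`, with an invertible diagonal
block `d`, such that the columns in `Q₁` are combinations of the columns of the block. -/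
def tc (R : Type) [CommRing R] (d : δ → K) (Z : Set (K × (K ⊕ Q))) (Q₁ : Set Q) :
    Pts R (K × (K ⊕ Q)) where
  pts _ _ _ p := ((∀ e ∈ Z, p e = 0) ∧ (∀ a b, a ≠ b → p (d a, .inl (d b)) = 0) ∧
    (∀ a, IsUnit (p (d a, .inl (d a))))) ∧
    ∀ k, ∀ q ∈ Q₁, p (k, .inr q) = ex d p (fun x => p (x, .inr q)) k
  map {C D} _ _ _ _ f p h := by
    obtain ⟨⟨h1, h2, h3⟩, h4⟩ := h
    refine ⟨⟨fun e he => (congrArg f (h1 e he)).trans (map_zero f),
      fun a b hab => (congrArg f (h2 a b hab)).trans (map_zero f), fun a => (h3 a).map f⟩,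
      fun k q hq => ?_⟩
    refine (congrArg f (h4 k q hq)).trans ?_
    rw [ex, map_sum]
    apply Finset.sum_congr rfl
    intro a _
    rw [map_mul, map_mul]
    congr 2
    exact map_inverse_of_isUnit (f : C →+* D) (h3 a)

/-- the determinant of the square part -/
def md (R : Type) [CommRing R] (d : δ → K) (Z : Set (K × (K ⊕ Q))) (Q₁ : Set Q) :
    Fn (tc R d Z Q₁) where
  val _ _ _ p := (Matrix.of fun x y => p (x, .inl y)).det
  nat {C D} _ _ _ _ f p _ := by
    have h1 := RingHom.map_det (f : C →+* D) (Matrix.of fun x y => p (x, .inl y))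
    exact h1

/-- the determinants bordered with the column `v` -/
def gd (R : Type) [CommRing R] (d : δ → K) (Z : Set (K × (K ⊕ Q))) (Q₁ : Set Q) (v : Q) (y : K) :
    Fn (tc R d Z Q₁) where
  val _ _ _ p := (Sq (Matrix.of fun x y => p (x, .inl y)) (fun x => p (x, .inr v)) 0
    (Pi.single y 1)).det
  nat {C D} _ _ _ _ f p _ := by
    have h1 := RingHom.map_det (f : C →+* D) (Sq (Matrix.of fun x y => p (x, .inl y))
      (fun x => p (x, .inr v)) 0 (Pi.single y 1))
    refine h1.trans ?_
    congr 1
    ext x z
    rcases x with _ | x <;> rcases z with _ | z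
    · exact map_zero f
    · change f ((Pi.single y 1 : K → C) z) = (Pi.single y 1 : K → D) z
      rw [Pi.single_apply, Pi.single_apply]
      split_ifs
      · exact map_one f
      · exact map_zero f
    · rfl
    · rfl

variable (d : δ → K) (hd : Function.Injective d) (Z : Set (K × (K ⊕ Q))) (Q₁ : Set Q) (v : Q)

include hd

/-- the vanishing of the bordered determinants -/
lemma gd_iff {C : Type} [CommRing C] {p : K × (K ⊕ Q) → C}
    (h2 : ∀ a b, a ≠ b → p (d a, .inl (d b)) = 0) (h3 : ∀ a, IsUnit (p (d a, .inl (d a))))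
    (hm : IsUnit (Matrix.of fun x y => p (x, .inl y) : Matrix K K C).det) :
    (∀ y, (∀ a, y ≠ d a) → (Sq (Matrix.of fun x y => p (x, .inl y)) (fun x => p (x, .inr v)) 0
      (Pi.single y 1)).det = 0) ↔ ∀ k, p (k, .inr v) = ex d p (fun x => p (x, .inr v)) k := by
  let M : Matrix K K C := Matrix.of fun x y => p (x, .inl y)
  let w : K → C := fun x => p (x, .inr v)
  let z : K → C := M⁻¹.mulVec w
  have hz : M.mulVec z = w := by
    change M.mulVec (M⁻¹.mulVec w) = w
    rw [Matrix.mulVec_mulVec, Matrix.mul_nonsing_inv _ hm, Matrix.one_mulVec]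
  have hinj : ∀ z' : K → C, M.mulVec z' = w → z' = z := by
    intro z' h
    change z' = M⁻¹.mulVec w
    rw [← h, Matrix.mulVec_mulVec, Matrix.nonsing_inv_mul _ hm, Matrix.one_mulVec]
  have hs : ∀ z' : K → C, (∀ y, (∀ a, y ≠ d a) → z' y = 0) → ∀ k, M.mulVec z' k =
      ∑ a, p (k, .inl (d a)) * z' (d a) := by
    intro z' h k
    refine (Fintype.sum_of_injective d hd (fun a => p (k, .inl (d a)) * z' (d a))
      (fun y => p (k, .inl y) * z' y) ?_ fun a => rfl).symm
    intro y hy
    rw [h y fun a ha => hy ⟨a, ha.symm⟩, mul_zero]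
  constructor
  · intro h k
    have h4 : ∀ y, (∀ a, y ≠ d a) → z y = 0 := by
      intro y hy
      have h5 := h y hy
      rw [det_Sq_single _ hm, neg_eq_zero] at h5
      exact (hm.mul_right_eq_zero).mp h5
    have h5 := hs z h4
    rw [hz] at h5
    have h6 : ∀ a, z (d a) = Ring.inverse (p (d a, .inl (d a))) * w (d a) := by
      classical
      intro a
      have h7 := h5 (d a)
      rw [Finset.sum_eq_single a (fun b _ hb => by rw [h2 a b (Ne.symm hb), zero_mul])
        (fun h => absurd (Finset.mem_univ a) h)] at h7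
      rw [h7, ← mul_assoc, Ring.inverse_mul_cancel _ (h3 a), one_mul]
    refine (h5 k).trans ?_
    apply Finset.sum_congr rfl
    intro a _
    rw [h6 a, ← mul_assoc]
  · intro h y hy
    rw [det_Sq_single _ hm, neg_eq_zero]
    have h4 : (fun x => if h : ∃ a, x = d a then Ring.inverse (p (x, .inl x)) * w x else 0) = z := by
      apply hinj
      funext k
      rw [hs]
      · refine Eq.trans ?_ (h k).symm
        apply Finset.sum_congr rfl
        intro a _
        rw [dif_pos ⟨a, rfl⟩, ← mul_assoc]
      · intro y hy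
        rw [dif_neg]
        rintro ⟨a, ha⟩
        exact hy a ha
    have h5 : z y = 0 := by
      rw [← h4]
      change (if h : ∃ a, y = d a then Ring.inverse (p (y, Sum.inl y)) * w y else 0) = 0
      rw [dif_neg]
      rintro ⟨a, ha⟩
      exact hy a ha
    have h6 : M⁻¹.mulVec w y = 0 := h5
    change M.det * M⁻¹.mulVec w y = 0
    rw [h6, mul_zero]

end tc

section ext

variable {δ K Q : Type} [Fintype δ] [Fintype K] [DecidableEq K] [DecidableEq Q]

/-- the larger matrix: the column `v` is added to the square part, and one row is added -/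
def up (v : Q) {C : Type} [CommRing C] (p : K × (K ⊕ Q) → C) (t : C) (u : K → C) :
    Option K × (Option K ⊕ Q) → C
  | (none, .inl none) => t
  | (none, .inl (some y)) => u y
  | (none, .inr _) => 0
  | (some x, .inl none) => p (x, .inr v)
  | (some x, .inl (some y)) => p (x, .inl y)
  | (some x, .inr q) => if q = v then 0 else p (x, .inr q)

/-- the smaller matrix -/
def dn (v : Q) {C : Type} (W : Option K × (Option K ⊕ Q) → C) : K × (K ⊕ Q) → C
  | (x, .inl y) => W (some x, .inl (some y))
  | (x, .inr q) => if q = v then W (some x, .inl none) else W (some x, .inr q)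

/-- the zeros of the larger matrix -/
def zup (d : δ → K) (Z : Set (K × (K ⊕ Q))) (v : Q) (b : Bool) :
    Option K → Option K ⊕ Q → Prop
  | none, .inl none => b = false
  | none, .inl (some y) => ∃ a, y = d a
  | none, .inr _ => True
  | some x, .inl none => (x, .inr v) ∈ Z
  | some x, .inl (some y) => (x, .inl y) ∈ Z
  | some x, .inr q => q = v ∨ (x, .inr q) ∈ Z

omit [Fintype K] in
lemma dn_up (v : Q) {C : Type} [CommRing C] (p : K × (K ⊕ Q) → C) (t : C) (u : K → C) :
    dn v (up v p t u) = p := by
  funext ⟨x, y⟩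
  rcases y with y | q
  · rfl
  · change (if q = v then p (x, .inr v) else if q = v then 0 else p (x, .inr q)) = _
    split_ifs with h
    · rw [h]
    · rfl

/-- the new matrix satisfies the conditions -/
lemma up_mem {d : δ → K} {Z : Set (K × (K ⊕ Q))} {Q₁ : Set Q} {v : Q} (hv : v ∉ Q₁)
    {C : Type} [CommRing C] [Algebra R C] {p : K × (K ⊕ Q) → C} (hp : (tc R d Z Q₁).pts C p) (t : C)
    {u : K → C} (hu : ∀ a, u (d a) = 0) (b : Bool) (hb : b = false → t = 0) :
    (tc R (fun a => some (d a)) {e | zup d Z v b e.1 e.2} Q₁).pts C (up v p t u) := by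
  obtain ⟨⟨h1, h2, h3⟩, h4⟩ := hp
  refine ⟨⟨?_, fun a b hab => h2 a b hab, fun a => h3 a⟩, fun k q hq => ?_⟩
  · rintro ⟨x, y⟩ he
    rcases x with _ | x <;> rcases y with (_ | y) | q
    · exact hb he
    · obtain ⟨a, rfl⟩ := (he : ∃ a, y = d a)
      exact hu a
    · rfl
    · exact h1 _ he
    · exact h1 _ he
    · change (if q = v then 0 else p (x, .inr q)) = 0
      rcases he with he | he
      · rw [if_pos he]
      · split_ifs
        · rfl
        · exact h1 _ he
  · have hqv : q ≠ v := by
      rintro rfl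
      exact hv hq
    rcases k with _ | k
    · change 0 = ∑ a, u (d a) * _ * _
      symm
      apply Finset.sum_eq_zero
      intro a _
      rw [hu a, zero_mul, zero_mul]
    · change (if q = v then 0 else p (k, .inr q)) = _
      rw [if_neg hqv, h4 k q hq]
      apply Finset.sum_congr rfl
      intro a _
      change p (k, .inl (d a)) * Ring.inverse (p (d a, .inl (d a))) * p (d a, .inr q) =
        p (k, .inl (d a)) * Ring.inverse (p (d a, .inl (d a))) *
          (if q = v then 0 else p (d a, .inr q))
      rw [if_neg hqv]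

/-- the old matrix satisfies the conditions -/
lemma dn_mem {d : δ → K} {Z : Set (K × (K ⊕ Q))} {Q₁ : Set Q} {v : Q} (hv : v ∉ Q₁)
    {C : Type} [CommRing C] [Algebra R C] {b : Bool} {W : Option K × (Option K ⊕ Q) → C}
    (hW : (tc R (fun a => some (d a)) {e | zup d Z v b e.1 e.2} Q₁).pts C W) :
    (tc R d Z Q₁).pts C (dn v W) := by
  obtain ⟨⟨h1, h2, h3⟩, h4⟩ := hW
  refine ⟨⟨?_, fun a b hab => h2 a b hab, fun a => h3 a⟩, fun k q hq => ?_⟩
  · rintro ⟨x, y | q⟩ he
    · exact h1 (some x, .inl (some y)) he
    · change (if q = v then W (some x, .inl none) else W (some x, .inr q)) = 0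
      split_ifs with h
      · subst h
        exact h1 (some x, .inl none) he
      · exact h1 (some x, .inr q) (Or.inr he)
  · have hqv : q ≠ v := by
      rintro rfl
      exact hv hq
    change (if q = v then W (some k, .inl none) else W (some k, .inr q)) = _
    rw [if_neg hqv, h4 (some k) q hq]
    apply Finset.sum_congr rfl
    intro a _
    change _ = W (some k, .inl (some (d a))) * Ring.inverse (W (some (d a), .inl (some (d a)))) *
      (if q = v then W (some (d a), .inl none) else W (some (d a), .inr q))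
    rw [if_neg hqv]

/-- a matrix with the right zeros is obtained from the smaller one -/
lemma up_dn {d : δ → K} {Z : Set (K × (K ⊕ Q))} {Q₁ : Set Q} {v : Q}
    {C : Type} [CommRing C] [Algebra R C] {b : Bool} {W : Option K × (Option K ⊕ Q) → C}
    (hW : (tc R (fun a => some (d a)) {e | zup d Z v b e.1 e.2} Q₁).pts C W) :
    up v (dn v W) (W (none, .inl none)) (fun y => W (none, .inl (some y))) = W := by
  obtain ⟨⟨h1, -, -⟩, -⟩ := hW
  funext ⟨x, y⟩
  rcases x with _ | x <;> rcases y with (_ | y) | q
  · rfl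
  · rfl
  · exact (h1 (none, .inr q) trivial).symm
  · change (if v = v then W (some x, .inl none) else W (some x, .inr v)) = _
    rw [if_pos rfl]
  · rfl
  · change (if q = v then 0 else if q = v then W (some x, .inl none) else W (some x, .inr q)) = _
    split_ifs with h
    · exact (h1 (some x, .inr q) (Or.inl h)).symm
    · rfl

lemma up_det (v : Q) {C : Type} [CommRing C] (p : K × (K ⊕ Q) → C) (t : C) (u : K → C) :
    (Matrix.of fun x y => up v p t u (x, .inl y)).det =
      (Matrix.of fun x y => p (x, .inl y) : Matrix K K C).det * t +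
        ∑ y, (Sq (Matrix.of fun x y => p (x, .inl y)) (fun x => p (x, .inr v)) 0
          (Pi.single y 1)).det * u y := by
  rw [← det_Sq]
  congr 1
  ext x y
  rcases x with _ | x <;> rcases y with _ | y <;> rfl

section step

variable (d : δ → K) (Z : Set (K × (K ⊕ Q))) (Q₁ : Set Q) (v : Q) {n : ℕ}
  (ε : Fin n ≃ {y : K // ∀ a, y ≠ d a})

/-- extension by zero -/
noncomputable def uu {C : Type} [CommRing C] (w : Fin n → C) (y : K) : C :=
  open Classical in if h : ∀ a, y ≠ d a then w (ε.symm ⟨y, h⟩) else 0

lemma uu_d {C : Type} [CommRing C] (w : Fin n → C) (a : δ) : uu d ε w (d a) = 0 :=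
  dif_neg fun h => h a rfl

lemma uu_ε {C : Type} [CommRing C] (w : Fin n → C) (l : Fin n) : uu d ε w (ε l) = w l := by
  rw [uu, dif_pos (ε l).2]
  congr 1
  exact ε.symm_apply_apply l

lemma sum_uu {C : Type} [CommRing C] (w : Fin n → C) (c : K → C) :
    ∑ y, c y * uu d ε w y = ∑ l, c (ε l) * w l := by
  refine (Fintype.sum_of_injective (fun l => (ε l).1) ?_ (fun l => c (ε l) * w l)
    (fun y => c y * uu d ε w y) ?_ ?_).symm
  · intro l l' h
    exact ε.injective (Subtype.ext h)
  · intro y hy
    rw [uu, dif_neg, mul_zero]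
    intro h
    exact hy ⟨ε.symm ⟨y, h⟩, by simp⟩
  · intro l
    rw [uu_ε]

/-- the bordered determinants of the free columns -/
def gg (R : Type) [CommRing R] (l : Fin n) : Fn (tc R d Z Q₁) := gd R d Z Q₁ v (ε l)

lemma uu_nat {C D : Type} [CommRing C] [Algebra R C] [CommRing D] [Algebra R D] (f : C →ₐ[R] D)
    (w : Fin n → C) (y : K) : f (uu d ε w y) = uu d ε (fun l => f (w l)) y := by
  rw [uu, uu]
  split_ifs
  · rfl
  · exact map_zero f

lemma up_nat {C D : Type} [CommRing C] [Algebra R C] [CommRing D] [Algebra R D] (f : C →ₐ[R] D)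
    (p : K × (K ⊕ Q) → C) (t : C) (u : K → C) (e : Option K × (Option K ⊕ Q)) :
    f (up v p t u e) = up v (fun e => f (p e)) (f t) (fun y => f (u y)) e := by
  obtain ⟨x, y⟩ := e
  rcases x with _ | x <;> rcases y with (_ | y) | q
  · rfl
  · rfl
  · exact map_zero f
  · rfl
  · rfl
  · change f (if q = v then 0 else p (x, .inr q)) = if q = v then 0 else f (p (x, .inr q))
    split_ifs
    · exact map_zero f
    · rfl

lemma uu_of {C : Type} [CommRing C] (u : K → C) (hu : ∀ a, u (d a) = 0) :
    uu d ε (fun l => u (ε l)) = u := by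
  funext y
  rw [uu]
  split_ifs with h
  · rw [Equiv.apply_symm_apply]
  · push Not at h
    obtain ⟨a, rfl⟩ := h
    exact (hu a).symm

lemma sum_res {C : Type} [CommRing C] (u : K → C) (hu : ∀ a, u (d a) = 0) (c : K → C) :
    ∑ y, c y * u y = ∑ l, c (ε l) * u (ε l) := by
  have h := sum_uu d ε (fun l => u (ε l)) c
  rw [uu_of d ε u hu] at h
  exact h

lemma bij_up1 (hv : v ∉ Q₁) :
    Bij ((tc R (fun a => some (d a)) {e | zup d Z v true e.1 e.2} Q₁).opn (md R _ _ _))
      (linUnit (Fin.cons (md R d Z Q₁) (gg d Z Q₁ v ε R) : Fin (n + 1) → Fn (tc R d Z Q₁)))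
      (fun _ _ _ W t => Sum.elim (dn v W) (fun l => Fin.cases (W (none, .inl none))
        (fun l => W (none, .inl (some (ε l).1))) l) t)
      (fun _ _ _ q e => up v (fun e => q (.inl e)) (q (.inr 0))
        (uu d ε fun l => q (.inr l.succ)) e) where
  natF f W _ t := by
    rcases t with ⟨x, y | q⟩ | l
    · rfl
    · change f (if q = v then W (some x, .inl none) else W (some x, .inr q)) =
        if q = v then f (W (some x, .inl none)) else f (W (some x, .inr q))
      split_ifs <;> rfl
    · exact Fin.cases rfl (fun _ => rfl) l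
  natG f q _ e := by
    refine (up_nat v f _ _ _ e).trans ?_
    have h1 : (fun y => f (uu d ε (fun l => q (.inr l.succ)) y)) =
        uu d ε fun l => f (q (.inr l.succ)) := by
      funext y
      exact uu_nat d ε f _ y
    rw [h1]
  memF C _ _ W hW := by
    have h1 := up_dn hW.1
    refine ⟨dn_mem hv hW.1, ?_⟩
    have h2 := up_det v (dn v W) (W (none, .inl none)) fun y => W (none, .inl (some y))
    rw [h1] at h2
    have h3 : IsUnit (Matrix.of fun x y => W (x, .inl y)).det := hW.2
    have h4 : ∀ a, W (none, .inl (some (d a))) = 0 := fun a =>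
      hW.1.1.1 (none, .inl (some (d a))) ⟨a, rfl⟩
    rw [h2, sum_res d ε (fun y => W (none, .inl (some y))) h4] at h3
    rw [lv, Fin.sum_univ_succ]
    exact h3
  memG C _ _ q hq := by
    refine ⟨up_mem hv hq.1 _ (fun a => uu_d d ε _ a) true (by simp), ?_⟩
    have h2 := up_det v (fun e => q (.inl e)) (q (.inr 0)) (uu d ε fun l => q (.inr l.succ))
    rw [sum_uu] at h2
    have h3 := hq.2
    rw [lv, Fin.sum_univ_succ] at h3
    change IsUnit (Matrix.of fun x y => up v (fun e => q (.inl e)) (q (.inr 0))
      (uu d ε fun l => q (.inr l.succ)) (x, .inl y)).det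
    rw [h2]
    exact h3
  GF C _ _ W hW := by
    have h4 : ∀ a, W (none, .inl (some (d a))) = 0 := fun a =>
      hW.1.1.1 (none, .inl (some (d a))) ⟨a, rfl⟩
    change up v (dn v W) (W (none, .inl none)) (uu d ε fun l => W (none, .inl (some (ε l).1))) = W
    rw [uu_of d ε (fun y => W (none, .inl (some y))) h4]
    exact up_dn hW.1
  FG C _ _ q hq := by
    funext t
    rcases t with e | l
    · exact congrFun (dn_up v (fun e => q (.inl e)) (q (.inr 0))
        (uu d ε fun l => q (.inr l.succ))) e
    · refine Fin.cases rfl (fun l => ?_) l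
      exact uu_ε d ε (fun l => q (.inr l.succ)) l

lemma bij_up0 (hv : v ∉ Q₁) :
    Bij ((tc R (fun a => some (d a)) {e | zup d Z v false e.1 e.2} Q₁).opn (md R _ _ _))
      (linUnit (gg d Z Q₁ v ε R))
      (fun _ _ _ W t => Sum.elim (dn v W) (fun l => W (none, .inl (some (ε l).1))) t)
      (fun _ _ _ q e => up v (fun e => q (.inl e)) 0 (uu d ε fun l => q (.inr l)) e) where
  natF f W _ t := by
    rcases t with ⟨x, y | q⟩ | l
    · rfl
    · change f (if q = v then W (some x, .inl none) else W (some x, .inr q)) =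
        if q = v then f (W (some x, .inl none)) else f (W (some x, .inr q))
      split_ifs <;> rfl
    · rfl
  natG f q _ e := by
    refine (up_nat v f _ _ _ e).trans ?_
    have h1 : (fun y => f (uu d ε (fun l => q (.inr l)) y)) =
        uu d ε fun l => f (q (.inr l)) := by
      funext y
      exact uu_nat d ε f _ y
    rw [h1, map_zero]
  memF C _ _ W hW := by
    have h1 := up_dn hW.1
    refine ⟨dn_mem hv hW.1, ?_⟩
    have h2 := up_det v (dn v W) (W (none, .inl none)) fun y => W (none, .inl (some y))
    rw [h1] at h2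
    have h3 : IsUnit (Matrix.of fun x y => W (x, .inl y)).det := hW.2
    have h4 : ∀ a, W (none, .inl (some (d a))) = 0 := fun a =>
      hW.1.1.1 (none, .inl (some (d a))) ⟨a, rfl⟩
    have h5 : W (none, .inl none) = 0 := hW.1.1.1 (none, .inl none) rfl
    rw [h2, h5, mul_zero, zero_add, sum_res d ε (fun y => W (none, .inl (some y))) h4] at h3
    exact h3
  memG C _ _ q hq := by
    refine ⟨up_mem hv hq.1 _ (fun a => uu_d d ε _ a) false (fun _ => rfl), ?_⟩
    have h2 := up_det v (fun e => q (.inl e)) 0 (uu d ε fun l => q (.inr l))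
    rw [sum_uu, mul_zero, zero_add] at h2
    have h3 := hq.2
    change IsUnit (Matrix.of fun x y => up v (fun e => q (.inl e)) 0
      (uu d ε fun l => q (.inr l)) (x, .inl y)).det
    rw [h2]
    exact h3
  GF C _ _ W hW := by
    have h4 : ∀ a, W (none, .inl (some (d a))) = 0 := fun a =>
      hW.1.1.1 (none, .inl (some (d a))) ⟨a, rfl⟩
    have h5 : W (none, .inl none) = 0 := hW.1.1.1 (none, .inl none) rfl
    change up v (dn v W) 0 (uu d ε fun l => W (none, .inl (some (ε l).1))) = W
    rw [uu_of d ε (fun y => W (none, .inl (some y))) h4, ← h5]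
    exact up_dn hW.1
  FG C _ _ q hq := by
    funext t
    rcases t with e | l
    · exact congrFun (dn_up v (fun e => q (.inl e)) 0 (uu d ε fun l => q (.inr l))) e
    · exact uu_ε d ε (fun l => q (.inr l)) l

end step

end ext

end Pool.Agent.H81.RZ
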