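import Pool.Agent.H81.RZ.Inv

/-!
# From invertible matrices with prescribed zeros to matrices of small rank: the induction
-/

set_option autoImplicit false
set_option linter.unusedSectionVars false

open CategoryTheory AlgebraicGeometry MvPolynomial Pool.Agent.Y116.UV Pool.Agent.Z125.UN

namespace Pool.Agent.H81.RZ

variable {R : Type} [CommRing R] {sep : Prop} {P : Sch R → Prop}

section gz

variable {K : Type} [Fintype K] [DecidableEq K]

/-- invertible matrices, zero at `Z`, with invertible entries at `U` -/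
def gz (R : Type) [CommRing R] (Z U : Set (K × K)) : Pts R (K × K) where
  pts _ _ _ p := (∀ e ∈ Z, p e = 0) ∧ (∀ e ∈ U, IsUnit (p e)) ∧
    IsUnit (Matrix.of fun x y => p (x, y)).det
  map {C D} _ _ _ _ f p h := by
    refine ⟨fun e he => (congrArg f (h.1 e he)).trans (map_zero f),
      fun e he => (h.2.1 e he).map f, ?_⟩
    have h1 := h.2.2.map (f : C →+* D)
    rw [RingHom.map_det] at h1
    exact h1

lemma hol_gz (hP : Uni sep P) (h : ∀ Z : Set (K × K), Hol P (gz R Z ∅)) (U : Finset (K × K))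
    (Z : Set (K × K)) : Hol P (gz R Z (U : Set (K × K))) := by
  induction U using Finset.induction_on generalizing Z with
  | empty => rw [Finset.coe_empty]; exact h Z
  | insert e U _ ih =>
    refine Hol.congr (fun C _ _ p => ?_) ((ih Z).opn (ent e) (clo_of_uni hP)
      (Hol.congr (fun C _ _ p => ?_) (ih (insert e Z))))
    · rw [Finset.coe_insert]
      constructor
      · rintro ⟨⟨h2, h3, h4⟩, h5⟩
        refine ⟨h2, ?_, h4⟩
        rintro e' (rfl | he)
        · exact h5
        · exact h3 e' he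
      · rintro ⟨h2, h3, h4⟩
        exact ⟨⟨h2, fun e' he => h3 e' (Or.inr he), h4⟩, h3 e (Or.inl rfl)⟩
    · constructor
      · rintro ⟨h2, h3, h4⟩
        exact ⟨⟨fun e' he => h2 e' (Or.inr he), h3, h4⟩, h2 e (Or.inl rfl)⟩
      · rintro ⟨⟨h2, h3, h4⟩, h5⟩
        refine ⟨?_, h3, h4⟩
        rintro e' (rfl | he)
        · exact h5
        · exact h2 e' he

end gz

section tcs

variable {δ K Q : Type} [Fintype δ] [Fintype K] [DecidableEq K] [DecidableEq Q]

lemma repr_tc [Finite Q] (d : δ → K) (Z : Set (K × (K ⊕ Q))) (Q₁ : Set Q) : Repr (tc R d Z Q₁) := by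
  have h0 : Repr (zer (∅ : Set (MvPolynomial (K × (K ⊕ Q)) R))) :=
    ⟨_, inferInstance, inferInstance, inferInstance, _, rep_zer _, trivial⟩
  let e0 : Fn (zer (∅ : Set (MvPolynomial (K × (K ⊕ Q)) R))) :=
    { val := fun C _ _ p => ∏ a, p (d a, .inl (d a))
      nat := fun f p _ => map_prod f _ _ }
  have h1 := h0.opn e0
  have hu : ∀ {C : Type} [CommRing C] [Algebra R C] {p : K × (K ⊕ Q) → C},
      ((zer (∅ : Set (MvPolynomial (K × (K ⊕ Q)) R))).opn e0).pts C p ↔
        ∀ a, IsUnit (p (d a, .inl (d a))) := by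
    intro C _ _ p
    constructor
    · rintro ⟨-, h⟩ a
      exact isUnit_of_dvd_unit (Finset.dvd_prod_of_mem (fun a => p (d a, .inl (d a)))
        (Finset.mem_univ a)) h
    · intro h
      exact ⟨fun g hg => absurd hg (Set.notMem_empty g), by
        change IsUnit (∏ a, p (d a, .inl (d a)))
        exact Submonoid.prod_mem (IsUnit.submonoid C) fun a _ => h a⟩
  let f : {e // e ∈ Z} ⊕ ({e : δ × δ // e.1 ≠ e.2} ⊕ (K × {q // q ∈ Q₁})) →
      Fn ((zer (∅ : Set (MvPolynomial (K × (K ⊕ Q)) R))).opn e0) := fun l =>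
    match l with
    | .inl e =>
      { val := fun C _ _ p => p e.1
        nat := fun _ _ _ => rfl }
    | .inr (.inl e) =>
      { val := fun C _ _ p => p (d e.1.1, .inl (d e.1.2))
        nat := fun _ _ _ => rfl }
    | .inr (.inr e) =>
      { val := fun C _ _ p => p (e.1, .inr e.2.1) - ex d p (fun x => p (x, .inr e.2.1)) e.1
        nat := fun {C D} _ _ _ _ f p hp => by
          rw [map_sub, ex, map_sum]
          congr 1
          apply Finset.sum_congr rfl
          intro a _
          rw [map_mul, map_mul]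
          congr 2
          exact map_inverse_of_isUnit (f : C →+* D) (hu.mp hp a) }
  refine Hol.congr (fun C _ _ p => ?_) (repr_cloFam f h1)
  constructor
  · rintro ⟨h2, h3⟩
    exact ⟨⟨fun e he => h3 (.inl ⟨e, he⟩), fun a b hab => h3 (.inr (.inl ⟨(a, b), hab⟩)),
      hu.mp h2⟩, fun k q hq => sub_eq_zero.mp (h3 (.inr (.inr (k, ⟨q, hq⟩))))⟩
  · rintro ⟨⟨h2, h3, h4⟩, h5⟩
    refine ⟨hu.mpr h4, ?_⟩
    rintro (e | e | e)
    · exact h2 _ e.2
    · exact h3 _ _ e.2
    · exact sub_eq_zero.mpr (h5 e.1 e.2.1 e.2.2)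

/-- the base of the induction: more free columns -/
lemma hol_base (hP : Bnd sep P) [Fintype Q] (d : δ → K) (Z : Set (K × (K ⊕ Q)))
    (h : ∀ (Z U : Set (K × K)), Hol P (gz R Z U)) :
    Hol P ((tc R d Z (∅ : Set Q)).opn (md R d Z ∅)) := by
  classical
  let Z' : Set (K × K) := {e | (e.1, .inl e.2) ∈ Z ∨ ∃ a b, a ≠ b ∧ e = (d a, d b)}
  let U' : Set (K × K) := {e | ∃ a, e = (d a, d a)}
  let τ : Type := {e : K × Q // (e.1, .inr e.2) ∉ Z}
  refine ((h Z' U').aff hP τ).trans
    (F := fun _ _ _ p e => match e with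
      | (x, .inl y) => p (.inl (x, y))
      | (x, .inr q) => if h : (x, .inr q) ∉ Z then p (.inr ⟨(x, q), h⟩) else 0)
    (G := fun _ _ _ W t => match t with
      | .inl e => W (e.1, .inl e.2)
      | .inr e => W (e.1.1, .inr e.1.2)) ?_
  exact
  { natF := fun f p _ e => by
      rcases e with ⟨x, y | q⟩
      · rfl
      · change f (if h : (x, .inr q) ∉ Z then p (.inr ⟨(x, q), h⟩) else 0) =
          if h : (x, .inr q) ∉ Z then f (p (.inr ⟨(x, q), h⟩)) else 0
        by_cases h : (x, .inr q) ∉ Z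
        · rw [dif_pos h, dif_pos h]
        · rw [dif_neg h, dif_neg h]
          exact map_zero f
    natG := fun f p _ t => by
      rcases t with e | e <;> rfl
    memF := fun C _ _ p hp => by
      obtain ⟨h1, h2, h3⟩ := hp
      refine ⟨⟨⟨?_, fun a b hab => h1 (d a, d b) (Or.inr ⟨a, b, hab, rfl⟩),
        fun a => h2 (d a, d a) ⟨a, rfl⟩⟩, fun k q hq => absurd hq (Set.notMem_empty q)⟩, h3⟩
      rintro ⟨x, y | q⟩ he
      · exact h1 (x, y) (Or.inl he)
      · change (if h : (x, .inr q) ∉ Z then p (.inr ⟨(x, q), h⟩) else 0) = 0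
        rw [dif_neg (not_not.mpr he)]
    memG := fun C _ _ W hW => by
      obtain ⟨⟨⟨h1, h2, h3⟩, -⟩, h4⟩ := hW
      refine ⟨?_, ?_, h4⟩
      · rintro ⟨x, y⟩ (he | ⟨a, b, hab, he⟩)
        · exact h1 _ he
        · have h5 : x = d a := congrArg Prod.fst he
          have h6 : y = d b := congrArg Prod.snd he
          subst h5 h6
          exact h2 a b hab
      · rintro ⟨x, y⟩ ⟨a, he⟩
        have h5 : x = d a := congrArg Prod.fst he
        have h6 : y = d a := congrArg Prod.snd he
        subst h5 h6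
        exact h3 a
    GF := fun C _ _ p _ => by
      funext t
      rcases t with e | ⟨⟨x, q⟩, he⟩
      · rfl
      · change (if h : (x, .inr q) ∉ Z then p (.inr ⟨(x, q), h⟩) else 0) = _
        rw [dif_pos he]
    FG := fun C _ _ W hW => by
      funext ⟨x, y⟩
      rcases y with y | q
      · rfl
      · change (if h : (x, .inr q) ∉ Z then W (x, .inr q) else 0) = W (x, .inr q)
        by_cases h : (x, .inr q) ∉ Z
        · rw [dif_pos h]
        · rw [dif_neg h]
          exact (hW.1.1.1 _ (not_not.mp h)).symm }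

/-- the induction -/
theorem hol_tc (hP : Bnd sep P) [Fintype Q]
    (h : ∀ (K : Type) [Fintype K] [DecidableEq K] (Z U : Set (K × K)), Hol P (gz R Z U))
    (Q₁ : Finset Q) (K : Type) [Fintype K] [DecidableEq K] (d : δ → K) (hd : Function.Injective d)
    (Z : Set (K × (K ⊕ Q))) :
    Hol P ((tc R d Z (Q₁ : Set Q)).opn (md R d Z (Q₁ : Set Q))) := by
  induction Q₁ using Finset.induction_on generalizing K with
  | empty => rw [Finset.coe_empty]; exact hol_base hP d Z fun Z U => h K Z U
  | insert v Q₁ hv ih =>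
    have hv' : v ∉ (Q₁ : Set Q) := fun h => hv (Finset.mem_coe.mp h)
    let ε : Fin (Fintype.card {y : K // ∀ a, y ≠ d a}) ≃ {y : K // ∀ a, y ≠ d a} :=
      (Fintype.equivFin _).symm
    have hd' : Function.Injective fun a => some (d a) := fun a b hab =>
      hd (Option.some.inj hab)
    have h1 := ih K d hd Z
    have h2 := (ih (Option K) (fun a => some (d a)) hd' {e | zup d Z v true e.1 e.2}).trans
      (bij_up1 d Z (Q₁ : Set Q) v ε hv')
    have h3 := (ih (Option K) (fun a => some (d a)) hd' {e | zup d Z v false e.1 e.2}).trans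
      (bij_up0 d Z (Q₁ : Set Q) v ε hv')
    have h4 := hol_key (md R d Z (Q₁ : Set Q)) (gg d Z (Q₁ : Set Q) v ε R) hP
      (repr_tc d Z (Q₁ : Set Q)) h1 h2 h3
    refine Hol.congr (fun C _ _ p => ?_) h4
    rw [Finset.coe_insert]
    constructor
    · rintro ⟨⟨⟨h5, h6⟩, h7⟩, h8⟩
      have h9 := (gd_iff d hd v h5.2.1 h5.2.2 h7).mp fun y hy => by
        have h10 := h8 (ε.symm ⟨y, hy⟩)
        change (Sq _ _ 0 (Pi.single (ε (ε.symm ⟨y, hy⟩)).1 1)).det = 0 at h10
        rw [Equiv.apply_symm_apply] at h10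
        exact h10
      refine ⟨⟨h5, ?_⟩, h7⟩
      rintro k q (rfl | hq)
      · exact h9 k
      · exact h6 k q hq
    · rintro ⟨⟨h5, h6⟩, h7⟩
      refine ⟨⟨⟨h5, fun k q hq => h6 k q (Or.inr hq)⟩, h7⟩, fun l => ?_⟩
      exact (gd_iff d hd v h5.2.1 h5.2.2 h7).mpr (fun k => h6 k v (Or.inl rfl)) _ (ε l).2

end tcs

end Pool.Agent.H81.RZ
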