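import Pool.Agent.H81.RZ.Tor

/-!
# Coordinate sections of determinantal varieties decide every property closed under closed-open
decompositions
-/

set_option autoImplicit false
set_option linter.unusedSectionVars false

open CategoryTheory AlgebraicGeometry MvPolynomial Pool.Agent.Y116.UV Pool.Agent.Q193.LT Pool.Agent.Q282.UK

namespace Pool.Agent.H81.RZ

variable {R : Type} [CommRing R]

section trip

variable {a b c : ℕ} {M : ℕ}

/-- the variables of the system of a hypergraph -/
inductive Vr (a b c M : ℕ) : Type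
  | o
  | one
  | x (i : Fin a)
  | y (j : Fin b)
  | z (l : Fin c)
  | p (h : Fin M)
  | q (h : Fin M)
  | s (h : Fin (M + 1))
  deriving DecidableEq, Fintype

/-- the equations of the system of a hypergraph -/
inductive Eq' (M : ℕ) : Type
  | e1
  | e0
  | ep (h : Fin M)
  | eq (h : Fin M)
  | es (h : Fin M)
  | ef
  deriving DecidableEq, Fintype

/-- the system of a hypergraph -/
def tsys (g : Fin M → Fin a × Fin b × Fin c) : Sys (Vr a b c M) (Eq' M) where
  o := .o
  k
    | .e1 => false
    | .e0 => true
    | .ep _ => false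
    | .eq _ => false
    | .es _ => true
    | .ef => false
  a
    | .e1 => .o
    | .e0 => .one
    | .ep h => .x (g h).1
    | .eq h => .p h
    | .es h => .s h.castSucc
    | .ef => .s (Fin.last M)
  b
    | .e1 => .o
    | .e0 => .o
    | .ep h => .y (g h).2.1
    | .eq h => .z (g h).2.2
    | .es h => .q h
    | .ef => .one
  c
    | .e1 => .one
    | .e0 => .s 0
    | .ep h => .p h
    | .eq h => .q h
    | .es h => .s h.succ
    | .ef => .one

variable {C : Type} [CommRing C]

/-- partial sums -/
def ps (f : Fin M → C) (k : Fin (M + 1)) : C := ∑ h, if h.val < k.val then f h else 0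

lemma ps_zero (f : Fin M → C) : ps f 0 = 0 := by simp [ps]

lemma ps_succ (f : Fin M → C) (h : Fin M) : ps f h.succ = ps f h.castSucc + f h := by
  have h1 : f h = ∑ j, if j = h then f j else 0 := by simp
  rw [ps, ps, h1, ← Finset.sum_add_distrib]
  apply Finset.sum_congr rfl
  intro j _
  simp only [Fin.val_succ, Fin.val_castSucc]
  by_cases h2 : j.val < h.val
  · have h3 : j ≠ h := by
      rintro rfl
      omega
    simp [h2, h3]
    omega
  · by_cases h3 : j = h
    · subst h3
      simp
    · have h4 : j.val ≠ h.val := fun h4 => h3 (Fin.ext h4)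
      have h5 : ¬ j.val < h.val + 1 := by omega
      simp [h2, h3, h5]

lemma ps_last (f : Fin M → C) : ps f (Fin.last M) = ∑ h, f h := by
  apply Finset.sum_congr rfl
  intro j _
  rw [if_pos]
  exact j.2

/-- the values of the variables -/
def tval (g : Fin M → Fin a × Fin b × Fin c) (w : Fin a ⊕ (Fin b ⊕ Fin c) → C) :
    Vr a b c M → C
  | .o => -1
  | .one => 1
  | .x i => w (.inl i)
  | .y j => w (.inr (.inl j))
  | .z l => w (.inr (.inr l))
  | .p h => w (.inl (g h).1) * w (.inr (.inl (g h).2.1))
  | .q h => w (.inl (g h).1) * w (.inr (.inl (g h).2.1)) * w (.inr (.inr (g h).2.2))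
  | .s k => ps (fun h => w (.inl (g h).1) * w (.inr (.inl (g h).2.1)) *
      w (.inr (.inr (g h).2.2))) k

/-- the equation of a hypergraph -/
noncomputable def teq (R : Type) [CommRing R] (H : Finset (Fin a × Fin b × Fin c)) :
    MvPolynomial (Fin a ⊕ (Fin b ⊕ Fin c)) R :=
  ∑ h ∈ H, X (Sum.inl h.1) * X (Sum.inr (Sum.inl h.2.1)) * X (Sum.inr (Sum.inr h.2.2)) - 1

section vals

variable (g : Fin M → Fin a × Fin b × Fin c) {x : Vr a b c M → C} (h0 : x .o = -1)
  (h : ∀ e, (if (tsys g).k e then x ((tsys g).a e) + x ((tsys g).b e) else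
    x ((tsys g).a e) * x ((tsys g).b e)) = x ((tsys g).c e))

include h0 h

lemma v_one : x .one = 1 := by
  have h1 : x .o * x .o = x .one := h .e1
  rw [← h1, h0]
  ring

lemma v_p (i : Fin M) : x (.p i) = x (.x (g i).1) * x (.y (g i).2.1) := (h (.ep i)).symm

lemma v_q (i : Fin M) : x (.q i) = x (.x (g i).1) * x (.y (g i).2.1) * x (.z (g i).2.2) := by
  have h1 : x (.p i) * x (.z (g i).2.2) = x (.q i) := h (.eq i)
  rw [← h1, v_p g h0 h]

lemma v_s (k : Fin (M + 1)) : x (.s k) = ps (fun i => x (.x (g i).1) * x (.y (g i).2.1) *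
    x (.z (g i).2.2)) k := by
  induction k using Fin.induction with
  | zero =>
    have h1 : x .one + x .o = x (.s 0) := h .e0
    rw [← h1, ps_zero, v_one g h0 h, h0]
    ring
  | succ i ih =>
    have h1 : x (.s i.castSucc) + x (.q i) = x (.s i.succ) := h (.es i)
    rw [← h1, ps_succ, ih, v_q g h0 h]

lemma v_last : ∑ i, x (.x (g i).1) * x (.y (g i).2.1) * x (.z (g i).2.2) = 1 := by
  have h1 : x (.s (Fin.last M)) * x .one = x .one := h .ef
  rw [v_one g h0 h, mul_one, v_s g h0 h, ps_last] at h1
  exact h1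

end vals

lemma aeval_teq {R : Type} [CommRing R] [Algebra R C] (H : Finset (Fin a × Fin b × Fin c))
    (w : Fin a ⊕ (Fin b ⊕ Fin c) → C) : aeval w (teq R H) =
      ∑ h ∈ H, w (.inl h.1) * w (.inr (.inl h.2.1)) * w (.inr (.inr h.2.2)) - 1 := by
  simp only [teq, map_sub, map_sum, map_mul, aeval_X, map_one]

lemma bij_trip (H : Finset (Fin a × Fin b × Fin c)) (g : Fin M → Fin a × Fin b × Fin c)
    (hg : ∀ {C : Type} [CommRing C] (f : Fin a × Fin b × Fin c → C), ∑ h ∈ H, f h = ∑ i, f (g i)) :
    Bij (slp R (tsys g)) (zer {teq R H})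
      (fun _ _ _ x => Sum.elim (fun i => x (.x i)) (Sum.elim (fun j => x (.y j)) fun l => x (.z l)))
      (fun _ _ _ w => tval g w) where
  natF f x _ t := by
    rcases t with i | j | l <;> rfl
  natG f w _ t := by
    cases t with
    | o => exact (map_neg f 1).trans (by rw [map_one]; rfl)
    | one => exact map_one f
    | x i => rfl
    | y i => rfl
    | z i => rfl
    | p h => exact map_mul f _ _
    | q h => 
      change f (_ * _ * _) = _
      rw [map_mul, map_mul]
      rfl
    | s k => 
      change f (ps _ k) = ps _ k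
      rw [ps, map_sum]
      apply Finset.sum_congr rfl
      intro j _
      split_ifs
      · rw [map_mul, map_mul]
      · exact map_zero f
  memF C _ _ x h := by
    rintro _ rfl
    rw [aeval_teq, sub_eq_zero]
    refine (hg fun h => Sum.elim (fun i => x (.x i)) (Sum.elim (fun j => x (.y j))
      fun l => x (.z l)) (.inl h.1) * Sum.elim (fun i => x (.x i)) (Sum.elim (fun j => x (.y j))
      fun l => x (.z l)) (.inr (.inl h.2.1)) * Sum.elim (fun i => x (.x i))
      (Sum.elim (fun j => x (.y j)) fun l => x (.z l)) (.inr (.inr h.2.2))).trans ?_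
    exact v_last g h.1 h.2
  memG C _ _ w h := by
    have h1 := h _ rfl
    rw [aeval_teq, sub_eq_zero] at h1
    have h2 : ps (fun h => w (.inl (g h).1) * w (.inr (.inl (g h).2.1)) *
        w (.inr (.inr (g h).2.2))) (Fin.last M) = 1 := by
      rw [ps_last, ← h1]
      exact (hg fun h => w (.inl h.1) * w (.inr (.inl h.2.1)) * w (.inr (.inr h.2.2))).symm
    refine ⟨rfl, fun e => ?_⟩
    cases e with
    | e1 => exact (neg_mul_neg 1 1).trans (one_mul 1)
    | e0 => exact (add_neg_cancel 1).trans (ps_zero _).symm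
    | ep i => rfl
    | eq i => rfl
    | es i => exact (ps_succ _ i).symm
    | ef =>
      change ps _ (Fin.last M) * 1 = 1
      rw [mul_one]
      exact h2
  GF C _ _ x h := by
    funext t
    cases t with
    | o => exact h.1.symm
    | one => exact (v_one g h.1 h.2).symm
    | x i => rfl
    | y i => rfl
    | z i => rfl
    | p i => exact (v_p g h.1 h.2 i).symm
    | q i => exact (v_q g h.1 h.2 i).symm
    | s k => exact (v_s g h.1 h.2 k).symm
  FG C _ _ w h := by
    funext t
    rcases t with i | j | l <;> rfl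

end trip

section reindex

variable {ι κ ι' κ' : Type}

lemma bij_reindex (k : ℕ) (Z : Set (ι × κ)) (e : ι ≃ ι') (f : κ ≃ κ') :
    Bij (MS R k {x : ι' × κ' | (e.symm x.1, f.symm x.2) ∈ Z} ∅ ∅) (MS R k Z ∅ ∅)
      (fun _ _ _ p x => p (e x.1, f x.2)) (fun _ _ _ p x => p (e.symm x.1, f.symm x.2)) where
  natF _ _ _ _ := rfl
  natG _ _ _ _ := rfl
  memF C _ _ p h := by
    obtain ⟨h1, h2, -, -⟩ := h
    refine ⟨fun ρ γ => h1 (fun a => e (ρ a)) fun b => f (γ b), fun x hx => ?_,
      fun x hx => absurd hx (Set.notMem_empty x), fun x hx => absurd hx (Set.notMem_empty x)⟩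
    apply h2
    change (e.symm (e x.1), f.symm (f x.2)) ∈ Z
    rwa [Equiv.symm_apply_apply, Equiv.symm_apply_apply]
  memG C _ _ p h := by
    obtain ⟨h1, h2, -, -⟩ := h
    exact ⟨fun ρ γ => h1 (fun a => e.symm (ρ a)) fun b => f.symm (γ b), fun x hx => h2 _ hx,
      fun x hx => absurd hx (Set.notMem_empty x), fun x hx => absurd hx (Set.notMem_empty x)⟩
  GF C _ _ p _ := by
    funext x
    change p (e (e.symm x.1), f (f.symm x.2)) = p x
    rw [Equiv.apply_symm_apply, Equiv.apply_symm_apply]
  FG C _ _ p _ := by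
    funext x
    change p (e.symm (e x.1), f.symm (f x.2)) = p x
    rw [Equiv.symm_apply_apply, Equiv.symm_apply_apply]

end reindex

section

variable {sep : Prop} {P : Sch R → Prop} (hP : Clo sep P) {s : ℕ}

/-- the family, for arbitrary finite sets of rows and columns -/
lemma hol_fin {k : ℕ} (h : ∀ (m n : ℕ) (Z : Finset (Fin m × Fin n)), P (aff R (Rk R k Z)))
    {ι κ : Type} [Finite ι] [Finite κ] (Z : Set (ι × κ)) :
    Hol P (MS R k Z (∅ : Set (ι × κ)) ∅) := by
  classical
  have : Fintype ι := Fintype.ofFinite ι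
  have : Fintype κ := Fintype.ofFinite κ
  let e := Fintype.equivFin ι
  let f := Fintype.equivFin κ
  refine Hol.trans ?_ (bij_reindex k Z e f)
  let Z' : Finset (Fin (Fintype.card ι) × Fin (Fintype.card κ)) :=
    Finset.univ.filter fun x => (e.symm x.1, f.symm x.2) ∈ Z
  have h1 : (Z' : Set (Fin (Fintype.card ι) × Fin (Fintype.card κ))) =
      {x | (e.symm x.1, f.symm x.2) ∈ Z} := by
    ext x
    simp [Z']
  rw [← h1]
  exact Hol.congr (fun C _ _ p => zer_rk k _ C p)
    ⟨_, inferInstance, inferInstance, inferInstance, _, rep_zer _, h _ _ Z'⟩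

include hP

/-- The systems decide the hypersurfaces of the tripartite hypergraphs. -/
theorem trip_of_slp
    (h : ∀ (V E : Type) [Fintype V] [Fintype E] [DecidableEq V] [DecidableEq E] (Y : Sys V E),
      Hol P (slp R Y))
    {a b c : ℕ} (H : Finset (Fin a × Fin b × Fin c)) : P (tripS R H) := by
  classical
  let e := H.equivFin
  let g : Fin H.card → Fin a × Fin b × Fin c := fun i => (e.symm i).1
  have hg : ∀ {C : Type} [CommRing C] (f : Fin a × Fin b × Fin c → C),
      ∑ h ∈ H, f h = ∑ i, f (g i) := by
    intro C _ f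
    rw [← Finset.sum_coe_sort H f]
    exact (e.symm.sum_comp fun h => f h.1).symm
  exact ((h _ _ (tsys g)).trans (bij_trip (R := R) H g hg)).of_rep hP (rep_zer _)

/-- The matrices of rank at most `3 + s` with prescribed zeros decide the hypersurfaces of the
tripartite hypergraphs. -/
theorem trip_of_rk
    (h : ∀ (m n : ℕ) (Z : Finset (Fin m × Fin n)), P (aff R (Rk R (3 + s) Z)))
    {a b c : ℕ} (H : Finset (Fin a × Fin b × Fin c)) : P (tripS R H) :=
  trip_of_slp hP (fun _ _ _ _ _ _ Y => hol_slp hP Y fun Z => hol_fin h (k := 3 + s) Z) H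

end

/-- Every property which is closed under closed-open decompositions, which is true for affine spaces, and
which descends along the affine bundles of Jouanolou and along `X × 𝔾_m → X`, is true for all
schemes of finite type as soon as it is true for all schemes of matrices of rank at most `r` with
prescribed zeros, for one `r ≥ 3`. -/
theorem universal_rk {sep : Prop} {P : Sch R → Prop} (hP : Uni sep P) [IsNoetherianRing R]
    (hR : Frac R) {r : ℕ} (hr : 3 ≤ r)
    (h : ∀ (m n : ℕ) (Z : Finset (Fin m × Fin n)), P (aff R (Rk R r Z)))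
    (X : Sch R) (hX : FT sep X) : P X := by
  obtain ⟨s, rfl⟩ := Nat.exists_eq_add_of_le hr
  exact universal_frac hR hP (fun a b c H => trip_of_rk (clo_of_uni hP) h H) X hX

end Pool.Agent.H81.RZ
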