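import Pool.Agent.H81.RZ.Inv2
import Pool.Agent.H81.RZ.Mn

/-!
# From invertible matrices with prescribed zeros to matrices of small rank: the conclusion
-/

set_option autoImplicit false
set_option linter.unusedSectionVars false

open CategoryTheory AlgebraicGeometry MvPolynomial Pool.Agent.Y116.UV Pool.Agent.Z125.UN
  Pool.Agent.Q193.LT

namespace Pool.Agent.H81.RZ

variable {R : Type} [CommRing R] {sep : Prop} {P : Sch R → Prop}

lemma Bij.symm {σ τ : Type} {S : Pts R σ} {T : Pts R τ}
    {F : ∀ (C : Type) [CommRing C] [Algebra R C], (σ → C) → (τ → C)}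
    {G : ∀ (C : Type) [CommRing C] [Algebra R C], (τ → C) → (σ → C)} (h : Bij S T F G) :
    Bij T S G F where
  natF := h.natG
  natG := h.natF
  memF := h.memG
  memG := h.memF
  GF := h.FG
  FG := h.GF

section tor

variable {σ : Type}

/-- the product with a torus -/
def Pts.tor (S : Pts R σ) (τ : Type) : Pts R (σ ⊕ τ) where
  pts C _ _ p := S.pts C (fun s => p (.inl s)) ∧ ∀ t, IsUnit (p (.inr t))
  map f _ h := ⟨S.map f h.1, fun t => (h.2 t).map f⟩

lemma Repr.gm {S : Pts R σ} (h : Repr S) : Repr S.gm := by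
  obtain ⟨A, i1, i2, i3, a, h1, -⟩ := h
  exact ⟨_, inferInstance, inferInstance, ft_laurent A, _, h1.gm, trivial⟩

lemma bij_tor_equiv (S : Pts R σ) {τ τ' : Type} (e : τ ≃ τ') : Bij (S.tor τ') (S.tor τ)
    (fun _ _ _ p t => Sum.elim (fun s => p (.inl s)) (fun t => p (.inr (e t))) t)
    (fun _ _ _ p t => Sum.elim (fun s => p (.inl s)) (fun t => p (.inr (e.symm t))) t) where
  natF f p _ t := by rcases t with s | t <;> rfl
  natG f p _ t := by rcases t with s | t <;> rfl
  memF C _ _ p h := ⟨h.1, fun t => h.2 _⟩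
  memG C _ _ p h := ⟨h.1, fun t => h.2 _⟩
  GF C _ _ p _ := by
    funext t
    rcases t with s | t
    · rfl
    · change p (.inr (e (e.symm t))) = p (.inr t)
      rw [Equiv.apply_symm_apply]
  FG C _ _ p _ := by
    funext t
    rcases t with s | t
    · rfl
    · change p (.inr (e.symm (e t))) = p (.inr t)
      rw [Equiv.symm_apply_apply]

lemma bij_tor_option (S : Pts R σ) (τ : Type) : Bij (S.tor (Option τ)) (S.tor τ).gm
    (fun _ _ _ p t => t.elim (p (.inr none)) fun t =>
      Sum.elim (fun s => p (.inl s)) (fun t => p (.inr (some t))) t)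
    (fun _ _ _ p t => Sum.elim (fun s => p (some (.inl s)))
      (fun t => t.elim (p none) fun t => p (some (.inr t))) t) where
  natF f p _ t := by rcases t with _ | s | t <;> rfl
  natG f p _ t := by rcases t with s | _ | t <;> rfl
  memF C _ _ p h := ⟨⟨h.1, fun t => h.2 _⟩, h.2 _⟩
  memG C _ _ p h := ⟨h.1.1, fun t => by
    rcases t with _ | t
    · exact h.2
    · exact h.1.2 t⟩
  GF C _ _ p _ := by
    funext t
    rcases t with s | _ | t <;> rfl
  FG C _ _ p _ := by
    funext t
    rcases t with _ | s | t <;> rfl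

lemma Repr.tor {S : Pts R σ} (h : Repr S) (τ : Type) [Finite τ] : Repr (S.tor τ) := by
  induction τ using Finite.induction_empty_option with
  | of_equiv e ih => exact ih.trans (bij_tor_equiv S e.symm)
  | h_empty =>
    exact h.trans (F := fun _ _ _ p t => Sum.elim p (fun t => t.elim) t)
      (G := fun _ _ _ p t => p (.inl t))
      ⟨fun f p _ t => by rcases t with s | t; · rfl
                         · exact t.elim, fun _ _ _ _ => rfl, fun C _ _ p h => ⟨h, fun t => t.elim⟩,
        fun C _ _ p h => h.1, fun _ _ _ _ _ => rfl, fun C _ _ p _ => by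
          funext t
          rcases t with s | t
          · rfl
          · exact t.elim⟩
  | h_option ih => exact ih.gm.trans (bij_tor_option S _).symm

lemma hol_of_tor (hP : Uni sep P) (τ : Type) [Finite τ] (S : Pts R σ) (hS : Repr S)
    (h : Hol P (S.tor τ)) : Hol P S := by
  induction τ using Finite.induction_empty_option with
  | of_equiv e ih => exact ih (h.trans (bij_tor_equiv S e))
  | h_empty =>
    exact h.trans (F := fun _ _ _ p t => p (.inl t))
      (G := fun _ _ _ p t => Sum.elim p (fun t => t.elim) t)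
      ⟨fun _ _ _ _ => rfl, fun f p _ t => by
        rcases t with s | t
        · rfl
        · exact t.elim, fun C _ _ p h => h.1, fun C _ _ p h => ⟨h, fun t => t.elim⟩,
        fun C _ _ p _ => by
          funext t
          rcases t with s | t
          · rfl
          · exact t.elim, fun _ _ _ _ _ => rfl⟩
  | h_option ih => exact ih (Hol.of_gm (clo_of_uni hP) (hS.tor _) (h.trans (bij_tor_option S _)))

end tor

section expand

variable {ι κ δ : Type} [Fintype δ] [DecidableEq δ] {k : ℕ} {C : Type} [CommRing C]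

/-- a matrix of small rank with an invertible diagonal block -/
lemma RankLe.expand' (hk : Fintype.card δ = k) {p : ι × κ → C} (h : RankLe k p) {f : δ → ι}
    (hf : Function.Injective f) (g : δ → κ) (h1 : ∀ a b, a ≠ b → p (f a, g b) = 0)
    (h2 : ∀ a, IsUnit (p (f a, g a))) (i : ι) (j : κ) :
    p (i, j) = ∑ a, p (i, g a) * Ring.inverse (p (f a, g a)) * p (f a, j) := by
  let v : ι → C := fun x => (Function.partialInv f x).elim 1 fun a => Ring.inverse (p (f a, g a))
  have hv : ∀ a, v (f a) = Ring.inverse (p (f a, g a)) := by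
    intro a
    change (Function.partialInv f (f a)).elim 1 (fun a => Ring.inverse (p (f a, g a))) = _
    rw [hf.isPartialInv.eq a]
    rfl
  have hu : ∀ x, IsUnit (v x) := by
    intro x
    change IsUnit ((Function.partialInv f x).elim 1 fun a => Ring.inverse (p (f a, g a)))
    rcases Function.partialInv f x with _ | a
    · exact isUnit_one
    · exact (h2 a).ringInverse
  have h3 := RankLe.expand hk (rankLe_row h v) f g (fun a b => by
    change v (f a) * p (f a, g b) = _
    rw [hv]
    split_ifs with hab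
    · subst hab
      exact Ring.inverse_mul_cancel _ (h2 a)
    · rw [h1 a b hab, mul_zero]) i j
  have h4 : v i * p (i, j) = v i * ∑ a, p (i, g a) * Ring.inverse (p (f a, g a)) * p (f a, j) := by
    refine h3.trans ?_
    rw [Finset.mul_sum]
    apply Finset.sum_congr rfl
    intro a _
    change v i * p (i, g a) * (v (f a) * p (f a, j)) = _
    rw [hv]
    ring
  exact (hu i).mul_left_cancel h4

end expand

section extract

variable {ι κ δ : Type} [Fintype δ] [DecidableEq δ] [Fintype ι] [DecidableEq ι] [Fintype κ]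
  [DecidableEq κ] (f : δ → ι) (g : δ → κ)

/-- the zeros of the large matrix -/
def zl (Z : Set (ι × κ)) : Set (ι × (ι ⊕ κ)) := {e | match e with
  | (x, .inl y) => (∃ a, y = f a ∧ (x, g a) ∈ Z) ∨ ((∀ a, y ≠ f a) ∧ x ≠ y)
  | (x, .inr q) => (∃ a, q = g a) ∨ (x, q) ∈ Z}

/-- to the small matrix -/
noncomputable def sm {C : Type} (W : ι × (ι ⊕ κ) → C) (e : ι × κ) : C :=
  (Function.partialInv g e.2).elim (W (e.1, .inr e.2)) fun a => W (e.1, .inl (f a))

/-- to the large matrix -/
noncomputable def la {C : Type} [CommRing C] (p : ι × κ → C) (w : ι → C) : ι × (ι ⊕ κ) → C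
  | (x, .inl y) => (Function.partialInv f y).elim (if x = y then w y else 0) fun a => p (x, g a)
  | (x, .inr q) => (Function.partialInv g q).elim (p (x, q)) fun _ => 0

variable {f g} (hf : Function.Injective f) (hg : Function.Injective g)

include hf in
lemma pf (a : δ) : Function.partialInv f (f a) = some a := hf.isPartialInv.eq a

include hf in
lemma pf_none {x : ι} (h : ∀ a, x ≠ f a) : Function.partialInv f x = none := by
  rcases hx : Function.partialInv f x with _ | a
  · rfl
  · exact absurd ((hf.isPartialInv a x).mp hx).symm (h a)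

include hf in
lemma pf_cases (x : ι) : (∃ a, x = f a) ∨ (∀ a, x ≠ f a) := by
  by_cases h : ∃ a, x = f a
  · exact Or.inl h
  · exact Or.inr fun a ha => h ⟨a, ha⟩

include hf in
/-- the determinant of the square part of the large matrix -/
lemma la_det {C : Type} [CommRing C] (M : Matrix ι ι C) (h1 : ∀ a b, a ≠ b → M (f a) (f b) = 0)
    (h2 : ∀ x y, (∀ a, y ≠ f a) → x ≠ y → M x y = 0) :
    M.det = (∏ a, M (f a) (f a)) * ∏ y : {y : ι // ∀ a, y ≠ f a}, M y.1 y.1 := by
  have hb : Function.Bijective (Sum.elim f Subtype.val : δ ⊕ {y : ι // ∀ a, y ≠ f a} → ι) := by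
    constructor
    · rintro (a | y) (b | z) h
      · exact congrArg _ (hf h)
      · exact absurd h.symm (z.2 a)
      · exact absurd h (y.2 b)
      · exact congrArg _ (Subtype.ext h)
    · intro x
      rcases pf_cases hf x with ⟨a, rfl⟩ | h
      · exact ⟨.inl a, rfl⟩
      · exact ⟨.inr ⟨x, h⟩, rfl⟩
  let e := Equiv.ofBijective _ hb
  rw [← Matrix.det_submatrix_equiv_self e M]
  have h3 : M.submatrix e e = Matrix.fromBlocks (Matrix.diagonal fun a => M (f a) (f a)) 0
      (Matrix.of fun y a => M y.1 (f a)) (Matrix.diagonal fun y => M y.1 y.1) := by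
    ext x y
    rcases x with a | x <;> rcases y with b | y
    · change M (f a) (f b) = Matrix.diagonal (fun a => M (f a) (f a)) a b
      rw [Matrix.diagonal_apply]
      split_ifs with h
      · rw [h]
      · exact h1 a b h
    · exact h2 _ _ y.2 fun h => y.2 a h.symm
    · rfl
    · change M x.1 y.1 = Matrix.diagonal (fun y : {y : ι // ∀ a, y ≠ f a} => M y.1 y.1) x y
      rw [Matrix.diagonal_apply]
      split_ifs with h
      · rw [h]
      · exact h2 _ _ y.2 fun h' => h (Subtype.ext h')
  rw [h3, Matrix.det_fromBlocks_zero₁₂, Matrix.det_diagonal, Matrix.det_diagonal]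

variable {C : Type} [CommRing C]

include hg in
lemma sm_g (W : ι × (ι ⊕ κ) → C) (x : ι) (a : δ) : sm f g W (x, g a) = W (x, .inl (f a)) := by
  change (Function.partialInv g (g a)).elim _ _ = _
  rw [pf hg]
  rfl

include hg in
lemma sm_none (W : ι × (ι ⊕ κ) → C) (x : ι) {q : κ} (h : ∀ a, q ≠ g a) :
    sm f g W (x, q) = W (x, .inr q) := by
  change (Function.partialInv g q).elim _ _ = _
  rw [pf_none hg h]
  rfl

include hf in
lemma la_f (p : ι × κ → C) (w : ι → C) (x : ι) (a : δ) :
    la f g p w (x, .inl (f a)) = p (x, g a) := by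
  change (Function.partialInv f (f a)).elim _ _ = _
  rw [pf hf]
  rfl

include hf in
lemma la_fnone (p : ι × κ → C) (w : ι → C) (x : ι) {y : ι} (h : ∀ a, y ≠ f a) :
    la f g p w (x, .inl y) = if x = y then w y else 0 := by
  change (Function.partialInv f y).elim _ _ = _
  rw [pf_none hf h]
  rfl

include hg in
lemma la_g (p : ι × κ → C) (w : ι → C) (x : ι) (a : δ) :
    la f g p w (x, .inr (g a)) = 0 := by
  change (Function.partialInv g (g a)).elim _ _ = _
  rw [pf hg]
  rfl

include hg in
lemma la_gnone (p : ι × κ → C) (w : ι → C) (x : ι) {q : κ} (h : ∀ a, q ≠ g a) :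
    la f g p w (x, .inr q) = p (x, q) := by
  change (Function.partialInv g q).elim _ _ = _
  rw [pf_none hg h]
  rfl

end extract

section extract2

variable {ι κ δ : Type} [Fintype δ] [DecidableEq δ] [Fintype ι] [DecidableEq ι] [Fintype κ]
  [DecidableEq κ] {f : δ → ι} {g : δ → κ} (hf : Function.Injective f) (hg : Function.Injective g)
  {k : ℕ} (hk : Fintype.card δ = k) {Z : Set (ι × κ)} (hZ : ∀ a b, a ≠ b → (f a, g b) ∈ Z)

/-- the diagonal of the block -/
def dg (f : δ → ι) (g : δ → κ) : Set (ι × κ) := {e | ∃ a, e = (f a, g a)}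

/-- extension of the torus coordinates -/
noncomputable def wx (f : δ → ι) {C : Type} [CommRing C] (w : {y : ι // ∀ a, y ≠ f a} → C) (y : ι) :
    C :=
  open Classical in if h : ∀ a, y ≠ f a then w ⟨y, h⟩ else 0

lemma wx_of {C : Type} [CommRing C] (w : {y : ι // ∀ a, y ≠ f a} → C)
    (y : {y : ι // ∀ a, y ≠ f a}) : wx f w y = w y := dif_pos y.2

include hf hg hk hZ

lemma bij_la : Bij ((tc R f (zl f g Z) Set.univ).opn (md R f (zl f g Z) Set.univ))
    ((MS R k Z (dg f g) ∅).tor {y : ι // ∀ a, y ≠ f a})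
    (fun _ _ _ W t => Sum.elim (sm f g W) (fun y => W (y.1, .inl y.1)) t)
    (fun _ _ _ p e => la f g (fun e => p (.inl e)) (wx f fun y => p (.inr y)) e) where
  natF h W _ t := by
    rcases t with ⟨x, q⟩ | y
    · change h (sm f g W (x, q)) = sm f g (fun e => h (W e)) (x, q)
      rcases pf_cases hg q with ⟨a, rfl⟩ | hq
      · rw [sm_g hg, sm_g hg]
      · rw [sm_none hg W x hq, sm_none hg _ x hq]
    · rfl
  natG {C D} _ _ _ _ h p _ e := by
    rcases e with ⟨x, y | q⟩
    · rcases pf_cases hf y with ⟨a, rfl⟩ | hy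
      · rw [la_f hf, la_f hf]
      · rw [la_fnone hf _ _ x hy, la_fnone hf _ _ x hy]
        split_ifs
        · change h (wx f (fun y => p (.inr y)) y) = wx f (fun y => h (p (.inr y))) y
          rw [wx, wx, dif_pos hy, dif_pos hy]
        · exact map_zero h
    · rcases pf_cases hg q with ⟨a, rfl⟩ | hq
      · rw [la_g hg, la_g hg]
        exact map_zero h
      · rw [la_gnone hg _ _ x hq, la_gnone hg _ _ x hq]
  memF C _ _ W hW := by
    obtain ⟨⟨⟨h1, h2, h3⟩, h4⟩, h5⟩ := hW
    have h6 : ∀ x q, sm f g W (x, q) = ∑ a, W (x, .inl (f a)) *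
        Ring.inverse (W (f a, .inl (f a))) * sm f g W (f a, q) := by
      intro x q
      rcases pf_cases hg q with ⟨b, rfl⟩ | hq
      · rw [sm_g hg, Finset.sum_eq_single b]
        · rw [sm_g hg, mul_assoc, Ring.inverse_mul_cancel _ (h3 b), mul_one]
        · intro a _ hab
          rw [sm_g hg, h2 a b hab, mul_zero]
        · intro h
          exact absurd (Finset.mem_univ b) h
      · rw [sm_none hg W x hq, h4 x q trivial]
        apply Finset.sum_congr rfl
        intro a _
        rw [sm_none hg W (f a) hq]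
    refine ⟨⟨?_, ?_, ?_, fun e he => absurd he (Set.notMem_empty e)⟩, ?_⟩
    · have h7 := rankLe_mul hk (fun x a => W (x, .inl (f a)) * Ring.inverse (W (f a, .inl (f a))))
        (fun q a => sm f g W (f a, q))
      have h8 : (fun e : ι × κ => ∑ a, W (e.1, .inl (f a)) * Ring.inverse (W (f a, .inl (f a))) *
          sm f g W (f a, e.2)) = sm f g W := by
        funext ⟨x, q⟩
        exact (h6 x q).symm
      rw [← h8]
      exact h7
    · rintro ⟨x, q⟩ he
      change sm f g W (x, q) = 0
      rcases pf_cases hg q with ⟨b, rfl⟩ | hq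
      · rw [sm_g hg]
        exact h1 (x, .inl (f b)) (Or.inl ⟨b, rfl, he⟩)
      · rw [sm_none hg W x hq]
        exact h1 (x, .inr q) (Or.inr he)
    · rintro e ⟨a, rfl⟩
      change IsUnit (sm f g W (f a, g a))
      rw [sm_g hg]
      exact h3 a
    · intro y
      have h7 : IsUnit (Matrix.of fun x y => W (x, .inl y)).det := h5
      rw [la_det hf (Matrix.of fun x y => W (x, .inl y)) (fun a b hab => h2 a b hab)
        (fun x y hy hxy => h1 (x, .inl y) (Or.inr ⟨hy, hxy⟩))] at h7
      exact isUnit_of_dvd_unit ((Finset.dvd_prod_of_mem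
        (fun y : {y : ι // ∀ a, y ≠ f a} => W (y.1, .inl y.1)) (Finset.mem_univ y)).trans
          (Dvd.intro_left _ rfl)) h7
  memG C _ _ p hp := by
    obtain ⟨⟨h1, h2, h3, -⟩, h4⟩ := hp
    replace h2 : ∀ e ∈ Z, p (.inl e) = 0 := h2
    replace h3 : ∀ a, IsUnit (p (.inl (f a, g a))) := fun a => h3 _ ⟨a, rfl⟩
    have hpz : ∀ a b, a ≠ b → p (.inl (f a, g b)) = 0 := fun a b hab => h2 _ (hZ a b hab)
    let L : ι × (ι ⊕ κ) → C := la f g (fun e => p (.inl e)) (wx f fun y => p (.inr y))
    have l1 : ∀ x a, L (x, .inl (f a)) = p (.inl (x, g a)) := fun x a => la_f hf _ _ x a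
    have l2 : ∀ x y, (∀ a, y ≠ f a) → L (x, .inl y) =
      if x = y then wx f (fun y => p (.inr y)) y else 0 := fun x y hy => la_fnone hf _ _ x hy
    have l3 : ∀ x a, L (x, .inr (g a)) = 0 := fun x a => la_g hg _ _ x a
    have l4 : ∀ x q, (∀ a, q ≠ g a) → L (x, .inr q) = p (.inl (x, q)) :=
      fun x q hq => la_gnone hg _ _ x hq
    have k1 : ∀ e ∈ zl f g Z, L e = 0 := by
      rintro ⟨x, y | q⟩ he
      · rcases he with ⟨a, rfl, he⟩ | ⟨hy, hxy⟩
        · rw [l1]
          exact h2 _ he
        · rw [l2 _ _ hy, if_neg hxy]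
      · rcases pf_cases hg q with ⟨b, rfl⟩ | hq
        · rw [l3]
        · rw [l4 _ _ hq]
          rcases he with ⟨a, ha⟩ | he
          · exact absurd ha (hq a)
          · exact h2 _ he
    have k2 : ∀ a b, a ≠ b → L (f a, .inl (f b)) = 0 := fun a b hab => by
      rw [l1]
      exact hpz a b hab
    have k3 : ∀ a, IsUnit (L (f a, .inl (f a))) := fun a => by
      rw [l1]
      exact h3 a
    have k4 : ∀ x, ∀ q ∈ (Set.univ : Set κ), L (x, .inr q) = ex f L (fun x => L (x, .inr q)) x := by
      intro x q _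
      have h5 : ex f L (fun x => L (x, .inr q)) x =
          ∑ a, p (.inl (x, g a)) * Ring.inverse (p (.inl (f a, g a))) * L (f a, .inr q) := by
        apply Finset.sum_congr rfl
        intro a _
        rw [l1, l1]
      rw [h5]
      rcases pf_cases hg q with ⟨b, rfl⟩ | hq
      · rw [l3]
        symm
        apply Finset.sum_eq_zero
        intro a _
        rw [l3, mul_zero]
      · rw [l4 _ _ hq]
        refine (RankLe.expand' hk h1 hf g hpz h3 x q).trans ?_
        apply Finset.sum_congr rfl
        intro a _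
        rw [l4 _ _ hq]
    have k5 : IsUnit (Matrix.of fun x y => L (x, .inl y)).det := by
      rw [la_det hf (Matrix.of fun x y => L (x, .inl y)) (fun a b hab => k2 a b hab)
        (fun x y hy hxy => (l2 x y hy).trans (if_neg hxy))]
      refine IsUnit.mul ?_ ?_
      · exact Submonoid.prod_mem (IsUnit.submonoid C) fun a _ => k3 a
      · refine Submonoid.prod_mem (IsUnit.submonoid C) fun y _ => ?_
        have h6 : L (y.1, .inl y.1) = p (.inr y) := by
          rw [l2 _ _ y.2, if_pos rfl, wx_of]
        have h7 : IsUnit (L (y.1, .inl y.1)) := by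
          rw [h6]
          exact h4 y
        exact h7
    exact ⟨⟨⟨k1, k2, k3⟩, k4⟩, k5⟩
  GF C _ _ W hW := by
    obtain ⟨⟨⟨h1, h2, h3⟩, h4⟩, h5⟩ := hW
    funext e
    rcases e with ⟨x, y | q⟩
    · change la f g (sm f g W) (wx f fun y => W (y.1, .inl y.1)) (x, .inl y) = W (x, .inl y)
      rcases pf_cases hf y with ⟨a, rfl⟩ | hy
      · rw [la_f hf, sm_g hg]
      · rw [la_fnone hf _ _ x hy]
        split_ifs with h
        · subst h
          exact dif_pos hy
        · exact (h1 (x, .inl y) (Or.inr ⟨hy, h⟩)).symm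
    · change la f g (sm f g W) (wx f fun y => W (y.1, .inl y.1)) (x, .inr q) = W (x, .inr q)
      rcases pf_cases hg q with ⟨b, rfl⟩ | hq
      · rw [la_g hg]
        exact (h1 (x, .inr (g b)) (Or.inl ⟨b, rfl⟩)).symm
      · rw [la_gnone hg _ _ x hq, sm_none hg W x hq]
  FG C _ _ p hp := by
    funext t
    rcases t with ⟨x, q⟩ | y
    · change sm f g (la f g (fun e => p (.inl e)) (wx f fun y => p (.inr y))) (x, q) =
        p (.inl (x, q))
      rcases pf_cases hg q with ⟨b, rfl⟩ | hq
      · rw [sm_g hg, la_f hf]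
      · rw [sm_none hg _ x hq, la_gnone hg _ _ x hq]
    · change la f g (fun e => p (.inl e)) (wx f fun y => p (.inr y)) (y.1, .inl y.1) = p (.inr y)
      rw [la_fnone hf _ _ _ y.2, if_pos rfl, wx_of]

end extract2

end Pool.Agent.H81.RZ
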