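import Pool.Graph.R_seed8.Y116.UV.Defs

/-!
# Kirchhoff polynomials
-/

set_option autoImplicit false

open CategoryTheory AlgebraicGeometry MvPolynomial Pool.Agent.Y116.UV

namespace Pool.Agent.H81.RZ

open Classical in
/-- The Kirchhoff polynomial of a graph: the sum over the spanning trees of the products of the
variables of their edges. -/
noncomputable def kirchhoff (R : Type) [CommRing R] {n : ℕ} (G : SimpleGraph (Fin n)) :
    MvPolynomial G.edgeSet R :=
  ∑ T ∈ (Finset.univ : Finset (Finset G.edgeSet)).filter (fun T : Finset G.edgeSet =>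
    (SimpleGraph.fromEdgeSet (Subtype.val '' (T : Set G.edgeSet))).IsTree), ∏ e ∈ T, X e

/-- The ring of functions on the hypersurface of the Kirchhoff polynomial. -/
abbrev Xg (R : Type) [CommRing R] {n : ℕ} (G : SimpleGraph (Fin n)) : Type :=
  MvPolynomial G.edgeSet R ⧸ Ideal.span {kirchhoff R G}

/-- The vertices are the disjoint union of an independent set and a clique. -/
def IsSplit {n : ℕ} (G : SimpleGraph (Fin n)) : Prop :=
  ∃ S : Set (Fin n), (∀ i ∈ S, ∀ j ∈ S, ¬ G.Adj i j) ∧ ∀ i, i ∉ S → ∀ j, j ∉ S → i ≠ j → G.Adj i j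

/-- `P` is true for the hypersurfaces of the Kirchhoff polynomials of all split graphs. -/
def OnKirchhoff {R : Type} [CommRing R] (P : Sch R → Prop) : Prop :=
  ∀ (n : ℕ) (G : SimpleGraph (Fin n)), IsSplit G → P (aff R (Xg R G))

/-- `P` is true for the complements of the hypersurfaces of the Kirchhoff polynomials of all split
graphs. -/
def OffKirchhoff {R : Type} [CommRing R] (P : Sch R → Prop) : Prop :=
  ∀ (n : ℕ) (G : SimpleGraph (Fin n)), IsSplit G → P (aff R (Localization.Away (kirchhoff R G)))

/-- `P` is true for all schemes of finite type (separated, if `sep`). -/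
def OnAll {R : Type} [CommRing R] (sep : Prop) (P : Sch R → Prop) : Prop :=
  ∀ X : Sch R, FT sep X → P X

end Pool.Agent.H81.RZ
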