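import Pool.Agent.H81.RZ.KDefs

/-!
# Matrices with prescribed zeros
-/

set_option autoImplicit false

open CategoryTheory AlgebraicGeometry MvPolynomial Pool.Agent.Y116.UV

namespace Pool.Agent.H81.RZ

/-- The ring of functions on the `n × n` matrices over `R` whose entries at the places `Z` are zero. -/
abbrev Zm (R : Type) [CommRing R] {n : ℕ} (Z : Finset (Fin n × Fin n)) : Type :=
  MvPolynomial (Fin n × Fin n) R ⧸ Ideal.span {g | ∃ e ∈ Z, g = (X e : MvPolynomial (Fin n × Fin n) R)}

/-- The generic `n × n` matrix with zeros at `Z`. -/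
noncomputable def gen (R : Type) [CommRing R] {n : ℕ} (Z : Finset (Fin n × Fin n)) :
    Matrix (Fin n) (Fin n) (Zm R Z) :=
  Matrix.of fun i j => Ideal.Quotient.mk _ (X (i, j))

/-- The ring of functions on the invertible `n × n` matrices with zeros at `Z`. -/
abbrev Gl (R : Type) [CommRing R] {n : ℕ} (Z : Finset (Fin n × Fin n)) : Type :=
  Localization.Away (gen R Z).det

/-- The ring of functions on the singular `n × n` matrices with zeros at `Z`. -/
abbrev Sg (R : Type) [CommRing R] {n : ℕ} (Z : Finset (Fin n × Fin n)) : Type :=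
  Zm R Z ⧸ Ideal.span {(gen R Z).det}

/-- The polynomials defining the matrices of rank at most `k` with zeros at `Z`. -/
def rkEqs {ι κ : Type} (R : Type) [CommRing R] (k : ℕ) (Z : Set (ι × κ)) :
    Set (MvPolynomial (ι × κ) R) :=
  {g | ∃ (ρ : Fin (k + 1) → ι) (γ : Fin (k + 1) → κ),
    g = (Matrix.of fun a b => (X (ρ a, γ b) : MvPolynomial (ι × κ) R)).det} ∪
  {g | ∃ e ∈ Z, g = X e}

/-- The ring of functions on the matrices of rank at most `k` over `R` with `m` rows and `n` columns
whose entries at the places `Z` are zero. -/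
abbrev Rk (R : Type) [CommRing R] (k : ℕ) {m n : ℕ} (Z : Finset (Fin m × Fin n)) : Type :=
  MvPolynomial (Fin m × Fin n) R ⧸ Ideal.span (rkEqs R k (Z : Set (Fin m × Fin n)))

/-- `P` is true for the schemes of the singular `n × n` matrices with prescribed zeros. -/
def OnSingular {R : Type} [CommRing R] (P : Sch R → Prop) : Prop :=
  ∀ (n : ℕ) (Z : Finset (Fin n × Fin n)), P (aff R (Sg R Z))

/-- `P` is true for the schemes of the invertible `n × n` matrices with prescribed zeros. -/
def OnInvertible {R : Type} [CommRing R] (P : Sch R → Prop) : Prop :=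
  ∀ (n : ℕ) (Z : Finset (Fin n × Fin n)), P (aff R (Gl R Z))

/-- `P` is true for the schemes of the `m × n` matrices of rank at most `r` with prescribed zeros. -/
def OnRank {R : Type} [CommRing R] (r : ℕ) (P : Sch R → Prop) : Prop :=
  ∀ (m n : ℕ) (Z : Finset (Fin m × Fin n)), P (aff R (Rk R r Z))

end Pool.Agent.H81.RZ
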