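import Pool.Agent.H81.RZ.Fun
import Pool.Agent.H81.RZ.MDefs

/-!
# Matrices of rank at most `k` with prescribed zeros, units and ones
-/

set_option autoImplicit false

open CategoryTheory AlgebraicGeometry MvPolynomial Pool.Agent.Y116.UV Pool.Agent.Q282.UK

namespace Pool.Agent.H81.RZ

variable {R : Type} [CommRing R]

section quot

variable {σ : Type}

/-- the common zeros of some polynomials -/
def zer (G : Set (MvPolynomial σ R)) : Pts R σ where
  pts _ _ _ p := ∀ g ∈ G, aeval p g = 0
  map {C D} _ _ _ _ f p h g hg := by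
    have h1 : aeval (fun s => f (p s)) = f.comp (aeval p) := by
      apply MvPolynomial.algHom_ext
      intro s
      rw [aeval_X, AlgHom.comp_apply, aeval_X]
    rw [h1, AlgHom.comp_apply, h g hg, map_zero]

lemma rep_zer (G : Set (MvPolynomial σ R)) :
    Rep (zer G) (MvPolynomial σ R ⧸ Ideal.span G)
      (fun s => Ideal.Quotient.mkₐ R (Ideal.span G) (X s)) where
  mem g hg := by
    have h1 : aeval (fun s => Ideal.Quotient.mkₐ R (Ideal.span G) (X s)) =
        Ideal.Quotient.mkₐ R (Ideal.span G) := by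
      apply MvPolynomial.algHom_ext
      intro s
      rw [aeval_X]
    rw [h1]
    exact Ideal.Quotient.eq_zero_iff_mem.mpr (Ideal.subset_span hg)
  ex C _ _ p hp := by
    refine ⟨Ideal.Quotient.liftₐ _ (aeval p) ?_, fun s => ?_⟩
    · intro x hx
      have h1 : Ideal.span G ≤ RingHom.ker (aeval p : MvPolynomial σ R →ₐ[R] C) := by
        rw [Ideal.span_le]
        intro g hg
        exact hp g hg
      exact h1 hx
    · exact aeval_X p s
  uniq C _ _ f g hfg := by
    apply Ideal.Quotient.algHom_ext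
    apply MvPolynomial.algHom_ext
    intro s
    exact hfg s

end quot

lemma Hol.congr {σ : Type} {S T : Pts R σ} {P : Sch R → Prop}
    (h : ∀ (C : Type) [CommRing C] [Algebra R C] (p : σ → C), S.pts C p ↔ T.pts C p)
    (hS : Hol P S) : Hol P T :=
  hS.trans (F := fun _ _ _ p => p) (G := fun _ _ _ p => p)
    ⟨fun _ _ _ _ => rfl, fun _ _ _ _ => rfl, fun C _ _ p hp => (h C p).mp hp,
      fun C _ _ p hp => (h C p).mpr hp, fun _ _ _ _ _ => rfl, fun _ _ _ _ _ => rfl⟩

variable {ι κ : Type}

/-- all minors of size `k + 1` are zero -/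
def RankLe (k : ℕ) {C : Type} [CommRing C] (p : ι × κ → C) : Prop :=
  ∀ (ρ : Fin (k + 1) → ι) (γ : Fin (k + 1) → κ), (Matrix.of fun a b => p (ρ a, γ b)).det = 0

lemma RankLe.map {k : ℕ} {C D : Type} [CommRing C] [CommRing D] (f : C →+* D) {p : ι × κ → C}
    (h : RankLe k p) : RankLe k fun s => f (p s) := by
  intro ρ γ
  have h1 := congrArg f (h ρ γ)
  rw [RingHom.map_det, map_zero] at h1
  exact h1

/-- matrices of rank at most `k`, zero at `Z`, invertible at `U`, one at `N` -/
def MS (R : Type) [CommRing R] (k : ℕ) (Z U N : Set (ι × κ)) : Pts R (ι × κ) where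
  pts _ _ _ p := RankLe k p ∧ (∀ e ∈ Z, p e = 0) ∧ (∀ e ∈ U, IsUnit (p e)) ∧ ∀ e ∈ N, p e = 1
  map {C D} _ _ _ _ f _ h := ⟨h.1.map (f : C →+* D),
    fun e he => (congrArg f (h.2.1 e he)).trans (map_zero f), fun e he => (h.2.2.1 e he).map f,
    fun e he => (congrArg f (h.2.2.2 e he)).trans (map_one f)⟩

/-- an entry -/
def ent {S : Pts R (ι × κ)} (e : ι × κ) : Fn S where
  val _ _ _ p := p e
  nat _ _ _ := rfl

/-- an entry minus one -/
def ent1 {S : Pts R (ι × κ)} (e : ι × κ) : Fn S where
  val _ _ _ p := p e - 1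
  nat f p _ := by rw [map_sub, map_one]

lemma zer_rk (k : ℕ) (Z : Set (ι × κ)) (C : Type) [CommRing C] [Algebra R C] (p : ι × κ → C) :
    (zer (rkEqs R k Z)).pts C p ↔ (MS R k Z ∅ ∅).pts C p := by
  constructor
  · intro h
    refine ⟨fun ρ γ => ?_, fun e he => ?_, fun e he => absurd he (Set.notMem_empty e),
      fun e he => absurd he (Set.notMem_empty e)⟩
    · have h1 := h _ (Or.inl ⟨ρ, γ, rfl⟩)
      rw [AlgHom.map_det] at h1
      rw [← h1]
      congr 1
      ext a b
      exact (aeval_X p _).symm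
    · have h1 := h _ (Or.inr ⟨e, he, rfl⟩)
      rwa [aeval_X] at h1
  · rintro ⟨h1, h2, -, -⟩ g (⟨ρ, γ, rfl⟩ | ⟨e, he, rfl⟩)
    · rw [AlgHom.map_det, ← h1 ρ γ]
      congr 1
      ext a b
      exact aeval_X p _
    · rw [aeval_X]
      exact h2 e he

lemma repr_ms0 [Finite ι] [Finite κ] (k : ℕ) (Z : Set (ι × κ)) :
    Repr (MS R k Z (∅ : Set (ι × κ)) ∅) :=
  Hol.congr (fun C _ _ p => zer_rk k Z C p)
    ⟨_, inferInstance, inferInstance, inferInstance, _, rep_zer (rkEqs R k Z), trivial⟩

lemma repr_ms1 [Finite ι] [Finite κ] (k : ℕ) (Z : Set (ι × κ)) (U : Finset (ι × κ)) :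
    Repr (MS R k Z (U : Set (ι × κ)) ∅) := by
  classical
  induction U using Finset.induction_on with
  | empty => rw [Finset.coe_empty]; exact repr_ms0 k Z
  | insert e U _ ih =>
    refine Hol.congr (fun C _ _ p => ?_) (ih.opn (ent e))
    rw [Finset.coe_insert]
    constructor
    · rintro ⟨⟨h1, h2, h3, h4⟩, h5⟩
      refine ⟨h1, h2, ?_, h4⟩
      rintro e' (rfl | he)
      · exact h5
      · exact h3 e' he
    · rintro ⟨h1, h2, h3, h4⟩
      exact ⟨⟨h1, h2, fun e' he => h3 e' (Or.inr he), h4⟩, h3 e (Or.inl rfl)⟩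

lemma repr_ms [Finite ι] [Finite κ] (k : ℕ) (Z : Set (ι × κ)) (U N : Finset (ι × κ)) :
    Repr (MS R k Z (U : Set (ι × κ)) (N : Set (ι × κ))) := by
  classical
  induction N using Finset.induction_on with
  | empty => rw [Finset.coe_empty]; exact repr_ms1 k Z U
  | insert e N _ ih =>
    refine Hol.congr (fun C _ _ p => ?_) (ih.clo (ent1 e))
    rw [Finset.coe_insert]
    constructor
    · rintro ⟨⟨h1, h2, h3, h4⟩, h5⟩
      refine ⟨h1, h2, h3, ?_⟩
      rintro e' (rfl | he)
      · exact sub_eq_zero.mp h5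
      · exact h4 e' he
    · rintro ⟨h1, h2, h3, h4⟩
      exact ⟨⟨h1, h2, h3, fun e' he => h4 e' (Or.inr he)⟩, sub_eq_zero.mpr (h4 e (Or.inl rfl))⟩

section

variable {sep : Prop} {P : Sch R → Prop} (hP : Clo sep P) {k : ℕ}

include hP

/-- invertible entries, by closed-open decompositions -/
lemma hol_units (h : ∀ Z : Set (ι × κ), Hol P (MS R k Z (∅ : Set (ι × κ)) ∅))
    (U : Finset (ι × κ)) (Z : Set (ι × κ)) : Hol P (MS R k Z (U : Set (ι × κ)) ∅) := by
  classical
  induction U using Finset.induction_on generalizing Z with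
  | empty => rw [Finset.coe_empty]; exact h Z
  | insert e U _ ih =>
    refine Hol.congr (fun C _ _ p => ?_) ((ih Z).opn (ent e) hP
      (Hol.congr (fun C _ _ p => ?_) (ih (insert e Z))))
    · rw [Finset.coe_insert]
      constructor
      · rintro ⟨⟨h1, h2, h3, h4⟩, h5⟩
        refine ⟨h1, h2, ?_, h4⟩
        rintro e' (rfl | he)
        · exact h5
        · exact h3 e' he
      · rintro ⟨h1, h2, h3, h4⟩
        exact ⟨⟨h1, h2, fun e' he => h3 e' (Or.inr he), h4⟩, h3 e (Or.inl rfl)⟩
    · constructor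
      · rintro ⟨h1, h2, h3, h4⟩
        exact ⟨⟨h1, fun e' he => h2 e' (Or.inr he), h3, h4⟩, h2 e (Or.inl rfl)⟩
      · rintro ⟨⟨h1, h2, h3, h4⟩, h5⟩
        refine ⟨h1, ?_, h3, h4⟩
        rintro e' (rfl | he)
        · exact h5
        · exact h2 e' he

end

/-- transposition -/
def sw (E : Set (ι × κ)) : Set (κ × ι) := {e | (e.2, e.1) ∈ E}

lemma bij_sw (k : ℕ) (Z U N : Set (ι × κ)) : Bij (MS R k Z U N) (MS R k (sw Z) (sw U) (sw N))
    (fun _ _ _ p e => p (e.2, e.1)) (fun _ _ _ p e => p (e.2, e.1)) where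
  natF _ _ _ _ := rfl
  natG _ _ _ _ := rfl
  memF C _ _ p h := by
    obtain ⟨h1, h2, h3, h4⟩ := h
    refine ⟨fun ρ γ => ?_, fun e he => h2 _ he, fun e he => h3 _ he, fun e he => h4 _ he⟩
    rw [← h1 γ ρ, ← Matrix.det_transpose]
    rfl
  memG C _ _ p h := by
    obtain ⟨h1, h2, h3, h4⟩ := h
    refine ⟨fun ρ γ => ?_, fun e he => h2 (e.2, e.1) he, fun e he => h3 (e.2, e.1) he,
      fun e he => h4 (e.2, e.1) he⟩
    rw [← h1 γ ρ, ← Matrix.det_transpose]
    rfl
  GF _ _ _ _ _ := rfl
  FG _ _ _ _ _ := rfl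

lemma map_inverse_of_isUnit {C D : Type} [CommRing C] [CommRing D] (f : C →+* D) {u : C}
    (hu : IsUnit u) : f (Ring.inverse u) = Ring.inverse (f u) := by
  obtain ⟨v, rfl⟩ := hu
  have h1 : f (v : C) = ((Units.map (f : C →* D) v : Dˣ) : D) := rfl
  rw [h1, Ring.inverse_unit, Ring.inverse_unit]
  rfl

lemma rankLe_row {k : ℕ} {C : Type} [CommRing C] {p : ι × κ → C} (h : RankLe k p) (v : ι → C) :
    RankLe k fun e => v e.1 * p e := by
  intro ρ γ
  have h1 := Matrix.det_mul_column (fun a => v (ρ a)) (Matrix.of fun a b => p (ρ a, γ b))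
  rw [h ρ γ, mul_zero] at h1
  exact h1

section scale

variable [DecidableEq ι] (k : ℕ) (Z U N : Set (ι × κ)) (i : ι) (j : κ)

/-- one row multiplied by `c` -/
def rowMul {C : Type} [CommRing C] (c : C) (p : ι × κ → C) (e : ι × κ) : C :=
  (if e.1 = i then c else 1) * p e

lemma bij_scale (hU : (i, j) ∈ U) (hN : ∀ j', (i, j') ∉ N) :
    Bij (MS R k Z U N) (MS R k Z U (insert (i, j) N)).gm
      (fun _ _ _ p e => e.elim (p (i, j)) fun e => rowMul i (Ring.inverse (p (i, j))) p e)
      (fun _ _ _ q e => rowMul i (q none) (fun e => q (some e)) e) where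
  natF {C D} _ _ _ _ f p h t := by
    rcases t with _ | e
    · rfl
    · change f ((if e.1 = i then Ring.inverse (p (i, j)) else 1) * p e) =
        (if e.1 = i then Ring.inverse (f (p (i, j))) else 1) * f (p e)
      have h1 := map_inverse_of_isUnit (f : C →+* D) (h.2.2.1 _ hU)
      rw [map_mul]
      congr 1
      split_ifs
      · exact h1
      · exact map_one f
  natG f p h e := by
    change f ((if e.1 = i then p none else 1) * p (some e)) =
      (if e.1 = i then f (p none) else 1) * f (p (some e))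
    rw [map_mul]
    congr 1
    split_ifs
    · rfl
    · exact map_one f
  memF C _ _ p h := by
    obtain ⟨h1, h2, h3, h4⟩ := h
    have hu := h3 _ hU
    have hu' : IsUnit (Ring.inverse (p (i, j))) := hu.ringInverse
    refine ⟨⟨rankLe_row h1 fun i' => if i' = i then Ring.inverse (p (i, j)) else 1,
      fun e he => ?_, fun e he => ?_, ?_⟩, hu⟩
    · change _ * p e = 0
      rw [h2 e he, mul_zero]
    · refine IsUnit.mul ?_ (h3 e he)
      split_ifs
      · exact hu'
      · exact isUnit_one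
    · rintro e (rfl | he)
      · change (if (i, j).1 = i then Ring.inverse (p (i, j)) else 1) * p (i, j) = 1
        rw [if_pos rfl]
        exact Ring.inverse_mul_cancel _ hu
      · change (if e.1 = i then Ring.inverse (p (i, j)) else 1) * p e = 1
        have h5 : e.1 ≠ i := by
          rintro rfl
          exact hN e.2 he
        rw [if_neg h5, h4 e he, one_mul]
  memG C _ _ q h := by
    obtain ⟨⟨h1, h2, h3, h4⟩, hu⟩ := h
    replace h2 : ∀ e ∈ Z, q (some e) = 0 := h2
    replace h4 : ∀ e ∈ insert (i, j) N, q (some e) = 1 := h4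
    refine ⟨rankLe_row h1 fun i' => if i' = i then q none else 1, fun e he => ?_, fun e he => ?_,
      fun e he => ?_⟩
    · change _ * q (some e) = 0
      rw [h2 e he, mul_zero]
    · refine IsUnit.mul ?_ (h3 e he)
      split_ifs
      · exact hu
      · exact isUnit_one
    · change (if e.1 = i then q none else 1) * q (some e) = 1
      have h5 : e.1 ≠ i := by
        rintro rfl
        exact hN e.2 he
      rw [if_neg h5, h4 e (Or.inr he), one_mul]
  GF C _ _ p h := by
    have hu := h.2.2.1 _ hU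
    funext e
    change (if e.1 = i then p (i, j) else 1) *
      ((if e.1 = i then Ring.inverse (p (i, j)) else 1) * p e) = p e
    split_ifs
    · rw [← mul_assoc, Ring.mul_inverse_cancel _ hu, one_mul]
    · rw [one_mul, one_mul]
  FG C _ _ q h := by
    have hu := h.2
    have h1 : q (some (i, j)) = 1 := h.1.2.2.2 _ (Or.inl rfl)
    have h2 : rowMul i (q none) (fun e => q (some e)) (i, j) = q none := by
      change (if (i, j).1 = i then q none else 1) * q (some (i, j)) = q none
      rw [if_pos rfl, h1, mul_one]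
    funext t
    rcases t with _ | e
    · exact h2
    · change (if e.1 = i then Ring.inverse (rowMul i (q none) (fun e => q (some e)) (i, j))
        else 1) * ((if e.1 = i then q none else 1) * q (some e)) = q (some e)
      rw [h2]
      split_ifs
      · rw [← mul_assoc, Ring.inverse_mul_cancel _ hu, one_mul]
      · rw [one_mul, one_mul]

end scale

section

variable {sep : Prop} {P : Sch R → Prop} (hP : Clo sep P) {k : ℕ} [Finite ι] [Finite κ]

include hP

/-- normalising one row -/
lemma hol_row1 {Z : Set (ι × κ)} {U N : Finset (ι × κ)} [DecidableEq (ι × κ)] {i : ι} {j : κ}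
    (hU : (i, j) ∈ U) (hN : ∀ j', (i, j') ∉ N)
    (h : Hol P (MS R k Z (U : Set (ι × κ)) (N : Set (ι × κ)))) :
    Hol P (MS R k Z (U : Set (ι × κ)) ((insert (i, j) N : Finset (ι × κ)) : Set (ι × κ))) := by
  classical
  refine Hol.of_gm hP (repr_ms k Z U _) ?_
  have h1 := h.trans (bij_scale k Z (U : Set (ι × κ)) (N : Set (ι × κ)) i j hU hN)
  rw [Finset.coe_insert]
  exact h1

/-- normalising some rows -/
lemma hol_rows {Z : Set (ι × κ)} {U N : Finset (ι × κ)} [DecidableEq (ι × κ)] (I : Finset ι)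
    (j : ι → κ) (hU : ∀ i ∈ I, (i, j i) ∈ U) (hN : ∀ i ∈ I, ∀ j', (i, j') ∉ N)
    (h : Hol P (MS R k Z (U : Set (ι × κ)) (N : Set (ι × κ)))) :
    Hol P (MS R k Z (U : Set (ι × κ))
      ((N ∪ I.image fun i => (i, j i) : Finset (ι × κ)) : Set (ι × κ))) := by
  classical
  induction I using Finset.induction_on with
  | empty => rw [Finset.image_empty, Finset.union_empty]; exact h
  | insert i I hi ih =>
    have h1 := ih (fun i' hi' => hU i' (Finset.mem_insert_of_mem hi'))
      fun i' hi' => hN i' (Finset.mem_insert_of_mem hi')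
    rw [Finset.image_insert, Finset.union_insert]
    refine hol_row1 hP (hU i (Finset.mem_insert_self i I)) ?_ h1
    intro j' hj
    rcases Finset.mem_union.mp hj with h2 | h2
    · exact hN i (Finset.mem_insert_self i I) j' h2
    · obtain ⟨i', hi', h3⟩ := Finset.mem_image.mp h2
      have h4 : i' = i := congrArg Prod.fst h3
      exact hi (h4 ▸ hi')

/-- normalising some columns -/
lemma hol_cols {Z : Set (ι × κ)} {U N : Finset (ι × κ)} [DecidableEq (ι × κ)] (J : Finset κ)
    (i : κ → ι) (hU : ∀ j ∈ J, (i j, j) ∈ U) (hN : ∀ j ∈ J, ∀ i', (i', j) ∉ N)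
    (h : Hol P (MS R k Z (U : Set (ι × κ)) (N : Set (ι × κ)))) :
    Hol P (MS R k Z (U : Set (ι × κ))
      ((N ∪ J.image fun j => (i j, j) : Finset (ι × κ)) : Set (ι × κ))) := by
  classical
  have hsw : ∀ E : Finset (ι × κ), sw (E : Set (ι × κ)) = ((E.image Prod.swap : Finset (κ × ι)) :
      Set (κ × ι)) := by
    intro E
    ext e
    change (e.2, e.1) ∈ (E : Set (ι × κ)) ↔ _
    rw [Finset.mem_coe, Finset.mem_coe, Finset.mem_image]
    constructor
    · intro he
      exact ⟨_, he, rfl⟩
    · rintro ⟨e', he, rfl⟩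
      exact he
  have h1 := h.trans (bij_sw k Z (U : Set (ι × κ)) (N : Set (ι × κ)))
  rw [hsw, hsw] at h1
  have h2 := hol_rows hP J i (fun j hj => Finset.mem_image.mpr ⟨_, hU j hj, rfl⟩) (fun j hj i' hi =>
    by
      obtain ⟨e', he, h3⟩ := Finset.mem_image.mp hi
      have h4 : e' = (i', j) := by
        rw [← Prod.swap_swap e', h3]
        rfl
      exact hN j hj i' (h4 ▸ he)) h1
  have h3 := h2.trans (bij_sw k (sw Z) _ _)
  refine Hol.congr (fun C _ _ p => ?_) h3
  constructor
  · rintro ⟨h1, h2, h3, h4⟩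
    refine ⟨h1, h2, fun e he => h3 e (Finset.mem_coe.mpr (Finset.mem_image.mpr ⟨e, he, rfl⟩)),
      fun e he => h4 e ?_⟩
    rcases Finset.mem_union.mp (Finset.mem_coe.mp he) with h5 | h5
    · exact Finset.mem_coe.mpr (Finset.mem_union_left _ (Finset.mem_image.mpr ⟨e, h5, rfl⟩))
    · obtain ⟨j, hj, rfl⟩ := Finset.mem_image.mp h5
      exact Finset.mem_coe.mpr (Finset.mem_union_right _ (Finset.mem_image.mpr ⟨j, hj, rfl⟩))
  · rintro ⟨h1, h2, h3, h4⟩
    refine ⟨h1, h2, fun e he => ?_, fun e he => ?_⟩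
    · obtain ⟨e', he', h5⟩ := Finset.mem_image.mp (Finset.mem_coe.mp he)
      have h6 : e' = e := by
        rw [← Prod.swap_swap e', h5]
        rfl
      exact h3 e (h6 ▸ he')
    · apply h4 e
      rcases Finset.mem_union.mp (Finset.mem_coe.mp he) with h5 | h5
      · obtain ⟨e', he', h5⟩ := Finset.mem_image.mp h5
        have h6 : e' = e := by
          rw [← Prod.swap_swap e', h5]
          rfl
        exact Finset.mem_coe.mpr (Finset.mem_union_left _ (h6 ▸ he'))
      · obtain ⟨j, hj, h5⟩ := Finset.mem_image.mp h5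
        have h6 : (i j, j) = e := by
          rw [← Prod.swap_swap (i j, j)]
          exact congrArg Prod.swap h5
        exact Finset.mem_coe.mpr (Finset.mem_union_right _ (Finset.mem_image.mpr ⟨j, hj, h6⟩))

end

end Pool.Agent.H81.RZ
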