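import Pool.Agent.H81.RZ.Pre
import Pool.Graph.R_pool_sql_team_seeded_1acbe0a2.Y691.TU.Bnd
import Pool.Graph.R_pool_sql_team_seeded_2aa45f1a.Q193.LT.Hir

/-!
# One graded piece of the cohomology
-/

set_option autoImplicit false

open CategoryTheory CategoryTheory.Limits AlgebraicGeometry Pool.Agent.Y116.UV Pool.Agent.Y101.Th
  Pool.Agent.Q193.LT Pool.Agent.Q282.UK Pool.Agent.Y691.TU

namespace Pool.Agent.H81.RZ

universe v u

/-- The property `Q` of the objects of an abelian category is true for zero objects, and closed under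
direct sums and direct summands. -/
structure Fac {C : Type u} [Category.{v} C] [Abelian C] (Q : C → Prop) : Prop where
  zero : ∀ A, IsZero A → Q A
  sum : ∀ A B, Q A → Q B → Q (A ⊞ B)
  summand : ∀ A B (s : A ⟶ B) (r : B ⟶ A), s ≫ r = 𝟙 A → Q B → Q A

variable {k : Type} [Field k] {C : Type u} [Category.{v} C] [Abelian C]

/-- The graded pieces of weight `w` of all cohomology groups with compact supports of `X` have the
property `Q`. -/
def PieceAt (D : Graded k C) (Q : C → Prop) (w : ℤ) (X : Sch k) : Prop := ∀ n : ℤ, Q (D.H X w n)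

/-- Every property of schemes over `k` with two-out-of-three for closed-open decompositions, which is
true for the smooth projective schemes, is true for all separated schemes of finite type. -/
def Devissage (k : Type) [Field k] : Prop :=
  ∀ P : Sch k → Prop, TwoOfThree P → (∀ Y : Sch k, SmProj Y → P Y) → OnAll True P

variable {D : Graded k C} {Q : C → Prop} {w : ℤ}

lemma Fac.iso (hQ : Fac Q) {A B : C} (h : Nonempty (A ≅ B)) (hA : Q A) : Q B := by
  obtain ⟨e⟩ := h
  exact hQ.summand B A e.inv e.hom e.inv_hom_id hA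

theorem two_piece (hC : Semisimple C) (hD : IsGraded D) (hQ : Fac Q) (w : ℤ) :
    TwoOfThree (PieceAt D Q w) where
  iso hX h hP n := hQ.iso (hD.iso hX h w n) (hP n)
  total i j hX ht hZ hU := by
    intro n
    obtain ⟨a, b, d, h⟩ := hD.localization i j hX ht w
    exact mid hC hQ.sum hQ.summand (h n).1 (hU n) (hZ n)
  opened i j hX ht hZ hXX := by
    intro n
    obtain ⟨n, rfl⟩ : ∃ v, n = v + 1 := ⟨n - 1, by ring⟩
    obtain ⟨a, b, d, h⟩ := hD.localization i j hX ht w
    exact mid hC hQ.sum hQ.summand (h n).2.2 (hZ n) (hXX (n + 1))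
  closed i j hX ht hXX hU := by
    intro n
    obtain ⟨a, b, d, h⟩ := hD.localization i j hX ht w
    exact mid hC hQ.sum hQ.summand (h n).2.1 (hXX n) (hU (n + 1))

theorem clo_piece (hC : Semisimple C) (hD : IsGraded D) (hQ : Fac Q) (w : ℤ) :
    Clo True (PieceAt D Q w) where
  iso hX h hP := (two_piece hC hD hQ w).iso hX h hP
  total i j hX ht hZ hU := (two_piece hC hD hQ w).total i j hX ht hZ hU
  opened i j hX ht hZ hXX := (two_piece hC hD hQ w).opened i j hX ht hZ hXX
  torus A _ _ _ h := by
    intro n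
    obtain ⟨s, r, hs⟩ := hD.torus A w n
    exact hQ.summand _ _ s r hs (h (n + 1))

/-- **One graded piece and matrices with prescribed zeros.** -/
theorem piece_iff (hk : Frac k) (hC : Semisimple C) (hD : IsGraded D) (hQ : Fac Q) (w : ℤ) {r : ℕ}
    (hr : 3 ≤ r) :
    (OnRank r (PieceAt D Q w) ↔ OnAll True (PieceAt D Q w)) ∧
    (OnRank r (PieceAt D Q w) → ∀ X : Sch k, SmProj X → Q (D.H X w w)) ∧
    (Devissage k → (∀ X : Sch k, SmProj X → Q (D.H X w w)) → OnRank r (PieceAt D Q w)) := by
  have h1 := clo_rk hk (clo_piece hC hD hQ w) hr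
  refine ⟨h1.symm, fun h X hX => h1.mpr h X hX.ft w, fun hd h => ?_⟩
  refine h1.mp (hd _ (two_piece hC hD hQ w) fun X hX n => ?_)
  by_cases hn : w = n
  · subst hn
    exact h X hX
  · exact hQ.zero _ (hD.pure X hX w n hn)

end Pool.Agent.H81.RZ
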