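import Pool.Agent.H81.RZ.Mn

/-!
# Every algebra of finite type is given by a system of additions and multiplications
-/

set_option autoImplicit false
set_option linter.unusedSectionVars false
set_option linter.unusedVariables false

open CategoryTheory AlgebraicGeometry MvPolynomial Pool.Agent.Y116.UV Pool.Agent.Q193.LT
  Pool.Agent.Q282.UK

namespace Pool.Agent.H81.RZ

section gsys

variable {n t M D : ℕ}

/-- the variables -/
inductive Vg (n t M D : ℕ) : Type
  | o
  | one
  | zero
  | x (i : Fin n)
  | p (l : Fin t) (h : Fin M) (k : Fin (D + 1))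
  | s (l : Fin t) (h : Fin (M + 1))
  deriving DecidableEq, Fintype

/-- the equations -/
inductive Eg (t M D : ℕ) : Type
  | e1
  | e0
  | ep0 (l : Fin t) (h : Fin M)
  | ep (l : Fin t) (h : Fin M) (k : Fin D)
  | es0 (l : Fin t)
  | es (l : Fin t) (h : Fin M)
  | ef (l : Fin t)
  deriving DecidableEq, Fintype

/-- the variable of a letter -/
def lv : Option (Option (Fin n)) → Vg n t M D
  | none => .zero
  | some none => .one
  | some (some i) => .x i

/-- the value of a letter -/
def lw {C : Type} [CommRing C] (y : Fin n → C) : Option (Option (Fin n)) → C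
  | none => 0
  | some none => 1
  | some (some i) => y i

/-- the system of the sums of words -/
def gsys (w : Fin t → Fin M → Fin D → Option (Option (Fin n))) : Sys (Vg n t M D) (Eg t M D) where
  o := .o
  k
    | .e1 => false
    | .e0 => true
    | .ep0 _ _ => false
    | .ep _ _ _ => false
    | .es0 _ => true
    | .es _ _ => true
    | .ef _ => true
  a
    | .e1 => .o
    | .e0 => .one
    | .ep0 _ _ => .one
    | .ep l h k => .p l h k.castSucc
    | .es0 _ => .zero
    | .es l h => .s l h.castSucc
    | .ef l => .s l (Fin.last M)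
  b
    | .e1 => .o
    | .e0 => .o
    | .ep0 _ _ => .one
    | .ep l h k => lv (w l h k)
    | .es0 _ => .zero
    | .es l h => .p l h (Fin.last D)
    | .ef _ => .zero
  c
    | .e1 => .one
    | .e0 => .zero
    | .ep0 l h => .p l h 0
    | .ep l h k => .p l h k.succ
    | .es0 l => .s l 0
    | .es l h => .s l h.succ
    | .ef _ => .zero

variable {C : Type} [CommRing C]

/-- partial products -/
def pp (f : Fin D → C) (k : Fin (D + 1)) : C := ∏ h, if h.val < k.val then f h else 1

lemma pp_zero (f : Fin D → C) : pp f 0 = 1 := by simp [pp]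

lemma pp_succ (f : Fin D → C) (h : Fin D) : pp f h.succ = pp f h.castSucc * f h := by
  have h1 : f h = ∏ j, if j = h then f j else 1 := by simp
  rw [pp, pp, h1, ← Finset.prod_mul_distrib]
  apply Finset.prod_congr rfl
  intro j _
  simp only [Fin.val_succ, Fin.val_castSucc]
  by_cases h2 : j.val < h.val
  · have h3 : j ≠ h := by
      rintro rfl
      omega
    simp [h2, h3]
    omega
  · by_cases h3 : j = h
    · subst h3
      simp
    · have h4 : j.val ≠ h.val := fun h4 => h3 (Fin.ext h4)
      have h5 : ¬ j.val < h.val + 1 := by omega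
      simp [h2, h3, h5]

lemma pp_last (f : Fin D → C) : pp f (Fin.last D) = ∏ h, f h := by
  apply Finset.prod_congr rfl
  intro j _
  rw [if_pos]
  exact j.2

/-- the values of the variables -/
def gval (w : Fin t → Fin M → Fin D → Option (Option (Fin n))) (y : Fin n → C) :
    Vg n t M D → C
  | .o => -1
  | .one => 1
  | .zero => 0
  | .x i => y i
  | .p l h k => pp (fun k => lw y (w l h k)) k
  | .s l h => ps (fun h => ∏ k, lw y (w l h k)) h

/-- the polynomial of a letter -/
noncomputable def lp (R : Type) [CommRing R] : Option (Option (Fin n)) → MvPolynomial (Fin n) R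
  | none => 0
  | some none => 1
  | some (some i) => X i

/-- the polynomials of the system -/
noncomputable def gp (R : Type) [CommRing R] (w : Fin t → Fin M → Fin D → Option (Option (Fin n)))
    (l : Fin t) : MvPolynomial (Fin n) R :=
  ∑ h, ∏ k, lp R (w l h k)

lemma aeval_gp {R : Type} [CommRing R] [Algebra R C]
    (w : Fin t → Fin M → Fin D → Option (Option (Fin n))) (l : Fin t) (y : Fin n → C) :
    aeval y (gp R w l) = ∑ h, ∏ k, lw y (w l h k) := by
  rw [gp, map_sum]
  apply Finset.sum_congr rfl
  intro h _
  rw [map_prod]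
  apply Finset.prod_congr rfl
  intro k _
  rcases w l h k with _ | _ | i
  · exact map_zero _
  · exact map_one _
  · exact aeval_X _ _

section vals

variable (w : Fin t → Fin M → Fin D → Option (Option (Fin n))) {x : Vg n t M D → C}
  (h0 : x .o = -1)
  (h : ∀ e, (if (gsys w).k e then x ((gsys w).a e) + x ((gsys w).b e) else
    x ((gsys w).a e) * x ((gsys w).b e)) = x ((gsys w).c e))

include h0 h

lemma g_one : x .one = 1 := by
  have h1 : x .o * x .o = x .one := h .e1
  rw [← h1, h0]
  ring

lemma g_zero : x .zero = 0 := by
  have h1 : x .one + x .o = x .zero := h .e0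
  rw [← h1, g_one w h0 h, h0]
  ring

lemma g_lv (u : Option (Option (Fin n))) : x (lv u) = lw (fun i => x (.x i)) u := by
  rcases u with _ | _ | i
  · exact g_zero w h0 h
  · exact g_one w h0 h
  · rfl

lemma g_p (l : Fin t) (j : Fin M) (k : Fin (D + 1)) :
    x (.p l j k) = pp (fun k => lw (fun i => x (.x i)) (w l j k)) k := by
  induction k using Fin.induction with
  | zero =>
    have h1 : x .one * x .one = x (.p l j 0) := h (.ep0 l j)
    rw [← h1, pp_zero, g_one w h0 h, mul_one]
  | succ k ih =>
    have h1 : x (.p l j k.castSucc) * x (lv (w l j k)) = x (.p l j k.succ) := h (.ep l j k)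
    rw [← h1, pp_succ, ih, g_lv w h0 h]

lemma g_s (l : Fin t) (j : Fin (M + 1)) :
    x (.s l j) = ps (fun j => ∏ k, lw (fun i => x (.x i)) (w l j k)) j := by
  induction j using Fin.induction with
  | zero =>
    have h1 : x .zero + x .zero = x (.s l 0) := h (.es0 l)
    rw [← h1, ps_zero, g_zero w h0 h, add_zero]
  | succ j ih =>
    have h1 : x (.s l j.castSucc) + x (.p l j (Fin.last D)) = x (.s l j.succ) := h (.es l j)
    rw [← h1, ps_succ, ih, g_p w h0 h, pp_last]

lemma g_last (l : Fin t) : ∑ j, ∏ k, lw (fun i => x (.x i)) (w l j k) = 0 := by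
  have h1 : x (.s l (Fin.last M)) + x .zero = x .zero := h (.ef l)
  rw [g_zero w h0 h, add_zero, g_s w h0 h, ps_last] at h1
  exact h1

end vals

lemma bij_gsys (R : Type) [CommRing R] (w : Fin t → Fin M → Fin D → Option (Option (Fin n))) :
    Bij (slp R (gsys w)) (zer (Set.range (gp R w)))
      (fun _ _ _ x i => x (.x i)) (fun _ _ _ y => gval w y) where
  natF f x _ i := rfl
  natG f y _ v := by
    have h1 : ∀ u, f (lw y u) = lw (fun i => f (y i)) u := by
      intro u
      rcases u with _ | _ | i
      · exact map_zero f
      · exact map_one f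
      · rfl
    cases v with
    | o => exact (map_neg f 1).trans (by rw [map_one]; rfl)
    | one => exact map_one f
    | zero => exact map_zero f
    | x i => rfl
    | p l h k =>
      change f (pp _ k) = pp _ k
      rw [pp, map_prod]
      apply Finset.prod_congr rfl
      intro j _
      split_ifs
      · exact h1 _
      · exact map_one f
    | s l h =>
      change f (ps _ h) = ps _ h
      rw [ps, map_sum]
      apply Finset.sum_congr rfl
      intro j _
      split_ifs
      · rw [map_prod]
        exact Finset.prod_congr rfl fun k _ => h1 _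
      · exact map_zero f
  memF C _ _ x h := by
    rintro _ ⟨l, rfl⟩
    rw [aeval_gp]
    exact g_last w h.1 h.2 l
  memG C _ _ y h := by
    refine ⟨rfl, fun e => ?_⟩
    cases e with
    | e1 => exact (neg_mul_neg 1 1).trans (one_mul 1)
    | e0 => exact add_neg_cancel 1
    | ep0 l j => exact (one_mul 1).trans (pp_zero _).symm
    | ep l j k =>
      have h1 : gval w y (lv (w l j k)) = lw y (w l j k) := by
        rcases w l j k with _ | _ | i <;> rfl
      change pp _ k.castSucc * gval w y (lv (w l j k)) = pp _ k.succ
      rw [h1, pp_succ]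
    | es0 l => exact (add_zero 0).trans (ps_zero _).symm
    | es l j =>
      change ps _ j.castSucc + pp _ (Fin.last D) = ps _ j.succ
      rw [pp_last, ps_succ]
    | ef l =>
      change ps _ (Fin.last M) + 0 = 0
      rw [ps_last, add_zero]
      have h1 := h _ ⟨l, rfl⟩
      rwa [aeval_gp] at h1
  GF C _ _ x h := by
    funext v
    cases v with
    | o => exact h.1.symm
    | one => exact (g_one w h.1 h.2).symm
    | zero => exact (g_zero w h.1 h.2).symm
    | x i => rfl
    | p l j k => exact (g_p w h.1 h.2 l j k).symm
    | s l j => exact (g_s w h.1 h.2 l j).symm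
  FG C _ _ y h := rfl

end gsys

section words

lemma prod_word {α C : Type} [CommMonoid C] (f : α → C) (D : ℕ) (L : List α) (h : L.length ≤ D) :
    ∏ k : Fin D, (if h : k.val < L.length then f L[k.val] else 1) = (L.map f).prod := by
  induction D generalizing L with
  | zero =>
    have h1 : L = [] := List.length_eq_zero_iff.mp (by omega)
    subst h1
    simp
  | succ D ih =>
    rw [Fin.prod_univ_succ]
    rcases L with _ | ⟨a, L⟩
    · simp
    · have h1 := ih L (by simpa using h)
      rw [List.map_cons, List.prod_cons, ← h1]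
      congr 1
      apply Finset.prod_congr rfl
      intro k _
      simp

lemma sum_word {α C : Type} [AddCommMonoid C] (f : α → C) (D : ℕ) (L : List α)
    (h : L.length ≤ D) :
    ∑ k : Fin D, (if h : k.val < L.length then f L[k.val] else 0) = (L.map f).sum := by
  induction D generalizing L with
  | zero =>
    have h1 : L = [] := List.length_eq_zero_iff.mp (by omega)
    subst h1
    simp
  | succ D ih =>
    rw [Fin.sum_univ_succ]
    rcases L with _ | ⟨a, L⟩
    · simp
    · have h1 := ih L (by simpa using h)
      rw [List.map_cons, List.sum_cons, ← h1]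
      congr 1
      apply Finset.sum_congr rfl
      intro k _
      simp

variable {n : ℕ} {R : Type} [CommRing R]

/-- the word of a monomial -/
noncomputable def wd (D : ℕ) (m : Fin n →₀ ℕ) (k : Fin D) : Option (Option (Fin n)) :=
  if h : k.val < m.toMultiset.toList.length then some (some m.toMultiset.toList[k.val]) else some none

lemma prod_wd (D : ℕ) (m : Fin n →₀ ℕ) (h : m.degree ≤ D) :
    ∏ k, lp R (wd D m k) = monomial m 1 := by
  have h1 : m.toMultiset.toList.length ≤ D := by
    rw [Multiset.length_toList, Finsupp.card_toMultiset]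
    exact h
  have h2 : ∀ k : Fin D, lp R (wd D m k) = if h : k.val < m.toMultiset.toList.length then
      (X m.toMultiset.toList[k.val] : MvPolynomial (Fin n) R) else 1 := by
    intro k
    by_cases hk : k.val < m.toMultiset.toList.length
    · rw [wd, dif_pos hk, dif_pos hk]
      rfl
    · rw [wd, dif_neg hk, dif_neg hk]
      rfl
  rw [Finset.prod_congr rfl fun k _ => h2 k, prod_word _ D _ h1]
  have h3 : (m.toMultiset.toList.map (X : Fin n → MvPolynomial (Fin n) R)).prod =
      (m.toMultiset.map (X : Fin n → MvPolynomial (Fin n) R)).prod := by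
    conv_rhs => rw [← Multiset.coe_toList m.toMultiset]
    rw [Multiset.map_coe, Multiset.prod_coe]
  rw [h3, monomial_eq, map_one, one_mul, Finsupp.toMultiset_map, Finsupp.prod_toMultiset,
    Finsupp.prod_mapDomain_index (fun _ => pow_zero _) fun _ _ _ => pow_add _ _ _]

/-- every polynomial with the coefficients `0` and `1` is a sum of words -/
lemma exists_words (M D : ℕ) (g : MvPolynomial (Fin n) R)
    (hg : ∀ m, coeff m g ∈ ({0, 1} : Set R)) (hM : g.support.card ≤ M)
    (hD : ∀ m ∈ g.support, m.degree ≤ D) (hD' : 0 < D) :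
    ∃ w : Fin M → Fin D → Option (Option (Fin n)), ∑ h, ∏ k, lp R (w h k) = g := by
  classical
  let L : List (Fin n →₀ ℕ) := g.support.toList
  have hL : L.length = g.support.card := Finset.length_toList _
  let w : Fin M → Fin D → Option (Option (Fin n)) := fun h k =>
    if hh : h.val < L.length then wd D L[h.val] k else none
  refine ⟨w, ?_⟩
  have h1 : ∀ h : Fin M, ∏ k, lp R (w h k) =
      if hh : h.val < L.length then (monomial L[h.val] 1 : MvPolynomial (Fin n) R) else 0 := by
    intro h
    by_cases hh : h.val < L.length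
    · rw [dif_pos hh, ← prod_wd D _ (hD _ (by
        have h2 : L[h.val] ∈ L := List.getElem_mem hh
        exact Finset.mem_toList.mp h2))]
      apply Finset.prod_congr rfl
      intro k _
      simp only [w, dif_pos hh]
    · rw [dif_neg hh]
      apply Finset.prod_eq_zero (Finset.mem_univ (⟨0, hD'⟩ : Fin D))
      simp only [w, dif_neg hh]
      rfl
  rw [Finset.sum_congr rfl fun h _ => h1 h]
  have h2 : ∑ h : Fin M, (if hh : h.val < L.length then
      (monomial L[h.val] 1 : MvPolynomial (Fin n) R) else 0) =
      (L.map fun m => (monomial m 1 : MvPolynomial (Fin n) R)).sum :=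
    sum_word (fun m : Fin n →₀ ℕ => (monomial m 1 : MvPolynomial (Fin n) R)) M L (by omega)
  rw [h2]
  have h3 : (L.map fun m => (monomial m 1 : MvPolynomial (Fin n) R)).sum =
      ∑ m ∈ g.support, monomial m 1 := Finset.sum_map_toList _ _
  rw [h3]
  conv_rhs => rw [g.as_sum]
  apply Finset.sum_congr rfl
  intro m hm
  rcases hg m with h4 | h4
  · exact absurd h4 (mem_support_iff.mp hm)
  · rw [h4]

/-- every finite set of polynomials with the coefficients `0` and `1` is given by words -/
lemma exists_gp (G : Finset (MvPolynomial (Fin n) R))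
    (hG : ∀ g ∈ G, ∀ m, coeff m g ∈ ({0, 1} : Set R)) :
    ∃ (t M D : ℕ) (w : Fin t → Fin M → Fin D → Option (Option (Fin n))),
      Set.range (gp R w) = (G : Set (MvPolynomial (Fin n) R)) := by
  classical
  let M : ℕ := ∑ g ∈ G, g.support.card
  let D : ℕ := (∑ g ∈ G, ∑ m ∈ g.support, m.degree) + 1
  have h1 : ∀ g ∈ G, ∃ w : Fin M → Fin D → Option (Option (Fin n)),
      ∑ h, ∏ k, lp R (w h k) = g := by
    intro g hg
    refine exists_words M D g (hG g hg)
      (Finset.single_le_sum (f := fun g : MvPolynomial (Fin n) R => g.support.card)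
        (fun _ _ => Nat.zero_le _) hg) (fun m hm => ?_) (Nat.succ_pos _)
    have h2 : m.degree ≤ ∑ m ∈ g.support, m.degree :=
      Finset.single_le_sum (f := fun m : Fin n →₀ ℕ => m.degree) (fun _ _ => Nat.zero_le _) hm
    have h3 : ∑ m ∈ g.support, m.degree ≤ ∑ g ∈ G, ∑ m ∈ g.support, m.degree :=
      Finset.single_le_sum (f := fun g : MvPolynomial (Fin n) R => ∑ m ∈ g.support, m.degree)
        (fun _ _ => Nat.zero_le _) hg
    omega
  choose w hw using h1
  let e := G.equivFin
  refine ⟨G.card, M, D, fun l => w (e.symm l).1 (e.symm l).2, ?_⟩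
  ext g
  constructor
  · rintro ⟨l, rfl⟩
    change ∑ h, ∏ k, lp R (w (e.symm l).1 (e.symm l).2 h k) ∈ (G : Set (MvPolynomial (Fin n) R))
    rw [hw]
    exact (e.symm l).2
  · intro hg
    refine ⟨e ⟨g, hg⟩, ?_⟩
    change ∑ h, ∏ k, lp R (w (e.symm (e ⟨g, hg⟩)).1 (e.symm (e ⟨g, hg⟩)).2 h k) = g
    rw [hw, Equiv.symm_apply_apply]

end words

/-- Systems of additions and multiplications decide all affine schemes. -/
theorem affine_of_slp {R : Type} [CommRing R] [IsNoetherianRing R] (hR : Frac R) {sep : Prop}
    {P : Sch R → Prop} (hP : Clo sep P)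
    (h : ∀ (V E : Type) [Fintype V] [Fintype E] [DecidableEq V] [DecidableEq E] (Y : Sys V E),
      Hol P (slp R Y)) (A : Type) [CommRing A] [Algebra R A] [Algebra.FiniteType R A] :
    P (aff R A) := by
  obtain ⟨n, φ, G, hs, hk, hG⟩ := presents_frac hR A
  obtain ⟨t, M, D, w, hw⟩ := exists_gp G hG
  have h1 : P (aff R (MvPolynomial (Fin n) R ⧸ Ideal.span (Set.range (gp R w)))) :=
    ((h _ _ (gsys w)).trans (bij_gsys R w)).of_rep hP (rep_zer _)
  rw [hw, ← hk] at h1
  exact clo_alg hP (Ideal.quotientKerAlgEquivOfSurjective hs) h1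

/-- Systems of additions and multiplications decide all schemes of finite type. -/
theorem all_of_slp {R : Type} [CommRing R] [IsNoetherianRing R] (hR : Frac R) {sep : Prop}
    {P : Sch R → Prop} (hP : Clo sep P)
    (h : ∀ (V E : Type) [Fintype V] [Fintype E] [DecidableEq V] [DecidableEq E] (Y : Sys V E),
      Hol P (slp R Y)) (X : Sch R) (hX : FT sep X) : P X :=
  of_affine' hP.iso hP.total (fun A _ _ _ => affine_of_slp hR hP h A) X hX

/-- **Universality of the matrices of rank at most `r` with prescribed zeros, in one weight.** Every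
property which is closed under closed-open decompositions (in the sense of `Clo`) and which descends
along `X × 𝔾_m → X` is true for all schemes of finite type as soon as it is true for all schemes of
matrices of rank at most `r` with prescribed zeros, for one `r ≥ 3`. -/
theorem clo_rk {R : Type} [CommRing R] [IsNoetherianRing R] (hR : Frac R) {sep : Prop}
    {P : Sch R → Prop} (hP : Clo sep P) {r : ℕ} (hr : 3 ≤ r) :
    OnAll sep P ↔ OnRank r P := by
  constructor
  · intro h m n Z
    exact h _ (ft_aff sep)
  · intro h X hX
    obtain ⟨s, rfl⟩ := Nat.exists_eq_add_of_le hr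
    exact all_of_slp hR hP (fun _ _ _ _ _ _ Y => hol_slp hP Y fun Z => hol_fin h (k := 3 + s) Z) X hX

end Pool.Agent.H81.RZ
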