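import Pool.Agent.H81.RZ.Gl

/-!
# From symmetric matrices with prescribed zeros off the diagonal to all matrices

The matrices have the rows and columns `A ⊕ B`; the block of `A` is diagonal, the block of `B` is an
arbitrary symmetric matrix.
-/

set_option autoImplicit false
set_option linter.unusedSectionVars false

open CategoryTheory AlgebraicGeometry MvPolynomial Pool.Agent.Y116.UV Pool.Agent.Z125.UN
  Pool.Agent.Q193.LT

namespace Pool.Agent.H81.RZ

variable {R : Type} [CommRing R] {sep : Prop} {P : Sch R → Prop}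

section reaff

variable {σ : Type}

lemma bij_aff_equiv (S : Pts R σ) {τ τ' : Type} (e : τ ≃ τ') : Bij (S.aff τ') (S.aff τ)
    (fun _ _ _ p t => Sum.elim (fun s => p (.inl s)) (fun t => p (.inr (e t))) t)
    (fun _ _ _ p t => Sum.elim (fun s => p (.inl s)) (fun t => p (.inr (e.symm t))) t) where
  natF f p _ t := by rcases t with s | t <;> rfl
  natG f p _ t := by rcases t with s | t <;> rfl
  memF C _ _ p h := h
  memG C _ _ p h := h
  GF C _ _ p _ := by
    funext t
    rcases t with s | t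
    · rfl
    · change p (.inr (e (e.symm t))) = p (.inr t)
      rw [Equiv.apply_symm_apply]
  FG C _ _ p _ := by
    funext t
    rcases t with s | t
    · rfl
    · change p (.inr (e.symm (e t))) = p (.inr t)
      rw [Equiv.symm_apply_apply]

lemma hol_of_aff (hP : Uni sep P) {S : Pts R σ} (hS : Repr S) (τ : Type) [Finite τ]
    (h : Hol P (S.aff τ)) : Hol P S := by
  have : Fintype τ := Fintype.ofFinite τ
  exact Hol.of_aff hP hS (h.trans (bij_aff_equiv S (Fintype.equivFin τ).symm))

end reaff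

section sy

variable {A B : Type} [Fintype A] [Fintype B] [DecidableEq A] [DecidableEq B]

/-- invertible symmetric matrices whose block `A` is diagonal, with zeros on the diagonal at `O`,
and with zeros at `Z` outside of the two blocks -/
def sy (R : Type) [CommRing R] (Z : Set (A × B)) (O : Set A) : Pts R ((A ⊕ B) × (A ⊕ B)) where
  pts _ _ _ p := ((∀ x y, p (x, y) = p (y, x)) ∧ (∀ a a', a ≠ a' → p (.inl a, .inl a') = 0) ∧
    (∀ a ∈ O, p (.inl a, .inl a) = 0) ∧ (∀ e ∈ Z, p (.inl e.1, .inr e.2) = 0)) ∧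
    IsUnit (Matrix.of fun x y => p (x, y)).det
  map {C D} _ _ _ _ f p h := by
    obtain ⟨⟨h1, h2, h3, h4⟩, h5⟩ := h
    refine ⟨⟨fun x y => congrArg f (h1 x y), fun a b hab => (congrArg f (h2 a b hab)).trans
      (map_zero f), fun a ha => (congrArg f (h3 a ha)).trans (map_zero f),
      fun e he => (congrArg f (h4 e he)).trans (map_zero f)⟩, ?_⟩
    have h6 := h5.map (f : C →+* D)
    rw [RingHom.map_det] at h6
    exact h6

variable (a : A)

/-- the column of `a` outside of `a` -/
def cl {C : Type} [CommRing C] (p : (A ⊕ B) × (A ⊕ B) → C) (x : A ⊕ B) : C :=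
  if x = .inl a then 0 else p (x, .inl a)

/-- the transvection -/
def tv {C : Type} [CommRing C] (w : A ⊕ B → C) : Matrix (A ⊕ B) (A ⊕ B) C :=
  1 + Matrix.replicateCol Unit w * Matrix.replicateRow Unit (Pi.single (Sum.inl a) 1 : A ⊕ B → C)

lemma tv_det {C : Type} [CommRing C] (w : A ⊕ B → C) (hw : w (.inl a) = 0) : (tv a w).det = 1 := by
  rw [tv, Matrix.det_one_add_replicateCol_mul_replicateRow]
  simp [hw]

/-- transforming a symmetric matrix by a transvection -/
lemma tv_mul {C : Type} [CommRing C] (w : A ⊕ B → C) (M : Matrix (A ⊕ B) (A ⊕ B) C)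
    (x y : A ⊕ B) : (tv a w * M * (tv a w).transpose) x y =
      M x y + w x * M (.inl a) y + M x (.inl a) * w y + w x * M (.inl a) (.inl a) * w y := by
  have h1 : ∀ (N : Matrix (A ⊕ B) (A ⊕ B) C) x y,
      (tv a w * N) x y = N x y + w x * N (.inl a) y := by
    intro N x y
    rw [tv, Matrix.add_mul, Matrix.one_mul, Matrix.add_apply, Matrix.mul_assoc]
    congr 1
    simp [Matrix.mul_apply, Pi.single_apply]
  have h2 : tv a w * M * (tv a w).transpose = (tv a w * (tv a w * M).transpose).transpose := by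
    rw [Matrix.transpose_mul, Matrix.transpose_transpose]
  rw [h2, Matrix.transpose_apply, h1, Matrix.transpose_apply, Matrix.transpose_apply, h1, h1]
  ring

/-- one more zero on the diagonal: the first map -/
noncomputable def pv1 {C : Type} [CommRing C] (p : (A ⊕ B) × (A ⊕ B) → C)
    (e : (A ⊕ B) × (A ⊕ B)) : C :=
  if e.1 = .inl a ∨ e.2 = .inl a then (if e.1 = e.2 then p e else 0)
  else p e - p (e.1, .inl a) * Ring.inverse (p (.inl a, .inl a)) * p (.inl a, e.2)

/-- the free column -/
noncomputable def ub (Z : Set (A × B)) {C : Type} [CommRing C] (u : {b : B // (a, b) ∉ Z} → C) :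
    A ⊕ B → C
  | .inl _ => 0
  | .inr b => open Classical in if h : (a, b) ∉ Z then u ⟨b, h⟩ else 0

/-- the second map -/
noncomputable def pv2 {C : Type} [CommRing C] (q : (A ⊕ B) × (A ⊕ B) → C) (u : A ⊕ B → C)
    (e : (A ⊕ B) × (A ⊕ B)) : C :=
  q e + Ring.inverse (q (.inl a, .inl a)) * u e.1 * u e.2 +
    (if e.2 = .inl a then u e.1 else 0) + (if e.1 = .inl a then u e.2 else 0)

/-- the zeros of the smaller matrix -/
def za (Z : Set (A × B)) : Set (A × B) := {e | e ∈ Z ∨ e.1 = a}

lemma pv2_det {C : Type} [CommRing C] (q : (A ⊕ B) × (A ⊕ B) → C) (u : A ⊕ B → C)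
    (hq : IsUnit (q (.inl a, .inl a))) (hu : u (.inl a) = 0)
    (hq1 : ∀ x, x ≠ .inl a → q (x, .inl a) = 0) (hq2 : ∀ x, x ≠ .inl a → q (.inl a, x) = 0) :
    (Matrix.of fun x y => pv2 a q u (x, y)).det = (Matrix.of fun x y => q (x, y)).det := by
  let w : A ⊕ B → C := fun x => u x * Ring.inverse (q (.inl a, .inl a))
  have hw : w (.inl a) = 0 := by
    change u (.inl a) * _ = 0
    rw [hu, zero_mul]
  have h1 : (Matrix.of fun x y => pv2 a q u (x, y)) =
      tv a w * (Matrix.of fun x y => q (x, y)) * (tv a w).transpose := by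
    ext x y
    rw [tv_mul]
    have hi := Ring.inverse_mul_cancel _ hq
    change q (x, y) + Ring.inverse (q (.inl a, .inl a)) * u x * u y +
      (if y = .inl a then u x else 0) + (if x = .inl a then u y else 0) =
      q (x, y) + u x * Ring.inverse (q (.inl a, .inl a)) * q (.inl a, y) +
        q (x, .inl a) * (u y * Ring.inverse (q (.inl a, .inl a))) +
        u x * Ring.inverse (q (.inl a, .inl a)) * q (.inl a, .inl a) *
          (u y * Ring.inverse (q (.inl a, .inl a)))
    by_cases hx : x = .inl a <;> by_cases hy : y = .inl a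
    · subst hx
      subst hy
      rw [if_pos rfl, hu]
      ring
    · subst hx
      rw [if_neg hy, if_pos rfl, hu, hq2 y hy]
      linear_combination -(u y) * hi
    · subst hy
      rw [if_neg hx, if_pos rfl, hu, hq1 x hx]
      linear_combination -(u x) * hi
    · rw [if_neg hx, if_neg hy, hq1 x hx, hq2 y hy]
      linear_combination -(Ring.inverse (q (.inl a, .inl a)) * u x * u y) * hi
  rw [h1, Matrix.det_mul, Matrix.det_mul, Matrix.det_transpose, tv_det a w hw, one_mul, mul_one]

section facts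

variable {Z : Set (A × B)} {O : Set A} {C : Type} [CommRing C] [Algebra R C]

lemma ub_inl (u : {b : B // (a, b) ∉ Z} → C) (a' : A) : ub a Z u (.inl a') = 0 := rfl

lemma ub_mem (u : {b : B // (a, b) ∉ Z} → C) (b : {b : B // (a, b) ∉ Z}) :
    ub a Z u (.inr b.1) = u b := dif_pos b.2

/-- the column is recovered -/
lemma ub_of {p : (A ⊕ B) × (A ⊕ B) → C} (h : (sy R Z O).pts C p) (x : A ⊕ B) (hx : x ≠ .inl a) :
    ub a Z (fun b => p (.inl a, .inr b.1)) x = p (.inl a, x) := by
  classical
  rcases x with a' | b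
  · exact (h.1.2.1 a a' fun h => hx (h ▸ rfl)).symm
  · change (if h : (a, b) ∉ Z then p (.inl a, .inr b) else 0) = _
    by_cases hb : (a, b) ∉ Z
    · rw [dif_pos hb]
    · rw [dif_neg hb]
      exact (h.1.2.2.2 (a, b) (not_not.mp hb)).symm

/-- the smaller matrix has zeros in the row of `a` -/
lemma za_zero {q : (A ⊕ B) × (A ⊕ B) → C} (h : (sy R (za a Z) O).pts C q) (x : A ⊕ B)
    (hx : x ≠ .inl a) : q (.inl a, x) = 0 := by
  rcases x with a' | b
  · exact h.1.2.1 a a' fun h => hx (h ▸ rfl)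
  · exact h.1.2.2.2 (a, b) (Or.inr rfl)

lemma za_zero' {q : (A ⊕ B) × (A ⊕ B) → C} (h : (sy R (za a Z) O).pts C q) (x : A ⊕ B)
    (hx : x ≠ .inl a) : q (x, .inl a) = 0 := by
  rw [h.1.1 x (.inl a)]
  exact za_zero a h x hx

lemma za_unit {q : (A ⊕ B) × (A ⊕ B) → C} (h : (sy R (za a Z) O).pts C q) :
    IsUnit (q (.inl a, .inl a)) := by
  have h1 := h.2
  rw [Matrix.det_eq_sum_mul_adjugate_row _ (.inl a), Finset.sum_eq_single (.inl a)] at h1
  · exact isUnit_of_mul_isUnit_left h1
  · intro x _ hx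
    change q (.inl a, x) * _ = 0
    rw [za_zero a h x hx, zero_mul]
  · intro h
    exact absurd (Finset.mem_univ _) h

lemma pv2_aa (q : (A ⊕ B) × (A ⊕ B) → C) (u : A ⊕ B → C) (hu : u (.inl a) = 0) :
    pv2 a q u (.inl a, .inl a) = q (.inl a, .inl a) := by
  change q _ + _ * u (.inl a) * u (.inl a) + (if (Sum.inl a : A ⊕ B) = .inl a then u (.inl a) else 0) +
    (if (Sum.inl a : A ⊕ B) = .inl a then u (.inl a) else 0) = _
  rw [hu, if_pos rfl]
  ring

lemma pv2_xa (q : (A ⊕ B) × (A ⊕ B) → C) (u : A ⊕ B → C) (hu : u (.inl a) = 0) {x : A ⊕ B}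
    (hx : x ≠ .inl a) (hq : q (x, .inl a) = 0) : pv2 a q u (x, .inl a) = u x := by
  change q (x, .inl a) + _ * u x * u (.inl a) + (if (Sum.inl a : A ⊕ B) = .inl a then u x else 0) +
    (if x = .inl a then u (.inl a) else 0) = _
  rw [hu, hq, if_pos rfl, if_neg hx]
  ring

lemma pv2_ax (q : (A ⊕ B) × (A ⊕ B) → C) (u : A ⊕ B → C) (hu : u (.inl a) = 0) {x : A ⊕ B}
    (hx : x ≠ .inl a) (hq : q (.inl a, x) = 0) : pv2 a q u (.inl a, x) = u x := by
  change q (.inl a, x) + _ * u (.inl a) * u x + (if x = .inl a then u (.inl a) else 0) +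
    (if (Sum.inl a : A ⊕ B) = .inl a then u x else 0) = _
  rw [hu, hq, if_pos rfl, if_neg hx]
  ring

lemma pv2_xy (q : (A ⊕ B) × (A ⊕ B) → C) (u : A ⊕ B → C) {x y : A ⊕ B}
    (hx : x ≠ .inl a) (hy : y ≠ .inl a) : pv2 a q u (x, y) =
      q (x, y) + Ring.inverse (q (.inl a, .inl a)) * u x * u y := by
  change q (x, y) + _ * u x * u y + (if y = .inl a then u x else 0) +
    (if x = .inl a then u y else 0) = _
  rw [if_neg hx, if_neg hy]
  ring

lemma pv1_aa (p : (A ⊕ B) × (A ⊕ B) → C) : pv1 a p (.inl a, .inl a) = p (.inl a, .inl a) := by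
  change (if _ ∨ _ then (if (Sum.inl a : A ⊕ B) = .inl a then _ else _) else _) = _
  rw [if_pos (Or.inl rfl), if_pos rfl]

lemma pv1_ax (p : (A ⊕ B) × (A ⊕ B) → C) {x : A ⊕ B} (hx : x ≠ .inl a) :
    pv1 a p (.inl a, x) = 0 := by
  change (if _ ∨ _ then (if (Sum.inl a : A ⊕ B) = x then _ else _) else _) = _
  rw [if_pos (Or.inl rfl), if_neg (Ne.symm hx)]

lemma pv1_xa (p : (A ⊕ B) × (A ⊕ B) → C) {x : A ⊕ B} (hx : x ≠ .inl a) :
    pv1 a p (x, .inl a) = 0 := by
  change (if _ ∨ _ then (if x = (Sum.inl a : A ⊕ B) then _ else _) else _) = _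
  rw [if_pos (Or.inr rfl), if_neg hx]

lemma pv1_xy (p : (A ⊕ B) × (A ⊕ B) → C) {x y : A ⊕ B} (hx : x ≠ .inl a) (hy : y ≠ .inl a) :
    pv1 a p (x, y) = p (x, y) - p (x, .inl a) * Ring.inverse (p (.inl a, .inl a)) *
      p (.inl a, y) := by
  change (if x = .inl a ∨ y = .inl a then _ else _) = _
  rw [if_neg]
  rintro (h | h)
  · exact hx h
  · exact hy h

lemma pv2_pv1 {p : (A ⊕ B) × (A ⊕ B) → C} (h : (sy R Z O).pts C p) :
    pv2 a (pv1 a p) (ub a Z fun b => p (.inl a, .inr b.1)) = p := by
  have hs := h.1.1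
  funext e
  obtain ⟨x, y⟩ := e
  by_cases hx : x = .inl a <;> by_cases hy : y = .inl a
  · subst hx
    subst hy
    rw [pv2_aa a _ _ (ub_inl a _ a), pv1_aa]
  · subst hx
    rw [pv2_ax a _ _ (ub_inl a _ a) hy (pv1_ax a p hy), ub_of a h y hy]
  · subst hy
    rw [pv2_xa a _ _ (ub_inl a _ a) hx (pv1_xa a p hx), ub_of a h x hx, hs]
  · rw [pv2_xy a _ _ hx hy, pv1_xy a p hx hy, pv1_aa, ub_of a h x hx, ub_of a h y hy,
      hs x (.inl a)]
    ring

end facts

/-- the diagonal entry -/
def dgFn (R : Type) [CommRing R] (Z : Set (A × B)) (O : Set A) : Fn (sy R Z O) where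
  val _ _ _ p := p (.inl a, .inl a)
  nat _ _ _ := rfl

lemma bij_pv (Z : Set (A × B)) (O : Set A) (ha : a ∉ O) : Bij ((sy R Z O).opn (dgFn a R Z O))
    ((sy R (za a Z) O).aff {b : B // (a, b) ∉ Z})
    (fun _ _ _ p t => Sum.elim (pv1 a p) (fun b => p (.inl a, .inr b.1)) t)
    (fun _ _ _ q e => pv2 a (fun e => q (.inl e)) (ub a Z fun b => q (.inr b)) e) where
  natF {C D} _ _ _ _ f p hp t := by
    rcases t with e | b
    · change f (if e.1 = .inl a ∨ e.2 = .inl a then (if e.1 = e.2 then p e else 0)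
        else p e - p (e.1, .inl a) * Ring.inverse (p (.inl a, .inl a)) * p (.inl a, e.2)) =
        (if e.1 = .inl a ∨ e.2 = .inl a then (if e.1 = e.2 then f (p e) else 0)
        else f (p e) - f (p (e.1, .inl a)) * Ring.inverse (f (p (.inl a, .inl a))) *
          f (p (.inl a, e.2)))
      have h1 := map_inverse_of_isUnit (f : C →+* D) hp.2
      split_ifs
      · rfl
      · exact map_zero f
      · rw [map_sub, map_mul, map_mul]
        congr 3
    · rfl
  natG {C D} _ _ _ _ f q hq e := by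
    classical
    have hq' : (sy R (za a Z) O).pts C fun e => q (.inl e) := hq
    have h1 := map_inverse_of_isUnit (f : C →+* D) (za_unit a hq')
    have h2 : ∀ x, f (ub a Z (fun b => q (.inr b)) x) = ub a Z (fun b => f (q (.inr b))) x := by
      intro x
      rcases x with a' | b
      · exact map_zero f
      · change f (if h : (a, b) ∉ Z then q (.inr ⟨b, h⟩) else 0) =
          if h : (a, b) ∉ Z then f (q (.inr ⟨b, h⟩)) else 0
        by_cases h : (a, b) ∉ Z
        · rw [dif_pos h, dif_pos h]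
        · rw [dif_neg h, dif_neg h]
          exact map_zero f
    have h3 : f (Ring.inverse (q (.inl (.inl a, .inl a)))) =
      Ring.inverse (f (q (.inl (.inl a, .inl a)))) := h1
    change f (q (.inl e) + Ring.inverse (q (.inl (.inl a, .inl a))) *
      ub a Z (fun b => q (.inr b)) e.1 * ub a Z (fun b => q (.inr b)) e.2 +
      (if e.2 = .inl a then ub a Z (fun b => q (.inr b)) e.1 else 0) +
      (if e.1 = .inl a then ub a Z (fun b => q (.inr b)) e.2 else 0)) =
      f (q (.inl e)) + Ring.inverse (f (q (.inl (.inl a, .inl a)))) *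
      ub a Z (fun b => f (q (.inr b))) e.1 * ub a Z (fun b => f (q (.inr b))) e.2 +
      (if e.2 = .inl a then ub a Z (fun b => f (q (.inr b))) e.1 else 0) +
      (if e.1 = .inl a then ub a Z (fun b => f (q (.inr b))) e.2 else 0)
    rw [map_add, map_add, map_add, map_mul, map_mul, h3, h2, h2]
    congr 1
    · congr 1
      split_ifs
      · exact h2 _
      · exact map_zero f
    · split_ifs
      · exact h2 _
      · exact map_zero f
  memF C _ _ p hp := by
    obtain ⟨h, hu⟩ := hp
    have h0 := h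
    obtain ⟨⟨h1, h2, h3, h4⟩, h5⟩ := h0
    have hA : ∀ a', a' ≠ a → p (.inl a', .inl a) = 0 := fun a' ha' => h2 a' a ha'
    refine ⟨⟨fun x y => ?_, fun a1 a2 h12 => ?_, fun a1 h1' => ?_, fun e he => ?_⟩, ?_⟩
    · change pv1 a p (x, y) = pv1 a p (y, x)
      by_cases hx : x = .inl a <;> by_cases hy : y = .inl a
      · subst hx
        subst hy
        rfl
      · subst hx
        rw [pv1_ax a p hy, pv1_xa a p hy]
      · subst hy
        rw [pv1_ax a p hx, pv1_xa a p hx]
      · rw [pv1_xy a p hx hy, pv1_xy a p hy hx, h1 x y, h1 x (.inl a), h1 y (.inl a)]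
        ring
    · change pv1 a p (.inl a1, .inl a2) = 0
      by_cases hx : a1 = a
      · subst hx
        exact pv1_ax _ p fun h => h12 (Sum.inl.inj h).symm
      · by_cases hy : a2 = a
        · subst hy
          exact pv1_xa _ p fun h => h12 (Sum.inl.inj h)
        · rw [pv1_xy a p (fun h => hx (Sum.inl.inj h)) fun h => hy (Sum.inl.inj h), h2 a1 a2 h12,
            hA a1 hx]
          ring
    · have hx : a1 ≠ a := by
        rintro rfl
        exact ha h1'
      change pv1 a p (.inl a1, .inl a1) = 0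
      rw [pv1_xy a p (fun h => hx (Sum.inl.inj h)) fun h => hx (Sum.inl.inj h), h3 a1 h1',
        hA a1 hx]
      ring
    · obtain ⟨a1, b⟩ := e
      change pv1 a p (.inl a1, .inr b) = 0
      by_cases hx : a1 = a
      · subst hx
        exact pv1_ax _ p fun h => by cases h
      · rcases he with he | he
        · have h6 : p (.inl a1, .inr b) = 0 := h4 _ he
          rw [pv1_xy a p (fun h => hx (Sum.inl.inj h)) (fun h => by cases h), h6, hA a1 hx]
          ring
        · exact absurd he hx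
    · change IsUnit (Matrix.of fun x y => pv1 a p (x, y)).det
      rw [← pv2_det a (pv1 a p) (ub a Z fun b => p (.inl a, .inr b.1)) ?_ rfl
        (fun x hx => pv1_xa a p hx) fun x hx => pv1_ax a p hx, pv2_pv1 a h]
      · exact h5
      · rw [pv1_aa]
        exact hu
  memG C _ _ q hq := by
    have hq' : (sy R (za a Z) O).pts C fun e => q (.inl e) := hq
    have hu := za_unit a hq'
    have hz := za_zero a hq'
    have hz' := za_zero' a hq'
    obtain ⟨⟨h1, h2, h3, h4⟩, h5⟩ := hq
    let u : A ⊕ B → C := ub a Z fun b => q (.inr b)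
    have hu0 : ∀ a', u (.inl a') = 0 := fun _ => rfl
    have key : ∀ x y, pv2 a (fun e => q (.inl e)) u (x, y) = q (.inl (x, y)) +
        Ring.inverse (q (.inl (.inl a, .inl a))) * u x * u y +
        (if y = .inl a then u x else 0) + (if x = .inl a then u y else 0) := fun _ _ => rfl
    refine ⟨⟨⟨fun x y => ?_, fun a1 a2 h12 => ?_, fun a1 h1' => ?_, fun e he => ?_⟩, ?_⟩, ?_⟩
    · change pv2 a (fun e => q (.inl e)) u (x, y) = pv2 a (fun e => q (.inl e)) u (y, x)
      have h6 : q (.inl (x, y)) = q (.inl (y, x)) := h1 x y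
      rw [key, key, h6]
      ring
    · change pv2 a (fun e => q (.inl e)) u (.inl a1, .inl a2) = 0
      have h6 : q (.inl (.inl a1, .inl a2)) = 0 := h2 a1 a2 h12
      rw [key, h6, hu0, hu0]
      simp
    · change pv2 a (fun e => q (.inl e)) u (.inl a1, .inl a1) = 0
      have h6 : q (.inl (.inl a1, .inl a1)) = 0 := h3 a1 h1'
      rw [key, h6, hu0]
      simp
    · obtain ⟨a1, b⟩ := e
      change pv2 a (fun e => q (.inl e)) u (.inl a1, .inr b) = 0
      have h6 : q (.inl (.inl a1, .inr b)) = 0 := h4 (a1, b) (Or.inl he)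
      rw [key, h6, hu0]
      by_cases hx : a1 = a
      · subst hx
        have h7 : u (.inr b) = 0 := dif_neg (not_not.mpr he)
        rw [h7]
        simp
      · rw [if_neg fun h => hx (Sum.inl.inj h)]
        simp
    · change IsUnit (Matrix.of fun x y => pv2 a (fun e => q (.inl e)) u (x, y)).det
      rw [pv2_det a (fun e => q (.inl e)) u hu rfl hz' hz]
      exact h5
    · change IsUnit (pv2 a (fun e => q (.inl e)) u (.inl a, .inl a))
      rw [pv2_aa a _ u rfl]
      exact hu
  GF C _ _ p hp := pv2_pv1 a hp.1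
  FG C _ _ q hq := by
    have hq' : (sy R (za a Z) O).pts C fun e => q (.inl e) := hq
    have hu := za_unit a hq'
    have hz := za_zero a hq'
    have hz' := za_zero' a hq'
    let u : A ⊕ B → C := ub a Z fun b => q (.inr b)
    have hu0 : u (.inl a) = 0 := rfl
    funext t
    rcases t with ⟨x, y⟩ | b
    · change pv1 a (pv2 a (fun e => q (.inl e)) u) (x, y) = q (.inl (x, y))
      by_cases hx : x = .inl a <;> by_cases hy : y = .inl a
      · subst hx
        subst hy
        rw [pv1_aa, pv2_aa a _ u hu0]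
      · subst hx
        rw [pv1_ax a _ hy]
        exact (hz y hy).symm
      · subst hy
        rw [pv1_xa a _ hx]
        exact (hz' x hx).symm
      · rw [pv1_xy a _ hx hy, pv2_xy a _ u hx hy, pv2_xa a _ u hu0 hx (hz' x hx),
          pv2_ax a _ u hu0 hy (hz y hy), pv2_aa a _ u hu0]
        ring
    · change pv2 a (fun e => q (.inl e)) u (.inl a, .inr b.1) = q (.inr b)
      rw [pv2_ax a _ u hu0 (fun h => by cases h) (hz (.inr b.1) fun h => by cases h)]
      exact ub_mem a _ b

/-- prescribing zeros on the diagonal of the block -/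
theorem hol_diag (hP : Bnd sep P) (h : ∀ Z : Set (A × B), Hol P (sy R Z ∅)) (O : Finset A)
    (Z : Set (A × B)) : Hol P (sy R Z (O : Set A)) := by
  induction O using Finset.induction_on generalizing Z with
  | empty => rw [Finset.coe_empty]; exact h Z
  | insert a O ha ih =>
    have : Fintype {b : B // (a, b) ∉ Z} := Fintype.ofFinite _
    have h1 : Hol P ((sy R Z (O : Set A)).opn (dgFn a R Z (O : Set A))) :=
      ((ih (za a Z)).aff hP {b : B // (a, b) ∉ Z}).trans
        (bij_pv a Z (O : Set A) fun h => ha (Finset.mem_coe.mp h)).symm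
    refine Hol.congr (fun C _ _ p => ?_) ((ih Z).clo hP.toUni _ h1)
    rw [Finset.coe_insert]
    constructor
    · rintro ⟨⟨⟨h1, h2, h3, h4⟩, h5⟩, h6⟩
      refine ⟨⟨h1, h2, ?_, h4⟩, h5⟩
      rintro a' (rfl | ha')
      · exact h6
      · exact h3 a' ha'
    · rintro ⟨⟨h1, h2, h3, h4⟩, h5⟩
      exact ⟨⟨⟨h1, h2, fun a' ha' => h3 a' (Or.inr ha'), h4⟩, h5⟩, h3 a (Or.inl rfl)⟩

end sy

end Pool.Agent.H81.RZ
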