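import Pool.Agent.H81.RZ.Gad
import Pool.Graph.R_seed8.Q193.LT.Prime

/-!
# Removing the torus, and the hypersurfaces of tripartite hypergraphs
-/

set_option autoImplicit false

open CategoryTheory AlgebraicGeometry MvPolynomial Pool.Agent.Y116.UV Pool.Agent.Q193.LT Pool.Agent.Q282.UK

namespace Pool.Agent.H81.RZ

variable {R : Type} [CommRing R] {sep : Prop} {P : Sch R → Prop} (hP : Clo sep P)

section

variable {V E : Type} [Fintype V] [Fintype E] {s : ℕ}

/-- the normalised entry of a row -/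
def jr : Rw V s → Cl V E s
  | .D a => .D a
  | .c0 => .D (.inl 0)
  | .v _ => .D (.inl 0)
  | .h _ => .D (.inl 1)
  | .d _ => .D (.inl 0)
  | .n _ => .D (.inl 1)
  | .l _ => .D (.inl 1)

/-- the normalised entry of a column -/
def ic : Cl V E s → Rw V s
  | .D _ => .c0
  | .n1 => .D (.inl 0)
  | .pm => .D (.inl 2)
  | .p _ => .D (.inl 2)
  | .p' _ => .D (.inl 2)
  | .m _ => .D (.inl 0)
  | .q _ => .D (.inl 2)

/-- the first columns -/
def bJ1 : Cl V E s → Bool
  | .D (.inl _) => true
  | _ => false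

/-- the rows of the block -/
def bI2 : Rw V s → Bool
  | .D _ => true
  | _ => false

/-- the other rows -/
def bI3 : Rw V s → Bool
  | .D _ => false
  | .c0 => false
  | _ => true

/-- the other columns -/
def bJ4 : Cl V E s → Bool
  | .D _ => false
  | _ => true

omit [Fintype V] [Fintype E] in
lemma tt_iff (r : Rw V s) (c : Cl V E s) : tt r c ↔
    (((bJ1 c = true ∧ ic c = r) ∨ (bI2 r = true ∧ jr r = c)) ∨ (bI3 r = true ∧ jr r = c)) ∨
      (bJ4 c = true ∧ ic c = r) := by
  cases r with
  | D a =>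
    cases c with
    | D b =>
      rcases b with b | b <;> simp [bJ1, bI2, bI3, bJ4, jr, ic, tt]
    | _ =>
      rcases a with a | a
      · fin_cases a <;> simp [bJ1, bI2, bI3, bJ4, jr, ic, tt]
      · simp [bJ1, bI2, bI3, bJ4, jr, ic, tt]
  | _ =>
    cases c with
    | D b =>
      rcases b with b | b
      · fin_cases b <;> simp [bJ1, bI2, bI3, bJ4, jr, ic, tt]
      · simp [bJ1, bI2, bI3, bJ4, jr, ic, tt]
    | _ => simp [bJ1, bI2, bI3, bJ4, jr, ic, tt]

include hP

/-- from the matrices of small rank to the solutions of the systems -/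
theorem hol_slp' (Y : Sys V E)
    (h : ∀ U : Finset (Rw V s × Cl V E s), (∀ e, e ∈ U ↔ tt e.1 e.2) →
      Hol P (MS R (3 + s) {e : Rw V s × Cl V E s | zz Y e.1 e.2} (U : Set _) ∅)) :
    Hol P (slp R Y) := by
  classical
  let J1 : Finset (Cl V E s) := Finset.univ.filter fun c => bJ1 c = true
  let I2 : Finset (Rw V s) := Finset.univ.filter fun r => bI2 r = true
  let I3 : Finset (Rw V s) := Finset.univ.filter fun r => bI3 r = true
  let J4 : Finset (Cl V E s) := Finset.univ.filter fun c => bJ4 c = true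
  have mJ1 : ∀ c, c ∈ J1 ↔ bJ1 c = true := fun c => by simp [J1]
  have mI2 : ∀ c, c ∈ I2 ↔ bI2 c = true := fun c => by simp [I2]
  have mI3 : ∀ c, c ∈ I3 ↔ bI3 c = true := fun c => by simp [I3]
  have mJ4 : ∀ c, c ∈ J4 ↔ bJ4 c = true := fun c => by simp [J4]
  let N1 : Finset (Rw V s × Cl V E s) := ∅ ∪ J1.image fun j => (ic j, j)
  let N2 : Finset (Rw V s × Cl V E s) := N1 ∪ I2.image fun i => (i, jr i)
  let N3 : Finset (Rw V s × Cl V E s) := N2 ∪ I3.image fun i => (i, jr i)
  let N4 : Finset (Rw V s × Cl V E s) := N3 ∪ J4.image fun j => (ic j, j)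
  have c1 : ∀ r c, (r, c) ∈ N1 ↔ bJ1 c = true ∧ ic c = r := fun r c => by
    constructor
    · intro h
      rcases Finset.mem_union.mp h with h | h
      · exact absurd h (Finset.notMem_empty _)
      · obtain ⟨j, hj, h5⟩ := Finset.mem_image.mp h
        have h6 : j = c := congrArg Prod.snd h5
        subst h6
        exact ⟨(mJ1 _).mp hj, congrArg Prod.fst h5⟩
    · rintro ⟨h1, rfl⟩
      exact Finset.mem_union_right _ (Finset.mem_image.mpr ⟨c, (mJ1 c).mpr h1, rfl⟩)
  have c2 : ∀ r c, (r, c) ∈ N2 ↔ (bJ1 c = true ∧ ic c = r) ∨ (bI2 r = true ∧ jr r = c) :=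
    fun r c => by
    constructor
    · intro h
      rcases Finset.mem_union.mp h with h | h
      · exact Or.inl ((c1 r c).mp h)
      · obtain ⟨j, hj, h5⟩ := Finset.mem_image.mp h
        have h6 : j = r := congrArg Prod.fst h5
        subst h6
        exact Or.inr ⟨(mI2 _).mp hj, congrArg Prod.snd h5⟩
    · rintro (h | ⟨h1, rfl⟩)
      · exact Finset.mem_union_left _ ((c1 r c).mpr h)
      · exact Finset.mem_union_right _ (Finset.mem_image.mpr ⟨r, (mI2 r).mpr h1, rfl⟩)
  have c3 : ∀ r c, (r, c) ∈ N3 ↔ ((bJ1 c = true ∧ ic c = r) ∨ (bI2 r = true ∧ jr r = c)) ∨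
      (bI3 r = true ∧ jr r = c) := fun r c => by
    constructor
    · intro h
      rcases Finset.mem_union.mp h with h | h
      · exact Or.inl ((c2 r c).mp h)
      · obtain ⟨j, hj, h5⟩ := Finset.mem_image.mp h
        have h6 : j = r := congrArg Prod.fst h5
        subst h6
        exact Or.inr ⟨(mI3 _).mp hj, congrArg Prod.snd h5⟩
    · rintro (h | ⟨h1, rfl⟩)
      · exact Finset.mem_union_left _ ((c2 r c).mpr h)
      · exact Finset.mem_union_right _ (Finset.mem_image.mpr ⟨r, (mI3 r).mpr h1, rfl⟩)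
  have c4 : ∀ r c, (r, c) ∈ N4 ↔ tt r c := fun r c => by
    rw [tt_iff]
    constructor
    · intro h
      rcases Finset.mem_union.mp h with h | h
      · exact Or.inl ((c3 r c).mp h)
      · obtain ⟨j, hj, h5⟩ := Finset.mem_image.mp h
        have h6 : j = c := congrArg Prod.snd h5
        subst h6
        exact Or.inr ⟨(mJ4 _).mp hj, congrArg Prod.fst h5⟩
    · rintro (h | ⟨h1, rfl⟩)
      · exact Finset.mem_union_left _ ((c3 r c).mpr h)
      · exact Finset.mem_union_right _ (Finset.mem_image.mpr ⟨c, (mJ4 c).mpr h1, rfl⟩)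
  have h1 := h N4 fun e => c4 e.1 e.2
  have m3 : N3 ⊆ N4 := Finset.subset_union_left
  have m2 : N2 ⊆ N4 := Finset.subset_union_left.trans m3
  have m1 : N1 ⊆ N4 := Finset.subset_union_left.trans m2
  rw [← Finset.coe_empty] at h1
  have h2 : Hol P (MS R (3 + s) {e : Rw V s × Cl V E s | zz Y e.1 e.2} (N4 : Set _) (N1 : Set _)) :=
    hol_cols hP J1 (ic : Cl V E s → Rw V s) (fun j hj => m1 ((c1 _ _).mpr ⟨(mJ1 j).mp hj, rfl⟩))
      (fun j _ i' => Finset.notMem_empty _) h1
  have h3 : Hol P (MS R (3 + s) {e : Rw V s × Cl V E s | zz Y e.1 e.2} (N4 : Set _) (N2 : Set _)) :=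
    hol_rows hP I2 (jr : Rw V s → Cl V E s)
      (fun i hi => m2 ((c2 _ _).mpr (Or.inr ⟨(mI2 i).mp hi, rfl⟩))) (fun i hi j' hj => by
        have h5 := (c1 _ _).mp hj
        have h6 := (mI2 _).mp hi
        rw [← h5.2] at h6
        cases j' with
        | D b => exact absurd h6 (by simp [ic, bI2])
        | _ => exact absurd h5.1 (by simp [bJ1])) h2
  have h4 : Hol P (MS R (3 + s) {e : Rw V s × Cl V E s | zz Y e.1 e.2} (N4 : Set _) (N3 : Set _)) :=
    hol_rows hP I3 (jr : Rw V s → Cl V E s)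
      (fun i hi => m3 ((c3 _ _).mpr (Or.inr ⟨(mI3 i).mp hi, rfl⟩))) (fun i hi j' hj => by
        have h6 := (mI3 _).mp hi
        rcases (c2 _ _).mp hj with h5 | h5
        · rw [← h5.2] at h6
          cases j' with
          | D b => exact absurd h6 (by simp [ic, bI3])
          | _ => exact absurd h5.1 (by simp [bJ1])
        · cases i with
          | D b => exact absurd h6 (by simp [bI3])
          | _ => exact absurd h5.1 (by simp [bI2])) h3
  have h5 : Hol P (MS R (3 + s) {e : Rw V s × Cl V E s | zz Y e.1 e.2} (N4 : Set _) (N4 : Set _)) :=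
    hol_cols hP J4 (ic : Cl V E s → Rw V s)
      (fun j hj => (c4 _ _).mpr ((tt_iff _ _).mpr (Or.inr ⟨(mJ4 j).mp hj, rfl⟩)))
      (fun j hj i' hi => by
        have h6 := (mJ4 _).mp hj
        have h8 : ∀ i : Rw V s, bJ4 (jr i : Cl V E s) = false := by
          intro i
          cases i <;> rfl
        rcases (c3 _ _).mp hi with (h5 | h5) | h5
        · cases j with
          | D b => exact absurd h6 (by simp [bJ4])
          | _ => exact absurd h5.1 (by simp [bJ1])
        · rw [← h5.2, h8] at h6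
          exact absurd h6 (by simp)
        · rw [← h5.2, h8] at h6
          exact absurd h6 (by simp)) h4
  have h6 : ((N4 : Finset (Rw V s × Cl V E s)) : Set (Rw V s × Cl V E s)) = {e | tt e.1 e.2} := by
    ext e
    exact c4 e.1 e.2
  rw [h6] at h5
  exact h5.trans (bij_mat (R := R) (s := s) Y {e | tt e.1 e.2} fun e he => he)

/-- from the matrices of small rank to the solutions of the systems -/
theorem hol_slp (Y : Sys V E)
    (h : ∀ Z : Set (Rw V s × Cl V E s), Hol P (MS R (3 + s) Z (∅ : Set _) ∅)) :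
    Hol P (slp R Y) :=
  hol_slp' hP Y fun U _ => hol_units hP h U _

end

end Pool.Agent.H81.RZ
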