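import Mathlib
import Pool.Graph.R_pool_sql_team_39128cda.Lib.helper28_.MatrixTree

/-!
# The matrix tree theorem over commutative rings
-/

set_option autoImplicit false
set_option linter.unusedSectionVars false

open MvPolynomial

namespace Pool.Agent.H81.RZ

variable {V : Type} [Fintype V] [DecidableEq V]

/-- the Laplacian matrix of the weights `w` -/
def lapl {C : Type} [CommRing C] (w : Sym2 V → C) : Matrix V V C :=
  Matrix.of fun u v => (if u = v then ∑ t, w s(u, t) else 0) - w s(u, v)

open Classical in
/-- the sum over the spanning trees -/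
noncomputable def trees {C : Type} [CommRing C] (w : Sym2 V → C) : C :=
  ∑ T ∈ (Finset.univ : Finset (Finset (Sym2 V))).filter
    (fun T : Finset (Sym2 V) => (SimpleGraph.fromEdgeSet (T : Set (Sym2 V))).IsTree), ∏ e ∈ T, w e

lemma map_lapl {C D : Type} [CommRing C] [CommRing D] (f : C →+* D) (w : Sym2 V → C) (r : V) :
    f ((lapl w).updateRow r (Pi.single r 1)).det =
      ((lapl fun e => f (w e)).updateRow r (Pi.single r 1)).det := by
  rw [RingHom.map_det]
  congr 1
  ext x y
  change f ((lapl w).updateRow r (Pi.single r 1) x y) = _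
  by_cases hx : x = r
  · subst hx
    rw [Matrix.updateRow_self, Matrix.updateRow_self, Pi.single_apply, Pi.single_apply]
    split_ifs
    · exact map_one f
    · exact map_zero f
  · rw [Matrix.updateRow_ne hx, Matrix.updateRow_ne hx]
    simp only [lapl, Matrix.of_apply, map_sub]
    split_ifs
    · rw [map_sum]
    · rw [map_zero]

lemma map_trees {C D : Type} [CommRing C] [CommRing D] (f : C →+* D) (w : Sym2 V → C) :
    f (trees w) = trees fun e => f (w e) := by
  rw [trees, map_sum]
  apply Finset.sum_congr rfl
  intro T _
  rw [map_prod]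

/-- The matrix tree theorem. -/
theorem matrix_tree {C : Type} [CommRing C] (w : Sym2 V → C) (hw : ∀ e : Sym2 V, e.IsDiag → w e = 0)
    (r : V) : ((lapl w).updateRow r (Pi.single r 1)).det = trees w := by
  classical
  let W : Sym2 V → MvPolynomial (Sym2 V) ℤ := fun e => if e.IsDiag then 0 else X e
  have h1 : ((lapl W).updateRow r (Pi.single r 1)).det = trees W := by
    apply MvPolynomial.map_injective (Int.castRingHom ℝ) Int.cast_injective
    apply MvPolynomial.funext
    intro x
    let f : MvPolynomial (Sym2 V) ℤ →+* ℝ :=
      (MvPolynomial.eval x).comp (MvPolynomial.map (Int.castRingHom ℝ))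
    change f _ = f _
    rw [map_lapl, map_trees]
    have h2 : ∀ e : Sym2 V, e.IsDiag → f (W e) = 0 := by
      intro e he
      simp only [W, if_pos he, map_zero]
    have h3 := Pool.Agent.Lib.helper28.MatrixTree.matrix_tree (fun e => f (W e)) h2 r
    exact h3
  have h4 := congrArg (MvPolynomial.eval₂Hom (Int.castRingHom C) w) h1
  rw [map_lapl, map_trees] at h4
  have h5 : (fun e => (MvPolynomial.eval₂Hom (Int.castRingHom C) w) (W e)) = w := by
    funext e
    by_cases he : e.IsDiag
    · simp only [W, if_pos he, map_zero]
      exact (hw e he).symm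
    · simp only [W, if_neg he]
      exact eval₂Hom_X' _ _ _
  rw [h5] at h4
  exact h4

end Pool.Agent.H81.RZ
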